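import Pool.Agent.Lib.MP_c3d1b0_co.Defs

set_option autoImplicit false

/-!
# The walk driven by exit data
-/

namespace Pool.Agent.MP_c3d1b0

open Finset

section run

variable {V : Type} [Fintype V] [DecidableEq V] {s : ℕ}

/-- One step of the walk driven by the exit data `o`. -/
def nxt (o : V → Fin s → V) (c : V × (V → ℕ)) : V × (V → ℕ) :=
  if h : c.2 c.1 < s then (o c.1 ⟨c.2 c.1, h⟩, Function.update c.2 c.1 (c.2 c.1 + 1)) else c

/-- The walk driven by the exit data `o`, started at `r`, with its exit counters. -/
def run (o : V → Fin s → V) (r : V) (i : ℕ) : V × (V → ℕ) := (nxt o)^[i] (r, fun _ => 0)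

lemma run_succ (o : V → Fin s → V) (r : V) (i : ℕ) : run o r (i + 1) = nxt o (run o r i) := by
  unfold run
  rw [Function.iterate_succ_apply']

/-- Last exits. -/
def lastv (o : V → Fin s → V) (hs : 0 < s) (r v : V) : V :=
  if v = r then r else o v ⟨s - 1, by omega⟩

/-- Good exit data. -/
def Good (hs : 0 < s) (r : V) (o : V → Fin s → V) : Prop :=
  Cov (fun p : V × Fin s => p.1) (fun p : V × Fin s => o p.1 p.2) ∧ IsArb r (lastv o hs r)

/-- The invariant of the driven walk. -/
structure Inv (o : V → Fin s → V) (r : V) (i : ℕ) (c : V × (V → ℕ)) : Prop where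
  le : ∀ v, c.2 v ≤ s
  sum : ∑ v, c.2 v = i
  bal : ∀ v, (univ.filter (fun p : V × Fin s => (p.2 : ℕ) < c.2 p.1 ∧ o p.1 p.2 = v)).card
    + (if v = r then 1 else 0) = c.2 v + (if v = c.1 then 1 else 0)

lemma inv_zero (o : V → Fin s → V) (r : V) : Inv o r 0 (r, fun _ => 0) := by
  refine ⟨fun v => by simp, by simp, fun v => by simp⟩

lemma inv_step {o : V → Fin s → V} {r : V} {i : ℕ} {c : V × (V → ℕ)} (h : Inv o r i c)
    (hc : c.2 c.1 < s) : Inv o r (i + 1) (nxt o c) := by
  unfold nxt
  rw [dif_pos hc]
  refine ⟨?_, ?_, ?_⟩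
  · intro v
    simp only
    by_cases hv : v = c.1
    · subst hv; simp; omega
    · rw [Function.update_of_ne hv]; exact h.le v
  · simp only
    rw [Finset.sum_update_of_mem (Finset.mem_univ _)]
    have := h.sum
    rw [← Finset.add_sum_erase _ _ (Finset.mem_univ c.1)] at this
    rw [Finset.sdiff_singleton_eq_erase]
    omega
  · intro v
    simp only
    have hset : (univ.filter (fun p : V × Fin s =>
        (p.2 : ℕ) < Function.update c.2 c.1 (c.2 c.1 + 1) p.1 ∧ o p.1 p.2 = v)) =
        (univ.filter (fun p : V × Fin s => (p.2 : ℕ) < c.2 p.1 ∧ o p.1 p.2 = v)) ∪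
        (if v = o c.1 ⟨c.2 c.1, hc⟩ then {(c.1, ⟨c.2 c.1, hc⟩)} else ∅) := by
      ext p
      obtain ⟨u, k⟩ := p
      by_cases hu : u = c.1
      · subst hu
        by_cases hk : (k : ℕ) = c.2 c.1
        · have hk' : k = ⟨c.2 c.1, hc⟩ := Fin.ext hk
          subst hk'
          by_cases hv : v = o c.1 ⟨c.2 c.1, hc⟩
          · subst hv; simp
          · simp [hv]
            intro h2
            exact absurd h2.symm hv
        · have : (k : ℕ) < c.2 c.1 + 1 ↔ (k : ℕ) < c.2 c.1 := by omega
          by_cases hv : v = o c.1 ⟨c.2 c.1, hc⟩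
          · simp [hv, this, Fin.ext_iff, hk]
          · simp [hv, this]
      · by_cases hv : v = o c.1 ⟨c.2 c.1, hc⟩
        · simp [hv, Function.update_of_ne hu, hu]
        · simp [hv, Function.update_of_ne hu]
    rw [hset, Finset.card_union_of_disjoint]
    · have hb := h.bal v
      by_cases hv : v = o c.1 ⟨c.2 c.1, hc⟩
      · rw [if_pos hv, if_pos hv, Finset.card_singleton]
        by_cases hv2 : v = c.1
        · rw [if_pos hv2] at hb
          rw [← hv2, Function.update_self]
          omega
        · rw [if_neg hv2] at hb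
          rw [Function.update_of_ne hv2]
          omega
      · rw [if_neg hv, if_neg hv, Finset.card_empty]
        by_cases hv2 : v = c.1
        · rw [if_pos hv2] at hb
          rw [← hv2, Function.update_self]
          omega
        · rw [if_neg hv2] at hb
          rw [Function.update_of_ne hv2]
          omega
    · rw [Finset.disjoint_left]
      intro p hp hp2
      split_ifs at hp2 with hh
      · rw [Finset.mem_singleton] at hp2
        subst hp2
        simp at hp
      · simp at hp2

lemma indeg_eq {o : V → Fin s → V} (hV : Fintype.card V = 2 * s + 1)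
    (h : Cov (fun p : V × Fin s => p.1) (fun p : V × Fin s => o p.1 p.2)) (v : V) :
    (univ.filter (fun p : V × Fin s => o p.1 p.2 = v)).card = s := by
  have h1 := cov_deg (I := V × Fin s) hV (by rw [Fintype.card_prod, hV, Fintype.card_fin]; ring) h v
  have h2 : (univ.filter (fun p : V × Fin s => p.1 = v)).card = s := by
    have : (univ.filter (fun p : V × Fin s => p.1 = v)) = ({v} : Finset V) ×ˢ (univ : Finset (Fin s)) := by
      ext p
      rw [Finset.mem_product, Finset.mem_filter, Finset.mem_singleton]
      simp only [Finset.mem_univ, true_and, and_true]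
    rw [this, Finset.card_product]
    simp
  omega

lemma notstuck {hs : 0 < s} {o : V → Fin s → V} {r : V} (hV : Fintype.card V = 2 * s + 1)
    (hg : Good hs r o) {i : ℕ} {c : V × (V → ℕ)} (h : Inv o r i c) (hi : i < s * (2 * s + 1)) :
    c.2 c.1 < s := by
  by_contra hcon
  have hcs : c.2 c.1 = s := le_antisymm (h.le _) (not_lt.mp hcon)
  have hent : ∀ v, (univ.filter (fun p : V × Fin s => (p.2 : ℕ) < c.2 p.1 ∧ o p.1 p.2 = v)).card ≤ s := by
    intro v
    refine le_of_le_of_eq (Finset.card_le_card ?_) (indeg_eq hV hg.1 v)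
    intro p hp
    simp only [Finset.mem_filter, Finset.mem_univ, true_and] at hp ⊢
    exact hp.2
  have hr : c.1 = r := by
    by_contra hne
    have h1 := h.bal c.1
    rw [if_neg hne, if_pos rfl, hcs] at h1
    have := hent c.1
    omega
  have hfull : ∀ v, c.2 v = s := by
    intro v
    obtain ⟨k, hk⟩ := hg.2.2 v
    induction k generalizing v with
    | zero =>
      simp only [Function.iterate_zero, id_eq] at hk
      rw [hk, ← hr, hcs]
    | succ k ih =>
      rw [Function.iterate_succ_apply] at hk
      have h1 := ih _ hk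
      by_cases hv : v = r
      · rw [hv, ← hr, hcs]
      · unfold lastv at h1
        rw [if_neg hv] at h1
        set u := o v ⟨s - 1, by omega⟩ with hu
        have h2 := h.bal u
        rw [h1] at h2
        have h3 : (univ.filter (fun p : V × Fin s => (p.2 : ℕ) < c.2 p.1 ∧ o p.1 p.2 = u)).card = s := by
          rw [hr] at h2
          omega
        have h4 : (univ.filter (fun p : V × Fin s => (p.2 : ℕ) < c.2 p.1 ∧ o p.1 p.2 = u)) =
            (univ.filter (fun p : V × Fin s => o p.1 p.2 = u)) := by
          apply Finset.eq_of_subset_of_card_le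
          · intro p hp
            simp only [Finset.mem_filter, Finset.mem_univ, true_and] at hp ⊢
            exact hp.2
          · rw [h3, indeg_eq hV hg.1 u]
        have h5 : ((v, ⟨s - 1, by omega⟩) : V × Fin s) ∈
            (univ.filter (fun p : V × Fin s => (p.2 : ℕ) < c.2 p.1 ∧ o p.1 p.2 = u)) := by
          rw [h4]
          simp [hu]
        simp only [Finset.mem_filter, Finset.mem_univ, true_and] at h5
        have := h.le v
        omega
  have := h.sum
  rw [Finset.sum_congr rfl (fun v _ => hfull v)] at this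
  simp only [Finset.sum_const, Finset.card_univ, hV, smul_eq_mul] at this
  rw [mul_comm] at this
  omega

lemma run_inv {hs : 0 < s} {o : V → Fin s → V} {r : V} (hV : Fintype.card V = 2 * s + 1)
    (hg : Good hs r o) (i : ℕ) (hi : i ≤ s * (2 * s + 1)) : Inv o r i (run o r i) := by
  induction i with
  | zero => exact inv_zero o r
  | succ i ih =>
    rw [run_succ]
    exact inv_step (ih (by omega)) (notstuck hV hg (ih (by omega)) (by omega))

lemma run_lt {hs : 0 < s} {o : V → Fin s → V} {r : V} (hV : Fintype.card V = 2 * s + 1)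
    (hg : Good hs r o) (i : ℕ) (hi : i < s * (2 * s + 1)) :
    (run o r i).2 (run o r i).1 < s :=
  notstuck hV hg (run_inv hV hg i hi.le) hi

lemma run_succ' {hs : 0 < s} {o : V → Fin s → V} {r : V} (hV : Fintype.card V = 2 * s + 1)
    (hg : Good hs r o) (i : ℕ) (hi : i < s * (2 * s + 1)) :
    run o r (i + 1) = (o (run o r i).1 ⟨_, run_lt hV hg i hi⟩,
      Function.update (run o r i).2 (run o r i).1 ((run o r i).2 (run o r i).1 + 1)) := by
  rw [run_succ]
  unfold nxt
  rw [dif_pos (run_lt hV hg i hi)]

/-- The slot used at step `i`. -/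
def slot {hs : 0 < s} {o : V → Fin s → V} {r : V} (hV : Fintype.card V = 2 * s + 1)
    (hg : Good hs r o) (i : Fin (s * (2 * s + 1))) : V × Fin s :=
  ((run o r i).1, ⟨(run o r i).2 (run o r i).1, run_lt hV hg i i.2⟩)

lemma run_mono {hs : 0 < s} {o : V → Fin s → V} {r : V} (hV : Fintype.card V = 2 * s + 1)
    (hg : Good hs r o) {i j : ℕ} (hij : i ≤ j) (hj : j ≤ s * (2 * s + 1)) (v : V) :
    (run o r i).2 v ≤ (run o r j).2 v := by
  induction j, hij using Nat.le_induction with
  | base => exact le_rfl
  | succ j hij ih =>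
    refine (ih (by omega)).trans ?_
    rw [run_succ' hV hg j (by omega)]
    simp only
    by_cases hv : v = (run o r j).1
    · rw [hv, Function.update_self]; omega
    · rw [Function.update_of_ne hv]

lemma slot_inj {hs : 0 < s} {o : V → Fin s → V} {r : V} (hV : Fintype.card V = 2 * s + 1)
    (hg : Good hs r o) : Function.Injective (slot hV hg) := by
  have key : ∀ i j : Fin (s * (2 * s + 1)), i < j → slot hV hg i ≠ slot hV hg j := by
    intro i j hij he
    unfold slot at he
    rw [Prod.mk.injEq] at he
    obtain ⟨h1, h2⟩ := he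
    rw [Fin.mk.injEq] at h2
    have h3 := run_mono hV hg (i := i + 1) (j := j) (by omega) (by omega) (run o r i).1
    rw [run_succ' hV hg i i.2] at h3
    simp only [Function.update_self] at h3
    rw [h2, h1] at h3
    omega
  intro i j he
  rcases lt_trichotomy i j with h | h | h
  · exact absurd he (key i j h)
  · exact h
  · exact absurd he.symm (key j i h)

lemma slot_bij {hs : 0 < s} {o : V → Fin s → V} {r : V} (hV : Fintype.card V = 2 * s + 1)
    (hg : Good hs r o) : Function.Bijective (slot hV hg) := by
  rw [Fintype.bijective_iff_injective_and_card]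
  refine ⟨slot_inj hV hg, ?_⟩
  rw [Fintype.card_prod, hV, Fintype.card_fin, Fintype.card_fin]
  ring

/-- The walk of good exit data. -/
def walk (o : V → Fin s → V) (r : V) : Fin (s * (2 * s + 1) + 1) → V := fun i => (run o r i).1

lemma walk_succ {hs : 0 < s} {o : V → Fin s → V} {r : V} (hV : Fintype.card V = 2 * s + 1)
    (hg : Good hs r o) (i : Fin (s * (2 * s + 1))) :
    walk o r i.succ = o (slot hV hg i).1 (slot hV hg i).2 := by
  unfold walk slot
  simp only [Fin.val_succ]
  rw [run_succ' hV hg i i.2]

lemma walk_castSucc {hs : 0 < s} {o : V → Fin s → V} {r : V} (hV : Fintype.card V = 2 * s + 1)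
    (hg : Good hs r o) (i : Fin (s * (2 * s + 1))) :
    walk o r i.castSucc = (slot hV hg i).1 := rfl

lemma walk_mem {hs : 0 < s} {o : V → Fin s → V} {r : V} (hV : Fintype.card V = 2 * s + 1)
    (hg : Good hs r o) : walk o r ∈ EW V (s * (2 * s + 1)) r := by
  refine ⟨rfl, ?_, ?_⟩
  · have h := run_inv hV hg (s * (2 * s + 1)) le_rfl
    have hall : ∀ v, (run o r (s * (2 * s + 1))).2 v = s := by
      by_contra hcon
      push Not at hcon
      obtain ⟨v, hv⟩ := hcon
      have h1 : ∑ v, (run o r (s * (2 * s + 1))).2 v < ∑ v : V, s :=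
        Finset.sum_lt_sum (fun u _ => h.le u) ⟨v, Finset.mem_univ _, lt_of_le_of_ne (h.le v) hv⟩
      rw [h.sum] at h1
      simp only [Finset.sum_const, Finset.card_univ, hV, smul_eq_mul] at h1
      rw [mul_comm] at h1
      exact lt_irrefl _ h1
    have h2 := h.bal (run o r (s * (2 * s + 1))).1
    rw [if_pos rfl, hall] at h2
    have h3 : (univ.filter (fun p : V × Fin s => (p.2 : ℕ) < (run o r (s * (2 * s + 1))).2 p.1 ∧
        o p.1 p.2 = (run o r (s * (2 * s + 1))).1)).card ≤ s := by
      refine le_of_le_of_eq (Finset.card_le_card ?_)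
        (indeg_eq hV hg.1 (run o r (s * (2 * s + 1))).1)
      intro p hp
      simp only [Finset.mem_filter, Finset.mem_univ, true_and] at hp ⊢
      exact hp.2
    show (run o r (s * (2 * s + 1))).1 = r
    by_contra hne
    rw [if_neg hne] at h2
    omega
  · intro a b hab
    obtain ⟨p, hp, hp'⟩ := hg.1 a b hab
    obtain ⟨i, hi⟩ := (slot_bij hV hg).2 p
    refine ⟨i, ?_, ?_⟩
    · simp only
      rw [walk_succ hV hg, walk_castSucc hV hg, hi]
      exact hp
    · intro j hj
      rw [walk_succ hV hg, walk_castSucc hV hg] at hj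
      have := hp' _ hj
      exact (slot_bij hV hg).1 (this.trans hi.symm)

lemma run_count {hs : 0 < s} {o : V → Fin s → V} {r : V} (hV : Fintype.card V = 2 * s + 1)
    (hg : Good hs r o) (i : ℕ) (hi : i ≤ s * (2 * s + 1)) (v : V) :
    (run o r i).2 v = ((range i).filter (fun j => (run o r j).1 = v)).card := by
  induction i with
  | zero => simp [run]
  | succ i ih =>
    rw [run_succ' hV hg i (by omega), Finset.range_add_one, Finset.filter_insert]
    simp only
    by_cases hv : (run o r i).1 = v
    · rw [if_pos hv, Finset.card_insert_of_notMem (by simp), ← ih (by omega), ← hv,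
        Function.update_self]
    · rw [if_neg hv, ← ih (by omega), Function.update_of_ne (Ne.symm hv)]

/-- Two sets of good exit data with the same walk are equal. -/
lemma walk_inj {hs : 0 < s} {o o' : V → Fin s → V} {r : V} (hV : Fintype.card V = 2 * s + 1)
    (hg : Good hs r o) (hg' : Good hs r o') (he : walk o r = walk o' r) : o = o' := by
  have hpos : ∀ i ≤ s * (2 * s + 1), (run o r i).1 = (run o' r i).1 := by
    intro i hi
    exact congrFun he ⟨i, by omega⟩
  have hcnt : ∀ i ≤ s * (2 * s + 1), ∀ v, (run o r i).2 v = (run o' r i).2 v := by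
    intro i hi v
    rw [run_count hV hg i hi, run_count hV hg' i hi]
    congr 1
    apply Finset.filter_congr
    intro j hj
    rw [Finset.mem_range] at hj
    rw [hpos j (by omega)]
  have hslot : ∀ i, slot hV hg i = slot hV hg' i := by
    intro i
    unfold slot
    rw [Prod.mk.injEq, Fin.mk.injEq]
    refine ⟨hpos i i.2.le, ?_⟩
    rw [hpos i i.2.le, hcnt i i.2.le]
  funext v k
  obtain ⟨i, hi⟩ := (slot_bij hV hg).2 (v, k)
  have h1 := walk_succ hV hg i
  have h2 := walk_succ hV hg' i
  rw [← hslot i, hi] at h2
  rw [hi] at h1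
  simp only at h1 h2
  rw [← h1, ← h2, he]

end run

end Pool.Agent.MP_c3d1b0
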