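import Pool.Agent.Lib.MP_c3d1b0_co.Best1

set_option autoImplicit false

/-!
# Every Eulerian closed walk is driven by good exit data
-/

namespace Pool.Agent.MP_c3d1b0

open Finset

section inv

variable {V : Type} [Fintype V] [DecidableEq V] {s : ℕ}

lemma ew_cov {m : ℕ} {r : V} {w : Fin (m + 1) → V} (hw : w ∈ EW V m r) :
    Cov (fun i : Fin m => w i.castSucc) (fun i : Fin m => w i.succ) := hw.2.2

lemma ew_exits {r : V} (hV : Fintype.card V = 2 * s + 1) {w : Fin (s * (2 * s + 1) + 1) → V}
    (hw : w ∈ EW V (s * (2 * s + 1)) r) (v : V) :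
    (univ.filter (fun i : Fin (s * (2 * s + 1)) => w i.castSucc = v)).card = s := by
  have h1 := cov_deg (I := Fin (s * (2 * s + 1))) hV (Fintype.card_fin _) (ew_cov hw) v
  have h2 : (univ.filter (fun i : Fin (s * (2 * s + 1)) => w i.castSucc = v)).card =
      (univ.filter (fun i : Fin (s * (2 * s + 1)) => w i.succ = v)).card := by
    have e1 := Fin.sum_univ_castSucc (fun i : Fin (s * (2 * s + 1) + 1) => if w i = v then 1 else 0)
    have e2 := Fin.sum_univ_succ (fun i : Fin (s * (2 * s + 1) + 1) => if w i = v then 1 else 0)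
    rw [e1, hw.1, hw.2.1, add_comm] at e2
    have e3 := Nat.add_left_cancel e2
    rw [Finset.card_filter, Finset.card_filter]
    exact e3
  omega

/-- Rank of the visit at time `i`. -/
def rk (w : Fin (s * (2 * s + 1) + 1) → V) (i : Fin (s * (2 * s + 1))) : ℕ :=
  (univ.filter (fun j : Fin (s * (2 * s + 1)) => j < i ∧ w j.castSucc = w i.castSucc)).card

lemma rk_lt {r : V} (hV : Fintype.card V = 2 * s + 1) {w : Fin (s * (2 * s + 1) + 1) → V}
    (hw : w ∈ EW V (s * (2 * s + 1)) r) (i : Fin (s * (2 * s + 1))) : rk w i < s := by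
  refine lt_of_lt_of_eq (Finset.card_lt_card ?_) (ew_exits hV hw (w i.castSucc))
  rw [Finset.ssubset_iff_of_subset]
  · refine ⟨i, by simp, by simp⟩
  · intro j hj
    simp only [Finset.mem_filter, Finset.mem_univ, true_and] at hj ⊢
    exact hj.2

lemma rk_strict (w : Fin (s * (2 * s + 1) + 1) → V) {i j : Fin (s * (2 * s + 1))} (hij : i < j)
    (he : w i.castSucc = w j.castSucc) : rk w i < rk w j := by
  apply Finset.card_lt_card
  rw [Finset.ssubset_iff_of_subset]
  · refine ⟨i, by simp [hij, he], by simp⟩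
  · intro k hk
    simp only [Finset.mem_filter, Finset.mem_univ, true_and] at hk ⊢
    exact ⟨hk.1.trans hij, hk.2.trans he⟩

/-- The slot of time `i` in a walk. -/
def wslot {r : V} (hV : Fintype.card V = 2 * s + 1) {w : Fin (s * (2 * s + 1) + 1) → V}
    (hw : w ∈ EW V (s * (2 * s + 1)) r) (i : Fin (s * (2 * s + 1))) : V × Fin s :=
  (w i.castSucc, ⟨rk w i, rk_lt hV hw i⟩)

lemma wslot_bij {r : V} (hV : Fintype.card V = 2 * s + 1) {w : Fin (s * (2 * s + 1) + 1) → V}
    (hw : w ∈ EW V (s * (2 * s + 1)) r) : Function.Bijective (wslot hV hw) := by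
  rw [Fintype.bijective_iff_injective_and_card]
  constructor
  · intro i j he
    unfold wslot at he
    rw [Prod.mk.injEq, Fin.mk.injEq] at he
    rcases lt_trichotomy i j with h | h | h
    · have := rk_strict w h he.1
      omega
    · exact h
    · have := rk_strict w h he.1.symm
      omega
  · rw [Fintype.card_prod, hV, Fintype.card_fin, Fintype.card_fin]
    ring

/-- The time of a slot. -/
noncomputable def tm {r : V} (hV : Fintype.card V = 2 * s + 1)
    {w : Fin (s * (2 * s + 1) + 1) → V} (hw : w ∈ EW V (s * (2 * s + 1)) r) (v : V) (k : Fin s) :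
    Fin (s * (2 * s + 1)) := (Equiv.ofBijective _ (wslot_bij hV hw)).symm (v, k)

lemma wslot_tm {r : V} (hV : Fintype.card V = 2 * s + 1)
    {w : Fin (s * (2 * s + 1) + 1) → V} (hw : w ∈ EW V (s * (2 * s + 1)) r) (v : V) (k : Fin s) :
    wslot hV hw (tm hV hw v k) = (v, k) :=
  (Equiv.ofBijective _ (wslot_bij hV hw)).apply_symm_apply (v, k)

lemma tm_wslot {r : V} (hV : Fintype.card V = 2 * s + 1)
    {w : Fin (s * (2 * s + 1) + 1) → V} (hw : w ∈ EW V (s * (2 * s + 1)) r)
    (i : Fin (s * (2 * s + 1))) :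
    tm hV hw (wslot hV hw i).1 (wslot hV hw i).2 = i :=
  (Equiv.ofBijective _ (wslot_bij hV hw)).symm_apply_apply i

/-- The exit data of a walk. -/
noncomputable def exo {r : V} (hV : Fintype.card V = 2 * s + 1)
    {w : Fin (s * (2 * s + 1) + 1) → V} (hw : w ∈ EW V (s * (2 * s + 1)) r) : V → Fin s → V :=
  fun v k => w (tm hV hw v k).succ

lemma exo_wslot {r : V} (hV : Fintype.card V = 2 * s + 1)
    {w : Fin (s * (2 * s + 1) + 1) → V} (hw : w ∈ EW V (s * (2 * s + 1)) r)
    (i : Fin (s * (2 * s + 1))) :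
    exo hV hw (wslot hV hw i).1 (wslot hV hw i).2 = w i.succ := by
  unfold exo
  rw [tm_wslot]

lemma exo_cov {r : V} (hV : Fintype.card V = 2 * s + 1)
    {w : Fin (s * (2 * s + 1) + 1) → V} (hw : w ∈ EW V (s * (2 * s + 1)) r) :
    Cov (fun p : V × Fin s => p.1) (fun p : V × Fin s => exo hV hw p.1 p.2) := by
  intro a b hab
  obtain ⟨i, hi, hi'⟩ := hw.2.2 a b hab
  refine ⟨wslot hV hw i, ?_, ?_⟩
  · simp only
    rw [exo_wslot]
    exact hi
  · intro p hp
    obtain ⟨j, rfl⟩ := (wslot_bij hV hw).2 p
    simp only at hp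
    rw [exo_wslot] at hp
    rw [hi' j hp]

lemma exo_run {r : V} (hV : Fintype.card V = 2 * s + 1)
    {w : Fin (s * (2 * s + 1) + 1) → V} (hw : w ∈ EW V (s * (2 * s + 1)) r) (i : ℕ)
    (hi : i ≤ s * (2 * s + 1)) :
    (run (exo hV hw) r i).1 = w ⟨i, by omega⟩ ∧ ∀ v, (run (exo hV hw) r i).2 v =
      (univ.filter (fun j : Fin (s * (2 * s + 1)) => (j : ℕ) < i ∧ w j.castSucc = v)).card := by
  induction i with
  | zero =>
    refine ⟨hw.1.symm, fun v => ?_⟩
    simp [run]
  | succ i ih =>
    obtain ⟨h1, h2⟩ := ih (by omega)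
    have hi' : i < s * (2 * s + 1) := hi
    have hcs : w ⟨i, by omega⟩ = w (Fin.castSucc ⟨i, hi'⟩) := rfl
    have hc : (run (exo hV hw) r i).2 (run (exo hV hw) r i).1 = rk w ⟨i, hi'⟩ := by
      rw [h2, h1]
      rfl
    have hlt : (run (exo hV hw) r i).2 (run (exo hV hw) r i).1 < s := by
      rw [hc]; exact rk_lt hV hw _
    rw [run_succ]
    unfold nxt
    rw [dif_pos hlt]
    simp only
    constructor
    · have h3 := exo_wslot hV hw ⟨i, hi'⟩
      have h4 : exo hV hw (run (exo hV hw) r i).1
          ⟨(run (exo hV hw) r i).2 (run (exo hV hw) r i).1, hlt⟩ =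
          exo hV hw (wslot hV hw ⟨i, hi'⟩).1 (wslot hV hw ⟨i, hi'⟩).2 := by
        unfold wslot
        simp only
        have h5 : (⟨(run (exo hV hw) r i).2 (run (exo hV hw) r i).1, hlt⟩ : Fin s) =
          ⟨rk w ⟨i, hi'⟩, rk_lt hV hw _⟩ := Fin.ext hc
        rw [h5, h1]
        rfl
      rw [h4, h3]
      rfl
    · intro v
      have hset : (univ.filter (fun j : Fin (s * (2 * s + 1)) => (j : ℕ) < i + 1 ∧ w j.castSucc = v)) =
          (univ.filter (fun j : Fin (s * (2 * s + 1)) => (j : ℕ) < i ∧ w j.castSucc = v)) ∪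
          (if w (Fin.castSucc ⟨i, hi'⟩) = v then {⟨i, hi'⟩} else ∅) := by
        ext j
        by_cases hv : w (Fin.castSucc ⟨i, hi'⟩) = v
        · rw [if_pos hv]
          simp only [Finset.mem_filter, Finset.mem_univ, true_and, Finset.mem_union,
            Finset.mem_singleton]
          constructor
          · rintro ⟨ha, hb⟩
            by_cases hj : (j : ℕ) < i
            · exact Or.inl ⟨hj, hb⟩
            · exact Or.inr (Fin.ext (by simp; omega))
          · rintro (⟨ha, hb⟩ | rfl)
            · exact ⟨by omega, hb⟩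
            · exact ⟨by simp, hv⟩
        · rw [if_neg hv]
          simp only [Finset.mem_filter, Finset.mem_univ, true_and, Finset.union_empty]
          constructor
          · rintro ⟨ha, hb⟩
            refine ⟨?_, hb⟩
            by_contra hj
            have : j = ⟨i, hi'⟩ := Fin.ext (by simp; omega)
            subst this
            exact hv hb
          · rintro ⟨ha, hb⟩
            exact ⟨by omega, hb⟩
      rw [hset, Finset.card_union_of_disjoint]
      · rw [← h2 v]
        by_cases hv : v = (run (exo hV hw) r i).1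
        · rw [← hv, Function.update_self, if_pos]
          · simp
          · rw [hv, h1]; rfl
        · rw [Function.update_of_ne hv, if_neg]
          · simp
          · intro hcon
            apply hv
            rw [← hcon, h1]; rfl
      · split_ifs
        · rw [Finset.disjoint_singleton_right]
          simp
        · exact Finset.disjoint_empty_right _

lemma exo_arb {r : V} (hs : 0 < s) (hV : Fintype.card V = 2 * s + 1)
    {w : Fin (s * (2 * s + 1) + 1) → V} (hw : w ∈ EW V (s * (2 * s + 1)) r) :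
    IsArb r (lastv (exo hV hw) hs r) := by
  refine ⟨by unfold lastv; rw [if_pos rfl], ?_⟩
  have hlast : ∀ (v : V) (j : Fin (s * (2 * s + 1))), w j.castSucc = v →
      j ≤ tm hV hw v ⟨s - 1, by omega⟩ := by
    intro v j hj
    by_contra hcon
    push Not at hcon
    have h1 := wslot_tm hV hw v ⟨s - 1, by omega⟩
    unfold wslot at h1
    rw [Prod.mk.injEq, Fin.mk.injEq] at h1
    have h2 := rk_strict w hcon (h1.1.trans hj.symm)
    have h3 := rk_lt hV hw j
    omega
  have key : ∀ (d : ℕ) (v : V), v ≠ r → s * (2 * s + 1) - (tm hV hw v ⟨s - 1, by omega⟩ : ℕ) ≤ d →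
      ∃ k : ℕ, (lastv (exo hV hw) hs r)^[k] v = r := by
    intro d
    induction d with
    | zero =>
      intro v _ hd
      have := (tm hV hw v ⟨s - 1, by omega⟩).2
      omega
    | succ d ih =>
      intro v hv hd
      set t := tm hV hw v ⟨s - 1, by omega⟩ with ht
      have hu : lastv (exo hV hw) hs r v = w t.succ := by
        unfold lastv exo
        rw [if_neg hv]
      by_cases hur : w t.succ = r
      · exact ⟨1, by rw [Function.iterate_one, hu, hur]⟩
      · have htm : (t : ℕ) + 1 < s * (2 * s + 1) := by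
          by_contra hcon
          apply hur
          have : t.succ = Fin.last _ := by
            apply Fin.ext
            have := t.2
            simp
            omega
          rw [this]
          exact hw.2.1
        have hj : w (Fin.castSucc ⟨t + 1, htm⟩) = w t.succ := rfl
        have h5 := hlast (w t.succ) ⟨t + 1, htm⟩ hj
        obtain ⟨k, hk⟩ := ih (w t.succ) hur (by
          have h6 : (t : ℕ) + 1 ≤ tm hV hw (w t.succ) ⟨s - 1, by omega⟩ := h5
          omega)
        exact ⟨k + 1, by rw [Function.iterate_succ_apply, hu, hk]⟩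
  intro v
  by_cases hv : v = r
  · exact ⟨0, hv⟩
  · exact key _ v hv le_rfl

lemma exo_good {r : V} (hs : 0 < s) (hV : Fintype.card V = 2 * s + 1)
    {w : Fin (s * (2 * s + 1) + 1) → V} (hw : w ∈ EW V (s * (2 * s + 1)) r) :
    Good hs r (exo hV hw) := ⟨exo_cov hV hw, exo_arb hs hV hw⟩

lemma exo_walk {r : V} (hV : Fintype.card V = 2 * s + 1)
    {w : Fin (s * (2 * s + 1) + 1) → V} (hw : w ∈ EW V (s * (2 * s + 1)) r) :
    walk (exo hV hw) r = w := by
  funext i
  exact (exo_run hV hw i (by omega)).1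

/-- Eulerian closed walks from `r` correspond to good exit data. -/
theorem card_ew (hs : 0 < s) (hV : Fintype.card V = 2 * s + 1) (r : V) :
    Nat.card (EW V (s * (2 * s + 1)) r) = Nat.card {o : V → Fin s → V // Good hs r o} := by
  symm
  apply Nat.card_congr
  refine Equiv.ofBijective (fun o => ⟨walk o.1 r, walk_mem hV o.2⟩) ⟨?_, ?_⟩
  · intro o o' he
    exact Subtype.ext (walk_inj hV o.2 o'.2 (congrArg Subtype.val he))
  · rintro ⟨w, hw⟩
    exact ⟨⟨exo hV hw, exo_good hs hV hw⟩, Subtype.ext (exo_walk hV hw)⟩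

end inv

end Pool.Agent.MP_c3d1b0
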