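import Pool.Agent.Lib.MP_c3d1b0_co.Best2

set_option autoImplicit false

/-!
# Counting good exit data: the BEST formula for regular tournaments
-/

namespace Pool.Agent.MP_c3d1b0

open Finset

lemma card_fix {α : Type} [Fintype α] [DecidableEq α] {s : ℕ} (hs : 0 < s)
    (hα : Fintype.card α = s) (k0 : Fin s) (x : α) :
    Nat.card {e : Fin s ≃ α // e k0 = x} = Nat.factorial (s - 1) := by
  have h1 : Nat.card (Fin s ≃ α) = Nat.factorial s := by
    rw [Nat.card_eq_fintype_card, Fintype.card_equiv (Fintype.equivFinOfCardEq hα).symm,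
      Fintype.card_fin]
  have h2 : ∀ y : α, Nat.card {e : Fin s ≃ α // e k0 = y} = Nat.card {e : Fin s ≃ α // e k0 = x} := by
    intro y
    apply Nat.card_congr
    refine ⟨fun e => ⟨e.1.trans (Equiv.swap y x), by simp [e.2]⟩,
      fun e => ⟨e.1.trans (Equiv.swap y x), by simp [e.2]⟩, ?_, ?_⟩
    · intro e
      apply Subtype.ext
      ext k
      simp
    · intro e
      apply Subtype.ext
      ext k
      simp
  have h3 : Nat.card (Fin s ≃ α) = ∑ y : α, Nat.card {e : Fin s ≃ α // e k0 = y} := by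
    rw [← Nat.card_congr (Equiv.sigmaFiberEquiv (fun e : Fin s ≃ α => e k0)), Nat.card_sigma]
  rw [Finset.sum_congr rfl (fun y _ => h2 y), Finset.sum_const, Finset.card_univ, hα, h1,
    smul_eq_mul] at h3
  have h4 : Nat.factorial s = s * Nat.factorial (s - 1) := (Nat.mul_factorial_pred hs.ne').symm
  rw [h4] at h3
  exact (Nat.eq_of_mul_eq_mul_left hs h3).symm

section count

variable {V : Type} [Fintype V] [DecidableEq V] {s : ℕ}

/-- Functions `Fin s → V` enumerating the set `N`. -/
lemma card_enum (N : Finset V) (hN : N.card = s) :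
    Nat.card {h : Fin s → V // Function.Injective h ∧ ∀ b, b ∈ N ↔ ∃ k, h k = b} =
      Nat.factorial s := by
  have h1 : Nat.card (Fin s ≃ N) = Nat.factorial s := by
    rw [Nat.card_eq_fintype_card, Fintype.card_equiv (Fintype.equivFinOfCardEq (by simpa using hN)).symm,
      Fintype.card_fin]
  rw [← h1]
  apply Nat.card_congr
  refine ⟨fun h => Equiv.ofBijective (fun k => ⟨h.1 k, (h.2.2 _).mpr ⟨k, rfl⟩⟩) ⟨?_, ?_⟩,
    fun e => ⟨fun k => (e k : V), ?_, ?_⟩, ?_, ?_⟩
  · intro k k' hk
    exact h.2.1 (congrArg Subtype.val hk)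
  · rintro ⟨b, hb⟩
    obtain ⟨k, hk⟩ := (h.2.2 b).mp hb
    exact ⟨k, Subtype.ext hk⟩
  · intro k k' hk
    exact e.injective (Subtype.ext hk)
  · intro b
    constructor
    · intro hb
      exact ⟨e.symm ⟨b, hb⟩, by simp⟩
    · rintro ⟨k, rfl⟩
      exact (e k).2
  · intro h
    apply Subtype.ext
    funext k
    rfl
  · intro e
    ext k
    rfl

lemma card_enum_last (N : Finset V) (hN : N.card = s) (hs : 0 < s) (k0 : Fin s) (x : V) (hx : x ∈ N) :
    Nat.card {h : Fin s → V // Function.Injective h ∧ (∀ b, b ∈ N ↔ ∃ k, h k = b) ∧ h k0 = x} =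
      Nat.factorial (s - 1) := by
  have h1 := card_fix (α := N) hs (by simpa using hN) k0 ⟨x, hx⟩
  rw [← h1]
  apply Nat.card_congr
  refine ⟨fun h => ⟨Equiv.ofBijective (fun k => ⟨h.1 k, (h.2.2.1 _).mpr ⟨k, rfl⟩⟩) ⟨?_, ?_⟩, ?_⟩,
    fun e => ⟨fun k => (e.1 k : V), ?_, ?_, ?_⟩, ?_, ?_⟩
  · intro k k' hk
    exact h.2.1 (congrArg Subtype.val hk)
  · rintro ⟨b, hb⟩
    obtain ⟨k, hk⟩ := (h.2.2.1 b).mp hb
    exact ⟨k, Subtype.ext hk⟩
  · exact Subtype.ext h.2.2.2
  · intro k k' hk
    exact e.1.injective (Subtype.ext hk)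
  · intro b
    constructor
    · intro hb
      exact ⟨e.1.symm ⟨b, hb⟩, by simp⟩
    · rintro ⟨k, rfl⟩
      exact (e.1 k).2
  · exact congrArg Subtype.val e.2
  · intro h
    apply Subtype.ext
    funext k
    rfl
  · intro e
    apply Subtype.ext
    ext k
    rfl

/-- Enumerations of the out-neighbours of `v` compatible with the tree. -/
def Fit (hs : 0 < s) (r : V) (p : (V → V → Bool) × (V → V)) (v : V) (h : Fin s → V) : Prop :=
  Function.Injective h ∧ (∀ b, p.1 v b = true ↔ ∃ k, h k = b) ∧ (v ≠ r → h ⟨s - 1, by omega⟩ = p.2 v)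

lemma card_fit_root (hs : 0 < s) (r : V) (p : (V → V → Bool) × (V → V))
    (hp : outdeg p.1 r = s) : Nat.card {h : Fin s → V // Fit hs r p r h} = Nat.factorial s := by
  rw [← card_enum (univ.filter (fun b => p.1 r b = true)) hp]
  apply Nat.card_congr
  apply Equiv.subtypeEquivRight
  intro h
  unfold Fit
  simp

lemma card_fit_ne (hs : 0 < s) (r v : V) (hv : v ≠ r) (p : (V → V → Bool) × (V → V))
    (hp : outdeg p.1 v = s) (hg : p.1 v (p.2 v) = true) :
    Nat.card {h : Fin s → V // Fit hs r p v h} = Nat.factorial (s - 1) := by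
  rw [← card_enum_last (univ.filter (fun b => p.1 v b = true)) hp hs ⟨s - 1, by omega⟩ (p.2 v)
    (by simpa using hg)]
  apply Nat.card_congr
  apply Equiv.subtypeEquivRight
  intro h
  unfold Fit
  simp [hv]

/-- The pair (tournament, tree) of exit data. -/
def toTG (hs : 0 < s) (r : V) (o : V → Fin s → V) : (V → V → Bool) × (V → V) :=
  (fun a b => decide (∃ k, o a k = b), lastv o hs r)

lemma good_inj {hs : 0 < s} {r : V} (hV : Fintype.card V = 2 * s + 1) {o : V → Fin s → V}
    (hg : Good hs r o) (v : V) : Function.Injective (o v) := by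
  intro k k' hk
  have hnl := cov_noloop (I := V × Fin s) hV
    (by rw [Fintype.card_prod, hV, Fintype.card_fin]; ring) hg.1 (v, k)
  obtain ⟨p, _, hp⟩ := hg.1 v (o v k) hnl
  have h1 := hp (v, k) (Or.inl ⟨rfl, rfl⟩)
  have h2 := hp (v, k') (Or.inl ⟨rfl, hk.symm⟩)
  have h3 := h1.trans h2.symm
  rw [Prod.mk.injEq] at h3
  exact h3.2

lemma toTG_mem {hs : 0 < s} {r : V} (hV : Fintype.card V = 2 * s + 1) {o : V → Fin s → V}
    (hg : Good hs r o) : toTG hs r o ∈ TG V s r := by
  have hnl := cov_noloop (I := V × Fin s) hV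
    (by rw [Fintype.card_prod, hV, Fintype.card_fin]; ring) hg.1
  refine ⟨⟨?_, ?_⟩, ?_, hg.2, ?_⟩
  · intro a
    simp only [toTG, decide_eq_false_iff_not, not_exists]
    intro k hk
    exact hnl (a, k) hk.symm
  · intro a b hab
    obtain ⟨p, hp, hp'⟩ := hg.1 a b hab
    simp only [toTG]
    by_cases h1 : ∃ k, o a k = b
    · have h2 : ¬ ∃ k, o b k = a := by
        rintro ⟨k', hk'⟩
        obtain ⟨k, hk⟩ := h1
        have e1 := hp' (a, k) (Or.inl ⟨rfl, hk⟩)
        have e2 := hp' (b, k') (Or.inr ⟨rfl, hk'⟩)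
        have e3 := e1.trans e2.symm
        rw [Prod.mk.injEq] at e3
        exact hab e3.1
      simp [h1, h2]
    · have h2 : ∃ k, o b k = a := by
        rcases hp with ⟨e1, e2⟩ | ⟨e1, e2⟩
        · exfalso; apply h1
          exact ⟨p.2, by rw [← e1]; exact e2⟩
        · exact ⟨p.2, by rw [← e1]; exact e2⟩
      simp only [h1, h2, decide_false, decide_true, Bool.not_true]
  · intro a
    unfold outdeg
    simp only [toTG, decide_eq_true_eq]
    have : (univ.filter (fun b => ∃ k, o a k = b)) = univ.image (o a) := by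
      ext b; simp
    rw [this, Finset.card_image_of_injective _ (good_inj hV hg a)]
    simp
  · intro v hv
    simp only [toTG, decide_eq_true_eq]
    unfold lastv
    rw [if_neg hv]
    exact ⟨_, rfl⟩

lemma fit_good {hs : 0 < s} {r : V} {p : (V → V → Bool) × (V → V)} (hp : p ∈ TG V s r)
    {o : V → Fin s → V} (ho : ∀ v, Fit hs r p v (o v)) : Good hs r o ∧ toTG hs r o = p := by
  have hl : lastv o hs r = p.2 := by
    funext v
    unfold lastv
    by_cases hv : v = r
    · rw [if_pos hv, hv, hp.2.2.1.1]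
    · rw [if_neg hv, (ho v).2.2 hv]
  refine ⟨⟨?_, ?_⟩, ?_⟩
  · intro a b hab
    by_cases h1 : p.1 a b = true
    · obtain ⟨k, hk⟩ := ((ho a).2.1 b).mp h1
      refine ⟨(a, k), Or.inl ⟨rfl, hk⟩, ?_⟩
      rintro ⟨u, k'⟩ hu
      rcases hu with ⟨e1, e2⟩ | ⟨e1, e2⟩
      · simp only at e1 e2
        subst e1
        rw [(ho u).1 (e2.trans hk.symm)]
      · simp only at e1 e2
        subst e1
        have h2 : p.1 u a = true := ((ho u).2.1 a).mpr ⟨k', e2⟩
        have h3 := hp.1.2 a u hab
        rw [h1, h2] at h3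
        exact absurd h3 (by decide)
    · have h1' : p.1 b a = true := by
        have h3 := hp.1.2 a b hab
        rcases hb : p.1 b a with _ | _
        · rw [hb] at h3
          exact absurd h3 h1
        · rfl
      obtain ⟨k, hk⟩ := ((ho b).2.1 a).mp h1'
      refine ⟨(b, k), Or.inr ⟨rfl, hk⟩, ?_⟩
      rintro ⟨u, k'⟩ hu
      rcases hu with ⟨e1, e2⟩ | ⟨e1, e2⟩
      · simp only at e1 e2
        subst e1
        exact absurd (((ho u).2.1 b).mpr ⟨k', e2⟩) h1
      · simp only at e1 e2
        subst e1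
        rw [(ho u).1 (e2.trans hk.symm)]
  · rw [hl]; exact hp.2.2.1
  · unfold toTG
    ext1
    · funext a b
      simp only
      by_cases h1 : p.1 a b = true
      · rw [h1, decide_eq_true_eq]
        exact ((ho a).2.1 b).mp h1
      · have h2 : p.1 a b = false := by simpa using h1
        rw [h2, decide_eq_false_iff_not]
        intro h3
        exact h1 (((ho a).2.1 b).mpr h3)
    · exact hl

lemma good_fit {hs : 0 < s} {r : V} (hV : Fintype.card V = 2 * s + 1) {o : V → Fin s → V}
    (hg : Good hs r o) (v : V) : Fit hs r (toTG hs r o) v (o v) := by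
  refine ⟨good_inj hV hg v, fun b => by simp [toTG], fun hv => ?_⟩
  simp only [toTG]
  unfold lastv
  rw [if_neg hv]

theorem card_good (hs : 0 < s) (hV : Fintype.card V = 2 * s + 1) (r : V) :
    Nat.card {o : V → Fin s → V // Good hs r o} =
      Nat.factorial s * (Nat.factorial (s - 1)) ^ (2 * s) * EE V s r := by
  classical
  have h1 : Nat.card {o : V → Fin s → V // Good hs r o} =
      Nat.card (Σ p : TG V s r, {o : V → Fin s → V // ∀ v, Fit hs r p.1 v (o v)}) := by
    apply Nat.card_congr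
    refine ⟨fun o => ⟨⟨toTG hs r o.1, toTG_mem hV o.2⟩, ⟨o.1, good_fit hV o.2⟩⟩,
      fun q => ⟨q.2.1, (fit_good q.1.2 q.2.2).1⟩, ?_, ?_⟩
    · intro o
      rfl
    · rintro ⟨⟨p, hp⟩, ⟨o, ho⟩⟩
      have h2 := (fit_good hp ho).2
      subst h2
      rfl
  haveI : Finite (TG V s r) := inferInstance
  haveI : Fintype (TG V s r) := Fintype.ofFinite _
  rw [h1, Nat.card_sigma]
  have h2 : ∀ p : TG V s r, Nat.card {o : V → Fin s → V // ∀ v, Fit hs r p.1 v (o v)} =
      Nat.factorial s * (Nat.factorial (s - 1)) ^ (2 * s) := by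
    intro p
    rw [Nat.card_congr (Equiv.subtypePiEquivPi (p := fun {v} h => Fit hs r p.1 v h)), Nat.card_pi]
    rw [← Finset.mul_prod_erase _ _ (Finset.mem_univ r), card_fit_root hs r p.1 (p.2.2.1 r)]
    congr 1
    rw [Finset.prod_congr rfl (fun v hv => card_fit_ne hs r v (Finset.ne_of_mem_erase hv) p.1
      (p.2.2.1 v) (p.2.2.2.2 v (Finset.ne_of_mem_erase hv)))]
    rw [Finset.prod_const, Finset.card_erase_of_mem (Finset.mem_univ _), Finset.card_univ, hV]
    congr 1
  rw [Finset.sum_congr rfl (fun p _ => h2 p), Finset.sum_const, Finset.card_univ, smul_eq_mul,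
    mul_comm]
  unfold EE
  rw [Nat.card_eq_fintype_card]

/-- The BEST formula for the walks starting at `r`. -/
theorem best (hs : 0 < s) (hV : Fintype.card V = 2 * s + 1) (r : V) :
    Nat.card (EW V (s * (2 * s + 1)) r) =
      Nat.factorial s * (Nat.factorial (s - 1)) ^ (2 * s) * EE V s r := by
  rw [card_ew hs hV r, card_good hs hV r]

end count

end Pool.Agent.MP_c3d1b0
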