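import Pool.Agent.Lib.MP_c3d1b0_co.Best3

set_option autoImplicit false

/-!
# Directed Eulerian circuits of the complete graph and the tournament-tree number
-/

namespace Pool.Agent.MP_c3d1b0

open Finset

/-- Closed walks with `s (2 s + 1)` steps on `2 s + 1` points using each unordered pair once. -/
def WW (V : Type) (m : ℕ) : Set (Fin (m + 1) → V) :=
  {w | w 0 = w (Fin.last m) ∧ ∀ a b : V, a ≠ b → ∃! i : Fin m,
    (w i.castSucc = a ∧ w i.succ = b) ∨ (w i.castSucc = b ∧ w i.succ = a)}

section

variable {V : Type} [Fintype V] [DecidableEq V]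

lemma card_ew_equiv {m : ℕ} (e : V ≃ V) (r : V) :
    Nat.card (EW V m r) = Nat.card (EW V m (e r)) := by
  apply Nat.card_congr
  refine ⟨fun w => ⟨fun i => e (w.1 i), ?_, ?_, ?_⟩, fun w => ⟨fun i => e.symm (w.1 i), ?_, ?_, ?_⟩,
    fun w => Subtype.ext (funext fun i => by simp), fun w => Subtype.ext (funext fun i => by simp)⟩
  · exact congrArg e w.2.1
  · exact congrArg e w.2.2.1
  · intro a b hab
    obtain ⟨i, hi, hi'⟩ := w.2.2.2 (e.symm a) (e.symm b) (fun h => hab (e.symm.injective h))
    refine ⟨i, ?_, ?_⟩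
    · simp only [← Equiv.eq_symm_apply]
      exact hi
    · intro j hj
      simp only [← Equiv.eq_symm_apply] at hj
      exact hi' j hj
  · simp only [w.2.1, Equiv.symm_apply_apply]
  · simp only [w.2.2.1, Equiv.symm_apply_apply]
  · intro a b hab
    obtain ⟨i, hi, hi'⟩ := w.2.2.2 (e a) (e b) (fun h => hab (e.injective h))
    refine ⟨i, ?_, ?_⟩
    · simp only [Equiv.symm_apply_eq]
      exact hi
    · intro j hj
      simp only [Equiv.symm_apply_eq] at hj
      exact hi' j hj

lemma card_ww (m : ℕ) (r : V) :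
    Nat.card (WW V m) = Fintype.card V * Nat.card (EW V m r) := by
  classical
  have h1 : Nat.card (WW V m) = Nat.card (Σ v : V, EW V m v) := by
    apply Nat.card_congr
    refine ⟨fun w => ⟨w.1 0, ⟨w.1, rfl, w.2.1.symm, w.2.2⟩⟩,
      fun q => ⟨q.2.1, q.2.2.1.trans q.2.2.2.1.symm, q.2.2.2.2⟩, fun w => rfl, ?_⟩
    rintro ⟨v, ⟨w, hw⟩⟩
    obtain ⟨h0, h1, h2⟩ := hw
    subst h0
    rfl
  rw [h1, Nat.card_sigma]
  have h2 : ∀ v : V, Nat.card (EW V m v) = Nat.card (EW V m r) := by
    intro v
    have := card_ew_equiv (m := m) (Equiv.swap v r) v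
    rw [Equiv.swap_apply_left] at this
    exact this
  rw [Finset.sum_congr rfl (fun v _ => h2 v), Finset.sum_const, Finset.card_univ, smul_eq_mul]

theorem card_ww_best {s : ℕ} (hs : 0 < s) (hV : Fintype.card V = 2 * s + 1) (r : V) :
    Nat.card (WW V (s * (2 * s + 1))) =
      (s * (2 * s + 1)) * ((Nat.factorial (s - 1)) ^ (2 * s + 1) * EE V s r) := by
  rw [card_ww _ r, hV, best hs hV r]
  have h4 : Nat.factorial s = s * Nat.factorial (s - 1) := (Nat.mul_factorial_pred hs.ne').symm
  rw [h4]
  ring

end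

/-- Transport of the tournament-tree number along an equivalence. -/
lemma EE_congr {V V' : Type} [Fintype V] [Fintype V'] (e : V ≃ V') (s : ℕ) (r : V) :
    EE V s r = EE V' s (e r) := by
  classical
  unfold EE
  apply Nat.card_congr
  have hit : ∀ (g : V → V) (k : ℕ) (v : V'), (fun x => e (g (e.symm x)))^[k] v = e (g^[k] (e.symm v)) := by
    intro g k
    induction k with
    | zero => intro v; simp
    | succ k ih =>
      intro v
      rw [Function.iterate_succ_apply, ih, Function.iterate_succ_apply]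
      simp
  have hit' : ∀ (g : V' → V') (k : ℕ) (v : V), (fun x => e.symm (g (e x)))^[k] v = e.symm (g^[k] (e v)) := by
    intro g k
    induction k with
    | zero => intro v; simp
    | succ k ih =>
      intro v
      rw [Function.iterate_succ_apply, ih, Function.iterate_succ_apply]
      simp
  have hdeg : ∀ (T : V → V → Bool) (a : V'), outdeg (fun a b => T (e.symm a) (e.symm b)) a =
      outdeg T (e.symm a) := by
    intro T a
    unfold outdeg
    apply Finset.card_bij (fun b _ => e.symm b)
    · intro b hb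
      simpa using hb
    · intro b _ b' _ h
      exact e.symm.injective h
    · intro b hb
      exact ⟨e b, by simpa using hb, by simp⟩
  have hdeg' : ∀ (T : V' → V' → Bool) (a : V), outdeg (fun a b => T (e a) (e b)) a =
      outdeg T (e a) := by
    intro T a
    unfold outdeg
    apply Finset.card_bij (fun b _ => e b)
    · intro b hb
      simpa using hb
    · intro b _ b' _ h
      exact e.injective h
    · intro b hb
      exact ⟨e.symm b, by simpa using hb, by simp⟩
  refine ⟨fun p => ⟨(fun a b => p.1.1 (e.symm a) (e.symm b), fun x => e (p.1.2 (e.symm x))),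
      ⟨fun a => p.2.1.1 _, fun a b hab => p.2.1.2 _ _ (fun h => hab (e.symm.injective h))⟩,
      fun a => (hdeg _ a).trans (p.2.2.1 _), ⟨?_, ?_⟩, ?_⟩,
    fun p => ⟨(fun a b => p.1.1 (e a) (e b), fun x => e.symm (p.1.2 (e x))),
      ⟨fun a => p.2.1.1 _, fun a b hab => p.2.1.2 _ _ (fun h => hab (e.injective h))⟩,
      fun a => (hdeg' _ a).trans (p.2.2.1 _), ⟨?_, ?_⟩, ?_⟩, ?_, ?_⟩
  · simp only [Equiv.symm_apply_apply, p.2.2.2.1.1]
  · intro v
    obtain ⟨k, hk⟩ := p.2.2.2.1.2 (e.symm v)
    exact ⟨k, by rw [hit, hk]⟩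
  · intro v hv
    simp only [Equiv.symm_apply_apply]
    exact p.2.2.2.2 _ (fun h => hv (by rw [← h]; simp))
  · simp only [p.2.2.2.1.1, Equiv.symm_apply_apply]
  · intro v
    obtain ⟨k, hk⟩ := p.2.2.2.1.2 (e v)
    exact ⟨k, by rw [hit', hk]; simp⟩
  · intro v hv
    simp only [Equiv.apply_symm_apply]
    exact p.2.2.2.2 _ (fun h => hv (e.injective h))
  · intro p
    apply Subtype.ext
    ext1
    · funext a b; simp
    · funext a; simp
  · intro p
    apply Subtype.ext
    ext1
    · funext a b; simp
    · funext a; simp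

lemma EE_root {V : Type} [Fintype V] (s : ℕ) (r r' : V) : EE V s r = EE V s r' := by
  classical
  have := EE_congr (Equiv.swap r r') s r
  rw [Equiv.swap_apply_left] at this
  exact this

end Pool.Agent.MP_c3d1b0
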