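import Mathlib

set_option autoImplicit false

/-!
# Basic definitions for the count of Eulerian circuits of the complete graph on 2s+1 points
-/

namespace Pool.Agent.MP_c3d1b0

open Finset

/-- A tournament on `V`, written as a Boolean matrix (`T a b = true` means `a → b`). -/
def IsTour {V : Type} (T : V → V → Bool) : Prop :=
  (∀ a, T a a = false) ∧ ∀ a b, a ≠ b → T a b = !T b a

/-- Out-degree. -/
def outdeg {V : Type} [Fintype V] (T : V → V → Bool) (a : V) : ℕ :=
  (univ.filter (fun b => T a b = true)).card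

/-- `g` is the parent function of a spanning tree oriented towards the root `r`. -/
def IsArb {V : Type} (r : V) (g : V → V) : Prop :=
  g r = r ∧ ∀ v, ∃ k : ℕ, g^[k] v = r

/-- Pairs (regular tournament of out-degree `s`, spanning tree of it oriented towards `r`). -/
def TG (V : Type) [Fintype V] (s : ℕ) (r : V) : Set ((V → V → Bool) × (V → V)) :=
  {p | IsTour p.1 ∧ (∀ a, outdeg p.1 a = s) ∧ IsArb r p.2 ∧ ∀ v, v ≠ r → p.1 v (p.2 v) = true}

/-- The number of such pairs. -/
noncomputable def EE (V : Type) [Fintype V] (s : ℕ) (r : V) : ℕ := Nat.card (TG V s r)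

/-- Closed walks with `m` steps starting at `r`, using each unordered pair exactly once. -/
def EW (V : Type) (m : ℕ) (r : V) : Set (Fin (m + 1) → V) :=
  {w | w 0 = r ∧ w (Fin.last m) = r ∧ ∀ a b : V, a ≠ b → ∃! i : Fin m,
    (w i.castSucc = a ∧ w i.succ = b) ∨ (w i.castSucc = b ∧ w i.succ = a)}

/-- A family of arcs `x i → y i` covering each unordered pair exactly once. -/
def Cov {V I : Type} (x y : I → V) : Prop :=
  ∀ a b : V, a ≠ b → ∃! i : I, (x i = a ∧ y i = b) ∨ (x i = b ∧ y i = a)

section cov

variable {V I : Type} [Fintype V] [DecidableEq V] [Fintype I] [DecidableEq I]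

lemma cov_noloop {x y : I → V} {s : ℕ} (hV : Fintype.card V = 2 * s + 1)
    (hI : Fintype.card I = s * (2 * s + 1)) (h : Cov x y) (i : I) : x i ≠ y i := by
  intro hi
  have key : ∑ j : I, ((univ : Finset V).offDiag.filter (fun p =>
      (x j = p.1 ∧ y j = p.2) ∨ (x j = p.2 ∧ y j = p.1))).card = (univ : Finset V).offDiag.card := by
    have h1 : ∀ p ∈ (univ : Finset V).offDiag, ((univ : Finset I).filter (fun j =>
        (x j = p.1 ∧ y j = p.2) ∨ (x j = p.2 ∧ y j = p.1))).card = 1 := by
      intro p hp
      rw [Finset.mem_offDiag] at hp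
      obtain ⟨j, hj, hj'⟩ := h p.1 p.2 hp.2.2
      rw [Finset.card_eq_one]
      refine ⟨j, ?_⟩
      ext k
      simp only [Finset.mem_filter, Finset.mem_univ, true_and, Finset.mem_singleton]
      constructor
      · intro hk
        exact hj' k hk
      · rintro rfl
        exact hj
    have h2 := Finset.sum_card_bipartiteAbove_eq_sum_card_bipartiteBelow
      (s := (univ : Finset V).offDiag) (t := (univ : Finset I))
      (fun p j => (x j = p.1 ∧ y j = p.2) ∨ (x j = p.2 ∧ y j = p.1))
    unfold Finset.bipartiteAbove Finset.bipartiteBelow at h2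
    rw [← h2, Finset.sum_congr rfl h1]
    simp
  have hle : ∀ j : I, ((univ : Finset V).offDiag.filter (fun p =>
      (x j = p.1 ∧ y j = p.2) ∨ (x j = p.2 ∧ y j = p.1))).card ≤ 2 := by
    intro j
    have : ((univ : Finset V).offDiag.filter (fun p =>
      (x j = p.1 ∧ y j = p.2) ∨ (x j = p.2 ∧ y j = p.1))) ⊆ {(x j, y j), (y j, x j)} := by
      intro p hp
      simp only [Finset.mem_filter, Finset.mem_insert, Finset.mem_singleton] at hp ⊢
      rcases hp.2 with ⟨h1, h2⟩ | ⟨h1, h2⟩
      · left; ext <;> simp [h1, h2]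
      · right; ext <;> simp [h1, h2]
    exact (Finset.card_le_card this).trans Finset.card_le_two
  have hz : ((univ : Finset V).offDiag.filter (fun p =>
      (x i = p.1 ∧ y i = p.2) ∨ (x i = p.2 ∧ y i = p.1))).card = 0 := by
    rw [Finset.card_eq_zero, Finset.filter_eq_empty_iff]
    intro p hp hp'
    rw [Finset.mem_offDiag] at hp
    apply hp.2.2
    rcases hp' with ⟨h1, h2⟩ | ⟨h1, h2⟩
    · rw [← h1, ← h2, hi]
    · rw [← h1, ← h2, hi]
  have hsum : ∑ j : I, ((univ : Finset V).offDiag.filter (fun p =>
      (x j = p.1 ∧ y j = p.2) ∨ (x j = p.2 ∧ y j = p.1))).card ≤ (Fintype.card I - 1) * 2 := by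
    rw [← Finset.sum_erase (univ : Finset I) hz]
    calc _ ≤ ∑ j ∈ (univ : Finset I).erase i, 2 := Finset.sum_le_sum (fun j _ => hle j)
      _ = _ := by simp [Finset.card_erase_of_mem]
  rw [key, Finset.offDiag_card, Finset.card_univ, hV, hI] at hsum
  have h1 : 1 ≤ s * (2 * s + 1) := by
    rw [← hI]; exact Fintype.card_pos_iff.mpr ⟨i⟩
  have h3 : (2 * s + 1) * (2 * s + 1) - (2 * s + 1) = 2 * (s * (2 * s + 1)) := by
    rw [Nat.sub_eq_iff_eq_add (by nlinarith)]; ring
  omega

lemma cov_deg {x y : I → V} {s : ℕ} (hV : Fintype.card V = 2 * s + 1)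
    (hI : Fintype.card I = s * (2 * s + 1)) (h : Cov x y) (v : V) :
    (univ.filter (fun i => x i = v)).card + (univ.filter (fun i => y i = v)).card = 2 * s := by
  have hnl := cov_noloop hV hI h
  rw [← Finset.card_union_of_disjoint]
  · rw [← Finset.filter_or]
    have : (univ.erase v).card = (univ.filter (fun i => x i = v ∨ y i = v)).card := by
      have hex : ∀ b ∈ (univ : Finset V).erase v, ∃! i, (x i = v ∧ y i = b) ∨ (x i = b ∧ y i = v) :=
        fun b hb => h v b (Finset.ne_of_mem_erase hb).symm
      refine Finset.card_bij (fun b hb => (hex b hb).choose) ?_ ?_ ?_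
      · intro b hb
        have := (hex b hb).choose_spec.1
        simp only [Finset.mem_filter, Finset.mem_univ, true_and]
        rcases this with h1 | h1
        · exact Or.inl h1.1
        · exact Or.inr h1.2
      · intro b hb b' hb' he
        have h1 := (hex b hb).choose_spec.1
        have h2 := (hex b' hb').choose_spec.1
        simp only at he
        rw [he] at h1
        have hn := hnl (hex b' hb').choose
        rcases h1 with ⟨p1, p2⟩ | ⟨p1, p2⟩ <;> rcases h2 with ⟨q1, q2⟩ | ⟨q1, q2⟩
        · exact p2.symm.trans q2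
        · exact absurd (p1.trans q2.symm) hn
        · exact absurd (q1.trans p2.symm) hn
        · exact p1.symm.trans q1
      · intro i hi
        simp only [Finset.mem_filter, Finset.mem_univ, true_and] at hi
        rcases hi with h1 | h1
        · refine ⟨y i, Finset.mem_erase.mpr ⟨fun h2 => hnl i (h1.trans h2.symm), Finset.mem_univ _⟩, ?_⟩
          have hb : y i ∈ (univ : Finset V).erase v :=
            Finset.mem_erase.mpr ⟨fun h2 => hnl i (h1.trans h2.symm), Finset.mem_univ _⟩
          exact ((hex _ hb).choose_spec.2 i (Or.inl ⟨h1, rfl⟩)).symm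
        · refine ⟨x i, Finset.mem_erase.mpr ⟨fun h2 => hnl i (h2.trans h1.symm), Finset.mem_univ _⟩, ?_⟩
          have hb : x i ∈ (univ : Finset V).erase v :=
            Finset.mem_erase.mpr ⟨fun h2 => hnl i (h2.trans h1.symm), Finset.mem_univ _⟩
          exact ((hex _ hb).choose_spec.2 i (Or.inr ⟨rfl, h1⟩)).symm
    rw [← this, Finset.card_erase_of_mem (Finset.mem_univ _), Finset.card_univ, hV]
    omega
  · rw [Finset.disjoint_filter]
    intro i _ h1 h2
    exact hnl i (h1.trans h2.symm)

end cov

end Pool.Agent.MP_c3d1b0
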