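import Pool.Agent.Lib.MP_c3d1b0_co.Best4

set_option autoImplicit false

/-!
# The number of Eulerian circuits of the complete graph on 2s+1 points
-/

namespace Pool.Agent.MP_c3d1b0

/-- The number of Eulerian circuits of the complete graph on `2 s + 1` points: closed walks with
`s (2 s + 1)` steps that use each edge exactly once, divided by the number `s (2 s + 1)` of rotations. -/
noncomputable def ec (s : ℕ) : ℕ :=
  Nat.card {w : Fin (s * (2 * s + 1) + 1) → Fin (2 * s + 1) //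
    w 0 = w (Fin.last (s * (2 * s + 1))) ∧
    ∀ a b : Fin (2 * s + 1), a ≠ b →
      ∃! i : Fin (s * (2 * s + 1)),
        (w i.castSucc = a ∧ w i.succ = b) ∨ (w i.castSucc = b ∧ w i.succ = a)} / (s * (2 * s + 1))

lemma card_walks {s : ℕ} (hs : 0 < s) (r : Fin (2 * s + 1)) :
    Nat.card {w : Fin (s * (2 * s + 1) + 1) → Fin (2 * s + 1) //
      w 0 = w (Fin.last (s * (2 * s + 1))) ∧
      ∀ a b : Fin (2 * s + 1), a ≠ b →
        ∃! i : Fin (s * (2 * s + 1)),
          (w i.castSucc = a ∧ w i.succ = b) ∨ (w i.castSucc = b ∧ w i.succ = a)} =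
      (s * (2 * s + 1)) * ((Nat.factorial (s - 1)) ^ (2 * s + 1) * EE (Fin (2 * s + 1)) s r) :=
  card_ww_best (V := Fin (2 * s + 1)) hs (Fintype.card_fin _) r

lemma ec_eq {s : ℕ} (hs : 0 < s) (r : Fin (2 * s + 1)) :
    ec s = (Nat.factorial (s - 1)) ^ (2 * s + 1) * EE (Fin (2 * s + 1)) s r := by
  unfold ec
  rw [card_walks hs r]
  exact Nat.mul_div_cancel_left _ (by positivity)

lemma ec_mul {s : ℕ} (hs : 0 < s) :
    s * (2 * s + 1) * ec s = Nat.card {w : Fin (s * (2 * s + 1) + 1) → Fin (2 * s + 1) //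
      w 0 = w (Fin.last (s * (2 * s + 1))) ∧
      ∀ a b : Fin (2 * s + 1), a ≠ b →
        ∃! i : Fin (s * (2 * s + 1)),
          (w i.castSucc = a ∧ w i.succ = b) ∨ (w i.castSucc = b ∧ w i.succ = a)} := by
  rw [card_walks hs 0, ec_eq hs 0]

end Pool.Agent.MP_c3d1b0
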