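import Pool.Agent.Lib.MP_c3d1b0_co.Best4

set_option autoImplicit false

/-!
# Every odd prime below `2 s + 1` divides the tournament-tree number
-/

namespace Pool.Agent.MP_c3d1b0

open Finset

/-- Relabelling. -/
def mapTG {V : Type} (e : V ≃ V) (p : (V → V → Bool) × (V → V)) : (V → V → Bool) × (V → V) :=
  (fun a b => p.1 (e.symm a) (e.symm b), fun x => e (p.2 (e.symm x)))

lemma mapTG_mem {V : Type} [Fintype V] (e : V ≃ V) {s : ℕ} {r : V} (hr : e r = r)
    {p : (V → V → Bool) × (V → V)} (hp : p ∈ TG V s r) : mapTG e p ∈ TG V s r := by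
  classical
  have hit : ∀ (g : V → V) (k : ℕ) (v : V), (fun x => e (g (e.symm x)))^[k] v = e (g^[k] (e.symm v)) := by
    intro g k
    induction k with
    | zero => intro v; simp
    | succ k ih =>
      intro v
      rw [Function.iterate_succ_apply, ih, Function.iterate_succ_apply]
      simp
  have hdeg : ∀ (T : V → V → Bool) (a : V), outdeg (fun a b => T (e.symm a) (e.symm b)) a =
      outdeg T (e.symm a) := by
    intro T a
    unfold outdeg
    apply Finset.card_bij (fun b _ => e.symm b)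
    · intro b hb
      simpa using hb
    · intro b _ b' _ h
      exact e.symm.injective h
    · intro b hb
      exact ⟨e b, by simpa using hb, by simp⟩
  have hr' : e.symm r = r := by rw [Equiv.symm_apply_eq, hr]
  refine ⟨⟨fun a => hp.1.1 _, fun a b hab => hp.1.2 _ _ (fun h => hab (e.symm.injective h))⟩,
      fun a => (hdeg _ a).trans (hp.2.1 _), ⟨?_, ?_⟩, ?_⟩
  · show e (p.2 (e.symm r)) = r
    rw [hr', hp.2.2.1.1, hr]
  · intro v
    obtain ⟨k, hk⟩ := hp.2.2.1.2 (e.symm v)
    refine ⟨k, ?_⟩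
    show (fun x => e (p.2 (e.symm x)))^[k] v = r
    rw [hit, hk, hr]
  · intro v hv
    show p.1 (e.symm v) (e.symm (e (p.2 (e.symm v)))) = true
    rw [Equiv.symm_apply_apply]
    exact hp.2.2.2 _ (fun h => hv (by rw [Equiv.symm_apply_eq, hr] at h; exact h))

section fixed

variable {u k q s : ℕ} [NeZero q]

/-- The shift of the blocks. -/
def shf (a : Fin k → ZMod q) : (Fin (u + 1) ⊕ (Fin k × ZMod q)) ≃ (Fin (u + 1) ⊕ (Fin k × ZMod q)) where
  toFun := Sum.elim Sum.inl (fun p => Sum.inr (p.1, p.2 + a p.1))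
  invFun := Sum.elim Sum.inl (fun p => Sum.inr (p.1, p.2 - a p.1))
  left_inv := by rintro (x | ⟨i, z⟩) <;> simp
  right_inv := by rintro (x | ⟨i, z⟩) <;> simp

lemma shf_zero : shf (u := u) (0 : Fin k → ZMod q) = Equiv.refl _ := by
  ext1 x
  rcases x with x | ⟨i, z⟩ <;> simp [shf]

lemma shf_add (a b : Fin k → ZMod q) : shf (u := u) (a + b) = (shf b).trans (shf a) := by
  ext1 x
  rcases x with x | ⟨i, z⟩
  · simp [shf]
  · simp [shf]; ring

/-- The action of the block shifts. -/
instance actTG : MulAction (Multiplicative (Fin k → ZMod q))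
    (TG (Fin (u + 1) ⊕ (Fin k × ZMod q)) s (Sum.inl 0)) where
  smul a p := ⟨mapTG (shf (Multiplicative.toAdd a)) p.1, mapTG_mem _ rfl p.2⟩
  one_smul p := by
    apply Subtype.ext
    show mapTG (shf (Multiplicative.toAdd 1)) p.1 = p.1
    rw [toAdd_one, shf_zero]
    rfl
  mul_smul a b p := by
    apply Subtype.ext
    show mapTG (shf (Multiplicative.toAdd (a * b))) p.1 =
      mapTG (shf (Multiplicative.toAdd a)) (mapTG (shf (Multiplicative.toAdd b)) p.1)
    rw [toAdd_mul, shf_add]
    rfl

lemma fixed_eq {p : TG (Fin (u + 1) ⊕ (Fin k × ZMod q)) s (Sum.inl 0)}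
    (hp : p ∈ MulAction.fixedPoints (Multiplicative (Fin k → ZMod q))
      (TG (Fin (u + 1) ⊕ (Fin k × ZMod q)) s (Sum.inl 0))) (a : Fin k → ZMod q) :
    mapTG (shf a) p.1 = p.1 := congrArg Subtype.val (hp (Multiplicative.ofAdd a))

lemma fixed_T {p : TG (Fin (u + 1) ⊕ (Fin k × ZMod q)) s (Sum.inl 0)}
    (hp : p ∈ MulAction.fixedPoints (Multiplicative (Fin k → ZMod q))
      (TG (Fin (u + 1) ⊕ (Fin k × ZMod q)) s (Sum.inl 0))) (a : Fin k → ZMod q)
    (x y : Fin (u + 1) ⊕ (Fin k × ZMod q)) : p.1.1 (shf a x) (shf a y) = p.1.1 x y := by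
  have h := congrArg Prod.fst (fixed_eq hp a)
  have h2 := congrFun (congrFun h (shf a x)) (shf a y)
  rw [← h2]
  simp [mapTG]

lemma fixed_g {p : TG (Fin (u + 1) ⊕ (Fin k × ZMod q)) s (Sum.inl 0)}
    (hp : p ∈ MulAction.fixedPoints (Multiplicative (Fin k → ZMod q))
      (TG (Fin (u + 1) ⊕ (Fin k × ZMod q)) s (Sum.inl 0))) (a : Fin k → ZMod q)
    (x : Fin (u + 1) ⊕ (Fin k × ZMod q)) : p.1.2 (shf a x) = shf a (p.1.2 x) := by
  have h := congrArg Prod.snd (fixed_eq hp a)
  have h2 := congrFun h (shf a x)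
  rw [← h2]
  simp [mapTG]

lemma outdeg_sum (T : (Fin (u + 1) ⊕ (Fin k × ZMod q)) → (Fin (u + 1) ⊕ (Fin k × ZMod q)) → Bool)
    (v : Fin (u + 1) ⊕ (Fin k × ZMod q)) :
    outdeg T v = ∑ x : Fin (u + 1), (if T v (Sum.inl x) = true then 1 else 0) +
      ∑ j : Fin k, ∑ z : ZMod q, (if T v (Sum.inr (j, z)) = true then 1 else 0) := by
  unfold outdeg
  rw [Finset.card_filter, Fintype.sum_sum_type, Fintype.sum_prod_type]

lemma nofixed (hq : 1 < q) (hqo : Odd q) (huq : u + 1 ≤ q) (hk : 0 < k) (hn : 2 * s + 1 = u + 1 + k * q)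
    (p : TG (Fin (u + 1) ⊕ (Fin k × ZMod q)) s (Sum.inl 0)) :
    p ∉ MulAction.fixedPoints (Multiplicative (Fin k → ZMod q))
      (TG (Fin (u + 1) ⊕ (Fin k × ZMod q)) s (Sum.inl 0)) := by
  intro hp
  have hne1 : (1 : ZMod q) ≠ 0 := by
    haveI : Fact (1 < q) := ⟨hq⟩
    exact one_ne_zero
  -- parents of block vertices are single vertices
  have hpar : ∀ i : Fin k, ∃ x : Fin (u + 1), p.1.2 (Sum.inr (i, 0)) = Sum.inl x := by
    intro i
    rcases hw : p.1.2 (Sum.inr (i, 0)) with x | ⟨j, z⟩
    · exact ⟨x, rfl⟩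
    · exfalso
      by_cases hji : j = i
      · subst hji
        have hall : ∀ t : ZMod q, p.1.2 (Sum.inr (j, t)) = Sum.inr (j, z + t) := by
          intro t
          have h1 := fixed_g hp (fun _ => t) (Sum.inr (j, 0))
          rw [hw] at h1
          simpa [shf] using h1
        have hit : ∀ (n : ℕ) (t : ZMod q), ∃ t', (p.1.2)^[n] (Sum.inr (j, t)) = Sum.inr (j, t') := by
          intro n
          induction n with
          | zero => intro t; exact ⟨t, rfl⟩
          | succ n ih =>
            intro t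
            rw [Function.iterate_succ_apply, hall]
            exact ih _
        obtain ⟨n, hn'⟩ := p.2.2.2.1.2 (Sum.inr (j, 0))
        obtain ⟨t', ht'⟩ := hit n 0
        rw [ht'] at hn'
        exact absurd hn' (by simp)
      · have h1 := fixed_g hp (Pi.single j 1) (Sum.inr (i, 0))
        rw [hw] at h1
        have h2 : shf (u := u) (Pi.single j (1 : ZMod q)) (Sum.inr (i, 0)) = Sum.inr (i, 0) := by
          simp [shf, Pi.single_eq_of_ne (Ne.symm hji)]
        rw [h2, hw] at h1
        simp [shf] at h1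
        exact hne1 h1
  have hT := p.2.1
  -- degree of a block vertex
  have hblock : ∀ i : Fin k, ∃ B : ℕ, 2 * (∑ x : Fin (u + 1),
      (if p.1.1 (Sum.inr (i, 0)) (Sum.inl x) = true then 1 else 0)) + q * (2 * B + 1) = u + 1 + k * q := by
    intro i
    have hd := p.2.2.1 (Sum.inr (i, 0))
    rw [outdeg_sum] at hd
    have hsame : 2 * (∑ z : ZMod q, (if p.1.1 (Sum.inr (i, 0)) (Sum.inr (i, z)) = true then 1 else 0)) + 1 = q := by
      have hneg : ∑ z : ZMod q, (if p.1.1 (Sum.inr (i, 0)) (Sum.inr (i, z)) = true then 1 else 0) =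
          ∑ z : ZMod q, (if p.1.1 (Sum.inr (i, 0)) (Sum.inr (i, -z)) = true then 1 else 0) :=
        (Equiv.sum_comp (Equiv.neg (ZMod q)) (fun z =>
          (if p.1.1 (Sum.inr (i, 0)) (Sum.inr (i, z)) = true then 1 else 0))).symm
      have hadd : ∀ z : ZMod q, (if p.1.1 (Sum.inr (i, 0)) (Sum.inr (i, z)) = true then 1 else 0) +
          (if p.1.1 (Sum.inr (i, 0)) (Sum.inr (i, -z)) = true then 1 else 0) =
          (if z = 0 then 0 else 1) := by
        intro z
        by_cases hz : z = 0
        · subst hz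
          rw [neg_zero, hT.1]
          simp
        · have h1 := fixed_T hp (fun _ => z) (Sum.inr (i, 0)) (Sum.inr (i, -z))
          have h2 : p.1.1 (Sum.inr (i, z)) (Sum.inr (i, 0)) = p.1.1 (Sum.inr (i, 0)) (Sum.inr (i, -z)) := by
            simpa [shf] using h1
          have h3 := hT.2 (Sum.inr (i, z)) (Sum.inr (i, 0)) (by simpa using hz)
          rw [h2] at h3
          rw [h3, if_neg hz]
          cases p.1.1 (Sum.inr (i, 0)) (Sum.inr (i, z)) <;> simp
      have hsum := Finset.sum_congr (rfl : (univ : Finset (ZMod q)) = univ) (fun z _ => hadd z)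
      rw [Finset.sum_add_distrib, ← hneg] at hsum
      have h5 : ∑ z : ZMod q, (if z = 0 then 0 else 1) = q - 1 := by
        have : ∑ z : ZMod q, (if z = 0 then 0 else 1) = ((univ : Finset (ZMod q)).filter (fun z => ¬ z = 0)).card := by
          rw [Finset.card_filter]
          apply Finset.sum_congr rfl
          intro z _
          by_cases hz : z = 0 <;> simp [hz]
        rw [this, Finset.filter_not, Finset.filter_eq' , if_pos (Finset.mem_univ _),
          Finset.card_sdiff_of_subset (Finset.subset_univ _), Finset.card_univ, ZMod.card, Finset.card_singleton]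
      rw [h5] at hsum
      omega
    have hother : ∀ j : Fin k, j ≠ i → ∑ z : ZMod q,
        (if p.1.1 (Sum.inr (i, 0)) (Sum.inr (j, z)) = true then 1 else 0) =
        q * (if p.1.1 (Sum.inr (i, 0)) (Sum.inr (j, 0)) = true then 1 else 0) := by
      intro j hj
      have h1 : ∀ z : ZMod q, p.1.1 (Sum.inr (i, 0)) (Sum.inr (j, z)) =
          p.1.1 (Sum.inr (i, 0)) (Sum.inr (j, 0)) := by
        intro z
        have h2 := fixed_T hp (Pi.single j z) (Sum.inr (i, 0)) (Sum.inr (j, 0))
        have h3 : shf (u := u) (Pi.single j z) (Sum.inr (i, 0)) = Sum.inr (i, 0) := by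
          simp [shf, Pi.single_eq_of_ne (Ne.symm hj)]
        have h4 : shf (u := u) (Pi.single j z) (Sum.inr (j, 0)) = Sum.inr (j, z) := by
          simp [shf]
        rw [h3, h4] at h2
        exact h2
      rw [Finset.sum_congr rfl (fun z _ => by rw [h1 z]), Finset.sum_const, Finset.card_univ,
        ZMod.card, smul_eq_mul]
    rw [← Finset.add_sum_erase _ _ (Finset.mem_univ i), Finset.sum_congr rfl
      (fun j hj => hother j (Finset.ne_of_mem_erase hj)), ← Finset.mul_sum] at hd
    refine ⟨∑ j ∈ univ.erase i, (if p.1.1 (Sum.inr (i, 0)) (Sum.inr (j, 0)) = true then 1 else 0), ?_⟩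
    rw [← hn]
    nlinarith [hd, hsame]
  -- degree of a single vertex
  have hsing : ∀ x : Fin (u + 1), ∃ D : ℕ,
      (∑ j : Fin k, ∑ z : ZMod q, (if p.1.1 (Sum.inl x) (Sum.inr (j, z)) = true then 1 else 0)) = q * D ∧
      2 * (∑ y : Fin (u + 1), (if p.1.1 (Sum.inl x) (Sum.inl y) = true then 1 else 0)) + 2 * (q * D) + 1
        = u + 1 + k * q := by
    intro x
    have hd := p.2.2.1 (Sum.inl x)
    rw [outdeg_sum] at hd
    have hother : ∀ j : Fin k, ∑ z : ZMod q,
        (if p.1.1 (Sum.inl x) (Sum.inr (j, z)) = true then 1 else 0) =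
        q * (if p.1.1 (Sum.inl x) (Sum.inr (j, 0)) = true then 1 else 0) := by
      intro j
      have h1 : ∀ z : ZMod q, p.1.1 (Sum.inl x) (Sum.inr (j, z)) =
          p.1.1 (Sum.inl x) (Sum.inr (j, 0)) := by
        intro z
        have h2 := fixed_T hp (Pi.single j z) (Sum.inl x) (Sum.inr (j, 0))
        have h3 : shf (u := u) (Pi.single j z) (Sum.inl x) = Sum.inl x := by
          simp [shf]
        have h4 : shf (u := u) (Pi.single j z) (Sum.inr (j, 0)) = Sum.inr (j, z) := by
          simp [shf]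
        rw [h3, h4] at h2
        exact h2
      rw [Finset.sum_congr rfl (fun z _ => by rw [h1 z]), Finset.sum_const, Finset.card_univ,
        ZMod.card, smul_eq_mul]
    have hD : (∑ j : Fin k, ∑ z : ZMod q, (if p.1.1 (Sum.inl x) (Sum.inr (j, z)) = true then 1 else 0)) =
        q * ∑ j : Fin k, (if p.1.1 (Sum.inl x) (Sum.inr (j, 0)) = true then 1 else 0) := by
      rw [Finset.mul_sum]
      exact Finset.sum_congr rfl (fun j _ => hother j)
    refine ⟨_, hD, ?_⟩
    rw [hD] at hd
    rw [← hn]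
    omega
  have hC : ∀ x : Fin (u + 1), ∑ y : Fin (u + 1),
      (if p.1.1 (Sum.inl x) (Sum.inl y) = true then 1 else 0) ≤ u := by
    intro x
    rw [← Finset.add_sum_erase _ _ (Finset.mem_univ x)]
    rw [hT.1]
    simp only [Bool.false_eq_true, if_false, zero_add]
    calc _ ≤ ∑ y ∈ (univ : Finset (Fin (u + 1))).erase x, 1 := by
          apply Finset.sum_le_sum
          intro y _
          split_ifs <;> omega
      _ = u := by simp
  -- u is even
  have hu : ∀ x : Fin (u + 1), 2 * (∑ y : Fin (u + 1),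
      (if p.1.1 (Sum.inl x) (Sum.inl y) = true then 1 else 0)) = u := by
    intro x
    obtain ⟨D, _, hD⟩ := hsing x
    have h1 := hC x
    set C := ∑ y : Fin (u + 1), (if p.1.1 (Sum.inl x) (Sum.inl y) = true then 1 else 0) with hCdef
    -- 2C + 2qD = u + kq
    have h2 : (2 * (C : ℤ) - u) = q * ((k : ℤ) - 2 * D) := by
      have : (2 * (C : ℤ) + 2 * (q * D) + 1) = u + 1 + k * q := by exact_mod_cast hD
      linarith
    have h3 : ((k : ℤ) - 2 * D) = 0 := by
      by_contra hne
      have h4 : (q : ℤ) ≤ |2 * (C : ℤ) - u| := by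
        rw [h2, abs_mul, Nat.abs_cast]
        have : 1 ≤ |((k : ℤ) - 2 * D)| := Int.one_le_abs hne
        nlinarith
      have h5 : |2 * (C : ℤ) - u| ≤ u := by
        rw [abs_le]
        constructor
        · have : (0 : ℤ) ≤ C := by positivity
          linarith
        · have : (C : ℤ) ≤ u := by exact_mod_cast h1
          linarith
      have h6 : (u : ℤ) + 1 ≤ q := by exact_mod_cast huq
      linarith
    rw [h3, mul_zero] at h2
    omega
  -- all blocks dominate all single vertices
  have hdom : ∀ (i : Fin k) (x : Fin (u + 1)), p.1.1 (Sum.inr (i, 0)) (Sum.inl x) = true := by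
    intro i
    obtain ⟨B, hB⟩ := hblock i
    obtain ⟨x0, hx0⟩ := hpar i
    have hx1 : p.1.1 (Sum.inr (i, 0)) (Sum.inl x0) = true := by
      rw [← hx0]
      exact p.2.2.2.2 _ (by simp)
    set A := ∑ x : Fin (u + 1), (if p.1.1 (Sum.inr (i, 0)) (Sum.inl x) = true then 1 else 0) with hA
    have hA1 : 1 ≤ A := by
      rw [hA]
      refine le_trans ?_ (Finset.single_le_sum (fun _ _ => Nat.zero_le _) (Finset.mem_univ x0))
      rw [if_pos hx1]
    have hA2 : A ≤ u + 1 := by
      rw [hA]
      calc _ ≤ ∑ x : Fin (u + 1), 1 := by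
            apply Finset.sum_le_sum
            intro y _
            split_ifs <;> omega
        _ = u + 1 := by simp
    have hev := hu 0
    have hA3 : A = u + 1 := by
      have h2 : (2 * (A : ℤ) - (u + 1)) = q * ((k : ℤ) - 2 * B - 1) := by
        have : (2 * (A : ℤ) + q * (2 * B + 1)) = u + 1 + k * q := by exact_mod_cast hB
        linarith
      have h3 : ((k : ℤ) - 2 * B - 1) ≠ 0 := by
        intro h0
        rw [h0, mul_zero] at h2
        omega
      have h4 : 0 < ((k : ℤ) - 2 * B - 1) := by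
        by_contra hcon
        have h5 : ((k : ℤ) - 2 * B - 1) ≤ -1 := by omega
        have h6 : (u : ℤ) + 1 ≤ q := by exact_mod_cast huq
        have h7 : (1 : ℤ) ≤ A := by exact_mod_cast hA1
        nlinarith
      have h6 : (A : ℤ) ≤ u + 1 := by exact_mod_cast hA2
      have h7 : (u : ℤ) + 1 ≤ q := by exact_mod_cast huq
      have h8 : (u : ℤ) + 1 ≤ A := by nlinarith
      omega
    intro x
    by_contra hx
    have : A < u + 1 := by
      rw [hA]
      calc _ < ∑ x : Fin (u + 1), 1 := by
            apply Finset.sum_lt_sum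
            · intro y _
              split_ifs <;> omega
            · exact ⟨x, Finset.mem_univ _, by rw [if_neg hx]; omega⟩
        _ = u + 1 := by simp
    omega
  obtain ⟨D, hD0, hD⟩ := hsing 0
  have hzero : (∑ j : Fin k, ∑ z : ZMod q,
      (if p.1.1 (Sum.inl 0) (Sum.inr (j, z)) = true then 1 else 0)) = 0 := by
    apply Finset.sum_eq_zero
    intro j _
    apply Finset.sum_eq_zero
    intro z _
    have h2 := fixed_T hp (Pi.single j z) (Sum.inr (j, 0)) (Sum.inl 0)
    have h4 : shf (u := u) (Pi.single j z) (Sum.inr (j, 0)) = Sum.inr (j, z) := by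
      simp [shf]
    have h5 : shf (u := u) (Pi.single j z) (Sum.inl 0) = Sum.inl 0 := by
      simp [shf]
    rw [h4, h5, hdom j 0] at h2
    rw [hT.2 (Sum.inl 0) (Sum.inr (j, z)) (by simp), h2]
    simp
  rw [hzero] at hD0
  have hev := hu 0
  rw [← hD0, hev] at hD
  have : 0 < k * q := Nat.mul_pos hk (by omega)
  omega

end fixed

theorem odd_dvd_EE {s q : ℕ} (hq : q.Prime) (hq2 : q ≠ 2) (hlt : q < 2 * s + 1) (V : Type)
    [Fintype V] (hV : Fintype.card V = 2 * s + 1) (r : V) : q ∣ EE V s r := by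
  classical
  haveI : NeZero q := ⟨hq.ne_zero⟩
  haveI : Fact q.Prime := ⟨hq⟩
  set k := (2 * s) / q with hk
  set u := (2 * s) % q with hu
  have hdm : u + k * q = 2 * s := by
    rw [hu, hk, Nat.mul_comm ((2 * s) / q) q]
    exact Nat.mod_add_div (2 * s) q
  have hkpos : 0 < k := Nat.div_pos (by omega) hq.pos
  have hult : u < q := Nat.mod_lt _ hq.pos
  have hcard : Fintype.card V = Fintype.card (Fin (u + 1) ⊕ (Fin k × ZMod q)) := by
    rw [Fintype.card_sum, Fintype.card_prod, Fintype.card_fin, Fintype.card_fin, ZMod.card, hV]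
    omega
  have e := Fintype.equivOfCardEq hcard
  rw [EE_congr e s r, EE_root s (e r) (Sum.inl 0)]
  have hG : IsPGroup q (Multiplicative (Fin k → ZMod q)) := by
    apply IsPGroup.of_card (n := k)
    rw [Nat.card_eq_fintype_card, Fintype.card_multiplicative, Fintype.card_fun, ZMod.card,
      Fintype.card_fin]
  have h1 := hG.card_modEq_card_fixedPoints
    (TG (Fin (u + 1) ⊕ (Fin k × ZMod q)) s (Sum.inl 0))
  have h2 : Nat.card (MulAction.fixedPoints (Multiplicative (Fin k → ZMod q))
      (TG (Fin (u + 1) ⊕ (Fin k × ZMod q)) s (Sum.inl 0))) = 0 := by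
    have : IsEmpty (MulAction.fixedPoints (Multiplicative (Fin k → ZMod q))
      (TG (Fin (u + 1) ⊕ (Fin k × ZMod q)) s (Sum.inl 0))) := by
      refine ⟨fun p => ?_⟩
      exact nofixed hq.one_lt (hq.odd_of_ne_two hq2) (by omega) hkpos (by omega) p.1 p.2
    exact Nat.card_of_isEmpty
  rw [h2] at h1
  exact (Nat.modEq_zero_iff_dvd).mp h1

end Pool.Agent.MP_c3d1b0
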