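import Pool.Agent.Lib.MP_c3d1b0_co.Defs

set_option autoImplicit false

/-!
# The directed weighted matrix tree theorem
-/

namespace Pool.Agent.MP_c3d1b0

open Finset Matrix

section tree

variable {V : Type} [Fintype V] [DecidableEq V]

/-- The matrix of a parent function over the integers. -/
def Nz (r : V) (g : V → V) : Matrix V V ℤ :=
  fun i => if i = r then Pi.single r 1 else Pi.single i 1 - Pi.single (g i) 1

/-- The nilpotent part. -/
def Az (r : V) (g : V → V) : Matrix V V ℤ :=
  fun i => if i = r then 0 else Pi.single (g i) 1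

lemma Nz_eq (r : V) (g : V → V) : Nz r g = 1 - Az r g := by
  ext i j
  unfold Nz Az
  rw [Matrix.sub_apply, Matrix.one_apply]
  by_cases hi : i = r
  · subst hi
    simp only [if_true, Pi.zero_apply, sub_zero]
    rw [Pi.single_apply]
    by_cases hj : j = i
    · simp [hj]
    · simp [hj, Ne.symm hj]
  · simp only [if_neg hi, Pi.sub_apply, Pi.single_apply]
    by_cases hj : j = i
    · simp [hj]
    · simp [hj, Ne.symm hj]

lemma Az_pow (r : V) (g : V → V) (k : ℕ) (i : V) (h : ∃ l < k, g^[l] i = r) :
    (Az r g ^ k) i = 0 := by
  induction k generalizing i with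
  | zero => obtain ⟨l, hl, _⟩ := h; omega
  | succ k ih =>
    rw [pow_succ']
    funext j
    rw [Matrix.mul_apply]
    by_cases hi : i = r
    · apply Finset.sum_eq_zero
      intro x _
      unfold Az
      rw [if_pos hi]
      simp
    · obtain ⟨l, hl, hlr⟩ := h
      have hl0 : l ≠ 0 := by
        rintro rfl
        exact hi hlr
      obtain ⟨l', rfl⟩ := Nat.exists_eq_succ_of_ne_zero hl0
      rw [Function.iterate_succ_apply] at hlr
      have h1 := ih (g i) ⟨l', by omega, hlr⟩
      apply Finset.sum_eq_zero
      intro x _
      by_cases hx : x = g i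
      · subst hx
        rw [h1]
        simp
      · unfold Az
        rw [if_neg hi, Pi.single_apply, if_neg hx, zero_mul]

lemma Az_nil {r : V} {g : V → V} (h : IsArb r g) : IsNilpotent (Az r g) := by
  choose k hk using h.2
  refine ⟨(∑ v, k v) + 1, ?_⟩
  ext i j
  rw [Az_pow r g _ i ⟨k i, Nat.lt_succ_of_le (Finset.single_le_sum (fun _ _ => Nat.zero_le _)
    (Finset.mem_univ i)), hk i⟩]
  rfl

lemma Nz_det_arb {r : V} {g : V → V} (h : IsArb r g) : (Nz r g).det = 1 := by
  have h1 := Matrix.isNilpotent_charpoly_sub_pow_of_isNilpotent (Az_nil h)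
  have h2 : (Az r g).charpoly = Polynomial.X ^ (Fintype.card V) := sub_eq_zero.mp h1.eq_zero
  have h3 := Matrix.eval_charpoly (Az r g) 1
  rw [h2, Polynomial.eval_pow, Polynomial.eval_X, one_pow] at h3
  rw [Nz_eq]
  rw [map_one] at h3
  exact h3.symm

lemma Nz_det_not {r : V} {g : V → V} (hr : g r = r) (h : ¬ IsArb r g) : (Nz r g).det = 0 := by
  classical
  rw [← Matrix.exists_mulVec_eq_zero_iff]
  have h1 : ∃ v, ∀ k : ℕ, g^[k] v ≠ r := by
    by_contra hcon
    push Not at hcon
    exact h ⟨hr, hcon⟩
  obtain ⟨v, hv⟩ := h1
  refine ⟨fun u => if ∀ k : ℕ, g^[k] u ≠ r then 1 else 0, ?_, ?_⟩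
  · intro h2
    have h3 := congrFun h2 v
    simp only [Pi.zero_apply] at h3
    rw [if_pos hv] at h3
    exact one_ne_zero h3
  · funext i
    rw [Matrix.mulVec, Pi.zero_apply]
    unfold Nz dotProduct
    by_cases hi : i = r
    · rw [if_pos hi]
      have h4 : ¬ ∀ k : ℕ, g^[k] r ≠ r := by
        intro h5
        exact h5 0 rfl
      rw [Finset.sum_eq_single r]
      · simp only [Pi.single_apply, if_true]
        rw [one_mul, if_neg h4]
      · intro x _ hx
        simp only [Pi.single_apply]
        rw [if_neg hx, zero_mul]
      · intro hx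
        exact absurd (Finset.mem_univ _) hx
    · rw [if_neg hi]
      have h4 : (∀ k : ℕ, g^[k] i ≠ r) ↔ (∀ k : ℕ, g^[k] (g i) ≠ r) := by
        constructor
        · intro h5 k
          rw [← Function.iterate_succ_apply]
          exact h5 (k + 1)
        · intro h5 k
          rcases k with _ | k
          · exact hi
          · rw [Function.iterate_succ_apply]
            exact h5 k
      simp only [Pi.sub_apply, sub_mul, Pi.single_apply, ite_mul, one_mul, zero_mul]
      rw [Finset.sum_sub_distrib, Finset.sum_ite_eq' , Finset.sum_ite_eq']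
      simp only [Finset.mem_univ, if_true]
      by_cases h5 : ∀ k : ℕ, g^[k] i ≠ r
      · rw [if_pos h5, if_pos (h4.mp h5), sub_self]
      · rw [if_neg h5, if_neg (fun h6 => h5 (h4.mpr h6)), sub_self]

variable {R : Type} [CommRing R]

/-- The Laplacian of the weights `w` (the diagonal weights play no role). -/
def Lap (w : V → V → R) : Matrix V V R :=
  fun i j => (if i = j then ∑ k, w i k else 0) - w i j

open Classical in
theorem matrix_tree (w : V → V → R) (r : V) :
    ((Lap w).updateRow r (Pi.single r 1)).det =
      ∑ g : V → V, if IsArb r g then ∏ v ∈ univ.erase r, w v (g v) else 0 := by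
  -- rows as sums
  have hrow : ((Lap w).updateRow r (Pi.single r 1)) = (fun i => ∑ k : V,
      (if i = r then (if k = r then (Pi.single r 1 : V → R) else 0)
        else w i k • ((Pi.single i 1 : V → R) - Pi.single k 1))) := by
    funext i
    by_cases hi : i = r
    · subst hi
      rw [Matrix.updateRow_self]
      simp
    · rw [Matrix.updateRow_ne hi]
      simp only [if_neg hi]
      funext j
      rw [Finset.sum_apply]
      simp only [Pi.smul_apply, Pi.sub_apply, Pi.single_apply, smul_eq_mul, mul_sub, mul_ite, mul_one,
        mul_zero]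
      rw [Finset.sum_sub_distrib]
      unfold Lap
      congr 1
      · by_cases hij : i = j
        · subst hij
          simp
        · rw [if_neg hij]
          simp [Ne.symm hij]
      · simp
  have h1 : ((Lap w).updateRow r (Pi.single r 1)).det = Matrix.detRowAlternating (fun i => ∑ k : V,
      (if i = r then (if k = r then (Pi.single r 1 : V → R) else 0)
        else w i k • ((Pi.single i 1 : V → R) - Pi.single k 1))) := by
    rw [hrow]
    rfl
  rw [h1]
  have h2 := (Matrix.detRowAlternating (R := R) (n := V)).toMultilinearMap.map_sum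
    (g := fun i k => (if i = r then (if k = r then (Pi.single r 1 : V → R) else 0)
        else w i k • ((Pi.single i 1 : V → R) - Pi.single k 1)))
  rw [AlternatingMap.coe_multilinearMap] at h2
  rw [h2]
  apply Finset.sum_congr rfl
  intro g _
  by_cases hg : g r = r
  · have h3 : (fun i => (if i = r then (if g i = r then (Pi.single r 1 : V → R) else 0)
        else w i (g i) • ((Pi.single i 1 : V → R) - Pi.single (g i) 1))) =
        (fun i => (if i = r then (1 : R) else w i (g i)) • ((Int.castRingHom R).mapMatrix (Nz r g)) i) := by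
      funext i
      by_cases hi : i = r
      · subst hi
        rw [if_pos rfl, if_pos hg, if_pos rfl, one_smul]
        funext j
        simp only [RingHom.mapMatrix_apply, Matrix.map_apply, Nz, if_true, Pi.single_apply]
        by_cases hj : j = i
        · simp [hj]
        · simp [hj]
      · rw [if_neg hi, if_neg hi]
        congr 1
        funext j
        simp only [RingHom.mapMatrix_apply, Matrix.map_apply, Nz, if_neg hi, Pi.sub_apply,
          Pi.single_apply]
        by_cases hj : j = i <;> by_cases hj2 : j = g i <;> simp [hj, hj2]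
    rw [h3]
    have h4 := (Matrix.detRowAlternating (R := R) (n := V)).toMultilinearMap.map_smul_univ
      (fun i => if i = r then (1 : R) else w i (g i)) ((Int.castRingHom R).mapMatrix (Nz r g))
    rw [AlternatingMap.coe_multilinearMap] at h4
    rw [h4]
    have h5 : Matrix.detRowAlternating ((Int.castRingHom R).mapMatrix (Nz r g)) =
        (Int.castRingHom R) (Nz r g).det := by
      rw [RingHom.map_det]
      rfl
    rw [h5]
    have h6 : (∏ i : V, if i = r then (1 : R) else w i (g i)) = ∏ v ∈ univ.erase r, w v (g v) := by
      rw [← Finset.mul_prod_erase _ _ (Finset.mem_univ r), if_pos rfl, one_mul]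
      apply Finset.prod_congr rfl
      intro v hv
      rw [if_neg (Finset.ne_of_mem_erase hv)]
    rw [h6]
    by_cases ha : IsArb r g
    · rw [if_pos ha, Nz_det_arb ha, map_one, smul_eq_mul, mul_one]
    · rw [if_neg ha, Nz_det_not hg ha, map_zero, smul_zero]
  · rw [if_neg (fun h => hg h.1)]
    apply (Matrix.detRowAlternating (R := R) (n := V)).map_coord_zero r
    rw [if_pos rfl, if_neg hg]

end tree

end Pool.Agent.MP_c3d1b0
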