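import Pool.Agent.Lib.MP_c3d1b0_co.Tree

set_option autoImplicit false

/-!
# Sums over tournaments containing a given tree
-/

namespace Pool.Agent.MP_c3d1b0

open Finset

/-- Ordered pairs. -/
abbrev PP (N : ℕ) : Type := {p : Fin N × Fin N // p.1 < p.2}

lemma prod_pairs {N : ℕ} {M : Type} [CommMonoid M] (h : Fin N → Fin N → M) :
    ∏ i, ∏ j, h i j = (∏ i, h i i) * ∏ p : PP N, (h p.1.1 p.1.2 * h p.1.2 p.1.1) := by
  classical
  have h1 : ∏ i, ∏ j, h i j = ∏ q : Fin N × Fin N, h q.1 q.2 := (Fintype.prod_prod_type' _).symm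
  rw [h1, Finset.prod_mul_distrib]
  have h2 := Finset.prod_filter_mul_prod_filter_not (univ : Finset (Fin N × Fin N))
    (fun q => q.1 = q.2) (fun q => h q.1 q.2)
  have h3 := Finset.prod_filter_mul_prod_filter_not
    ((univ : Finset (Fin N × Fin N)).filter (fun q => ¬ q.1 = q.2))
    (fun q => q.1 < q.2) (fun q => h q.1 q.2)
  rw [Finset.filter_filter, Finset.filter_filter] at h3
  rw [← h2, ← h3]
  congr 1
  · refine Finset.prod_bij' (fun q _ => q.1) (fun i _ => (i, i)) ?_ ?_ ?_ ?_ ?_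
    · intro q _; exact Finset.mem_univ _
    · intro i _; simp
    · intro q hq
      simp only [Finset.mem_filter, Finset.mem_univ, true_and] at hq
      exact Prod.ext rfl hq
    · intro i _; rfl
    · intro q hq
      simp only [Finset.mem_filter, Finset.mem_univ, true_and] at hq
      rw [← hq]
  · congr 1
    · refine Finset.prod_bij' (fun q hq => (⟨q, by
          simp only [Finset.mem_filter, Finset.mem_univ, true_and] at hq; exact hq.2⟩ : PP N))
        (fun p _ => p.1) ?_ ?_ ?_ ?_ ?_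
      · intro q _; exact Finset.mem_univ _
      · intro p _
        simp only [Finset.mem_filter, Finset.mem_univ, true_and]
        exact ⟨ne_of_lt p.2, p.2⟩
      · intro q _; rfl
      · intro p _; rfl
      · intro q _; rfl
    · refine Finset.prod_bij' (fun q hq => (⟨(q.2, q.1), by
          simp only [Finset.mem_filter, Finset.mem_univ, true_and] at hq
          exact lt_of_le_of_ne (not_lt.mp hq.2) (Ne.symm hq.1)⟩ : PP N))
        (fun p _ => (p.1.2, p.1.1)) ?_ ?_ ?_ ?_ ?_
      · intro q _; exact Finset.mem_univ _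
      · intro p _
        simp only [Finset.mem_filter, Finset.mem_univ, true_and]
        exact ⟨ne_of_gt p.2, not_lt.mpr (le_of_lt p.2)⟩
      · intro q _; rfl
      · intro p _; rfl
      · intro q _; rfl

/-- The tournament of a choice for each pair. -/
def tt {N : ℕ} (τ : PP N → Bool) (a b : Fin N) : Bool :=
  if h : a < b then τ ⟨(a, b), h⟩ else if h : b < a then !τ ⟨(b, a), h⟩ else false

lemma tt_lt {N : ℕ} (τ : PP N → Bool) (p : PP N) : tt τ p.1.1 p.1.2 = τ p := by
  unfold tt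
  rw [dif_pos p.2]

lemma tt_gt {N : ℕ} (τ : PP N → Bool) (p : PP N) : tt τ p.1.2 p.1.1 = !τ p := by
  unfold tt
  rw [dif_neg (not_lt.mpr (le_of_lt p.2)), dif_pos p.2]

lemma tt_self {N : ℕ} (τ : PP N → Bool) (a : Fin N) : tt τ a a = false := by
  unfold tt
  rw [dif_neg (lt_irrefl a), dif_neg (lt_irrefl a)]

lemma tt_tour {N : ℕ} (τ : PP N → Bool) : IsTour (tt τ) := by
  refine ⟨tt_self τ, fun a b hab => ?_⟩
  rcases lt_or_gt_of_ne hab with h | h
  · have h1 := tt_lt τ ⟨(a, b), h⟩
    have h2 := tt_gt τ ⟨(a, b), h⟩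
    simp only at h1 h2
    rw [h1, h2, Bool.not_not]
  · have h1 := tt_lt τ ⟨(b, a), h⟩
    have h2 := tt_gt τ ⟨(b, a), h⟩
    simp only at h1 h2
    rw [h1, h2]

lemma tt_inj {N : ℕ} {τ τ' : PP N → Bool} (h : tt τ = tt τ') : τ = τ' := by
  funext p
  rw [← tt_lt τ p, ← tt_lt τ' p, h]

lemma tt_surj {N : ℕ} {T : Fin N → Fin N → Bool} (h : IsTour T) :
    tt (fun p => T p.1.1 p.1.2) = T := by
  funext a b
  unfold tt
  split_ifs with h1 h2
  · rfl
  · simp only
    rw [h.2 a b (ne_of_gt h2)]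
  · have : a = b := le_antisymm (not_lt.mp h2) (not_lt.mp h1)
    rw [this, h.1]

lemma arb_closed {V : Type} {r : V} {g : V → V} (h : IsArb r g) (S : Set V)
    (hS : ∀ v ∈ S, g v ∈ S) {v : V} (hv : v ∈ S) : r ∈ S := by
  obtain ⟨k, hk⟩ := h.2 v
  rw [← hk]
  clear hk
  induction k with
  | zero => exact hv
  | succ k ih =>
    rw [Function.iterate_succ_apply']
    exact hS _ ih

lemma arb_ne {V : Type} {r : V} {g : V → V} (h : IsArb r g) {v : V} (hv : v ≠ r) : g v ≠ v := by
  intro h1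
  have := arb_closed h {v} (by rintro u rfl; exact h1) (Set.mem_singleton v)
  exact hv (Set.mem_singleton_iff.mp this).symm

lemma arb_ne2 {V : Type} {r : V} {g : V → V} (h : IsArb r g) {u v : V} (hu : u ≠ r) (hv : v ≠ r)
    (h1 : g v = u) : g u ≠ v := by
  intro h2
  have := arb_closed h {v, u} (by
    rintro w (rfl | rfl)
    · right; exact h1
    · left; exact h2) (Set.mem_insert v {u})
  rcases this with h3 | h3
  · exact hv h3.symm
  · exact hu (Set.mem_singleton_iff.mp h3).symm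

section

variable {N : ℕ}

open Classical in
/-- The weight of one pair. -/
noncomputable def pw (x : Fin N → ℂ) (r : Fin N) (g : Fin N → Fin N) (p : PP N) (b : Bool) : ℂ :=
  if b = true then (if p.1.2 ≠ r ∧ g p.1.2 = p.1.1 then 0 else x p.1.1)
  else (if p.1.1 ≠ r ∧ g p.1.1 = p.1.2 then 0 else x p.1.2)

open Classical in
lemma weight_eq (x : Fin N → ℂ) (r : Fin N) (g : Fin N → Fin N) (hg : ∀ v, v ≠ r → g v ≠ v)
    (τ : PP N → Bool) :
    (if ∀ v, v ≠ r → tt τ v (g v) = true then ∏ i, x i ^ (outdeg (tt τ) i) else 0) =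
      ∏ p : PP N, pw x r g p (τ p) := by
  have h1 : ∏ i, x i ^ (outdeg (tt τ) i) = ∏ p : PP N, (if τ p = true then x p.1.1 else x p.1.2) := by
    have h2 : ∀ i, x i ^ (outdeg (tt τ) i) = ∏ j, (if tt τ i j = true then x i else 1) := by
      intro i
      unfold outdeg
      rw [Finset.prod_ite, Finset.prod_const_one, mul_one, Finset.prod_const]
    rw [Finset.prod_congr rfl (fun i _ => h2 i), prod_pairs]
    have h3 : ∏ i : Fin N, (if tt τ i i = true then x i else 1) = 1 := by
      apply Finset.prod_eq_one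
      intro i _
      rw [tt_self]
      simp
    rw [h3, one_mul]
    apply Finset.prod_congr rfl
    intro p _
    rw [tt_lt, tt_gt]
    cases τ p <;> simp
  rw [h1]
  by_cases hT : ∀ v, v ≠ r → tt τ v (g v) = true
  · rw [if_pos hT]
    apply Finset.prod_congr rfl
    intro p _
    unfold pw
    by_cases hb : τ p = true
    · rw [if_pos hb, if_pos hb, if_neg]
      rintro ⟨h2, h3⟩
      have h4 := hT _ h2
      rw [h3, tt_gt, hb] at h4
      simp at h4
    · rw [if_neg hb, if_neg hb, if_neg]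
      rintro ⟨h2, h3⟩
      have h4 := hT _ h2
      rw [h3, tt_lt] at h4
      exact hb h4
  · rw [if_neg hT]
    push Not at hT
    obtain ⟨v, hv, hT⟩ := hT
    symm
    rcases lt_or_gt_of_ne (hg v hv) with h2 | h2
    · apply Finset.prod_eq_zero (Finset.mem_univ (⟨(g v, v), h2⟩ : PP N))
      unfold pw
      have h3 := tt_gt τ ⟨(g v, v), h2⟩
      simp only at h3
      rw [h3] at hT
      have h4 : τ ⟨(g v, v), h2⟩ = true := by
        cases h5 : τ ⟨(g v, v), h2⟩
        · rw [h5] at hT; simp at hT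
        · rfl
      rw [if_pos h4, if_pos ⟨hv, rfl⟩]
    · apply Finset.prod_eq_zero (Finset.mem_univ (⟨(v, g v), h2⟩ : PP N))
      unfold pw
      have h3 := tt_lt τ ⟨(v, g v), h2⟩
      simp only at h3
      rw [h3] at hT
      rw [if_neg hT, if_pos ⟨hv, rfl⟩]

open Classical in
theorem tour_sum (x : Fin N → ℂ) (hx : ∀ i j, i ≠ j → x i + x j ≠ 0) (r : Fin N)
    (g : Fin N → Fin N) (hg : IsArb r g) :
    ∑ τ : PP N → Bool, (if ∀ v, v ≠ r → tt τ v (g v) = true then ∏ i, x i ^ (outdeg (tt τ) i) else 0) =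
      (∏ p : PP N, (x p.1.1 + x p.1.2)) * ∏ v ∈ univ.erase r, (x v / (x v + x (g v))) := by
  rw [Finset.sum_congr rfl (fun τ _ => weight_eq x r g (fun v hv => arb_ne hg hv) τ)]
  have h1 := Finset.prod_univ_sum (fun _ : PP N => (univ : Finset Bool)) (pw x r g)
  rw [Fintype.piFinset_univ] at h1
  rw [← h1]
  -- the factors
  set φ : Fin N → Fin N → ℂ := fun i j => if i ≠ r ∧ g i = j then x i / (x i + x j) else 1 with hφ
  have h2 : ∀ p : PP N, ∑ b : Bool, pw x r g p b = (x p.1.1 + x p.1.2) * (φ p.1.1 p.1.2 * φ p.1.2 p.1.1) := by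
    intro p
    have hne : p.1.1 ≠ p.1.2 := ne_of_lt p.2
    have h0 := hx _ _ hne
    have h0' := hx _ _ hne.symm
    rw [Fintype.sum_bool]
    unfold pw
    rw [if_pos rfl, if_neg Bool.false_ne_true, hφ]
    simp only
    by_cases ha : p.1.2 ≠ r ∧ g p.1.2 = p.1.1
    · have hb : ¬ (p.1.1 ≠ r ∧ g p.1.1 = p.1.2) := by
        rintro ⟨h3, h4⟩
        exact arb_ne2 hg h3 ha.1 ha.2 h4
      rw [if_pos ha, if_neg hb, if_neg hb, if_pos ha]
      field_simp
      ring
    · by_cases hb : p.1.1 ≠ r ∧ g p.1.1 = p.1.2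
      · rw [if_neg ha, if_pos hb, if_pos hb, if_neg ha]
        field_simp
        ring
      · rw [if_neg ha, if_neg hb, if_neg hb, if_neg ha]
        ring
  rw [Finset.prod_congr rfl (fun p _ => h2 p), Finset.prod_mul_distrib]
  congr 1
  have h3 := prod_pairs φ
  have h4 : ∏ i, φ i i = 1 := by
    apply Finset.prod_eq_one
    intro i _
    rw [hφ]
    simp only
    rw [if_neg]
    rintro ⟨h5, h6⟩
    exact arb_ne hg h5 h6
  rw [h4, one_mul] at h3
  rw [← h3, ← Finset.mul_prod_erase _ _ (Finset.mem_univ r)]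
  have h5 : ∏ j, φ r j = 1 := by
    apply Finset.prod_eq_one
    intro j _
    rw [hφ]
    simp
  rw [h5, one_mul]
  apply Finset.prod_congr rfl
  intro v hv
  have hvr := Finset.ne_of_mem_erase hv
  rw [hφ]
  simp only
  rw [Finset.prod_eq_single (g v)]
  · rw [if_pos ⟨hvr, rfl⟩]
  · intro j _ hj
    rw [if_neg (fun h => hj h.2.symm)]
  · intro h
    exact absurd (Finset.mem_univ _) h

end

end Pool.Agent.MP_c3d1b0
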