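import Pool.Agent.Lib.MP_c3d1b0_co.V1
import Pool.Agent.Lib.MP_c3d1b0_co.Best4

set_option autoImplicit false

/-!
# Extraction of the regular tournaments with roots of unity
-/

namespace Pool.Agent.MP_c3d1b0

open Finset

/-- The points. -/
noncomputable def pt (ζ : ℂ) {n : ℕ} (k : Fin n) : ℂ := ζ ^ (k : ℕ)

lemma pt_pow {ζ : ℂ} {n : ℕ} (hζ : IsPrimitiveRoot ζ n) (k : Fin n) : pt ζ k ^ n = 1 := by
  unfold pt
  rw [← pow_mul, mul_comm, pow_mul, hζ.pow_eq_one, one_pow]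

lemma pt_ne_zero {ζ : ℂ} {n : ℕ} (hζ : IsPrimitiveRoot ζ n) (k : Fin n) : pt ζ k ≠ 0 := by
  have hn : n ≠ 0 := by have := k.2; omega
  exact pow_ne_zero _ (hζ.ne_zero hn)

lemma pt_inj {ζ : ℂ} {n : ℕ} (hζ : IsPrimitiveRoot ζ n) {k l : Fin n} (h : pt ζ k = pt ζ l) : k = l := by
  unfold pt at h
  exact Fin.ext (hζ.pow_inj k.2 l.2 h)

lemma pt_sum {ζ : ℂ} {n : ℕ} (hζ : IsPrimitiveRoot ζ n) (e : ℕ) :
    ∑ k : Fin n, pt ζ k ^ e = if n ∣ e then (n : ℂ) else 0 := by
  unfold pt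
  have h1 : ∀ k : Fin n, (ζ ^ (k : ℕ)) ^ e = (ζ ^ e) ^ (k : ℕ) := by
    intro k
    rw [← pow_mul, ← pow_mul, mul_comm]
  rw [Finset.sum_congr rfl (fun k _ => h1 k), Fin.sum_univ_eq_sum_range (fun k => (ζ ^ e) ^ k) n]
  by_cases h : n ∣ e
  · rw [if_pos h, (hζ.pow_eq_one_iff_dvd e).mpr h]
    simp
  · rw [if_neg h]
    have h2 : ζ ^ e ≠ 1 := fun h3 => h ((hζ.pow_eq_one_iff_dvd e).mp h3)
    have h3 := mul_geom_sum (ζ ^ e) n
    rw [← pow_mul, mul_comm e n, pow_mul, hζ.pow_eq_one, one_pow, sub_self] at h3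
    rcases mul_eq_zero.mp h3 with h4 | h4
    · exact absurd (sub_eq_zero.mp h4) h2
    · exact h4

lemma pt_add_ne {ζ : ℂ} {s : ℕ} (hζ : IsPrimitiveRoot ζ (2 * s + 1)) (k l : Fin (2 * s + 1)) :
    pt ζ k + pt ζ l ≠ 0 := by
  intro h
  have h1 : pt ζ k = - pt ζ l := eq_neg_of_add_eq_zero_left h
  have h2 := pt_pow hζ k
  rw [h1, Odd.neg_pow ⟨s, rfl⟩, pt_pow hζ l] at h2
  norm_num at h2

section

variable {s : ℕ}

lemma outdeg_le (τ : PP (2 * s + 1) → Bool) (i : Fin (2 * s + 1)) : outdeg (tt τ) i ≤ 2 * s := by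
  unfold outdeg
  have h1 : (univ.filter (fun b => tt τ i b = true)) ⊆ (univ : Finset (Fin (2 * s + 1))).erase i := by
    intro b hb
    simp only [Finset.mem_filter, Finset.mem_univ, true_and] at hb
    rw [Finset.mem_erase]
    refine ⟨?_, Finset.mem_univ _⟩
    rintro rfl
    rw [tt_self] at hb
    exact Bool.false_ne_true hb
  have h2 := Finset.card_le_card h1
  rw [Finset.card_erase_of_mem (Finset.mem_univ _), Finset.card_univ, Fintype.card_fin] at h2
  omega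

open Classical in
lemma ee_count (r : Fin (2 * s + 1)) :
    EE (Fin (2 * s + 1)) s r = ((univ : Finset ((Fin (2 * s + 1) → Fin (2 * s + 1)) ×
      (PP (2 * s + 1) → Bool))).filter (fun q => IsArb r q.1 ∧ (∀ v, v ≠ r → tt q.2 v (q.1 v) = true) ∧
        ∀ i, outdeg (tt q.2) i = s)).card := by
  unfold EE
  have h1 := Nat.subtype_card (p := fun q : ((Fin (2 * s + 1) → Fin (2 * s + 1)) ×
      (PP (2 * s + 1) → Bool)) => IsArb r q.1 ∧ (∀ v, v ≠ r → tt q.2 v (q.1 v) = true) ∧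
        ∀ i, outdeg (tt q.2) i = s) ((univ : Finset ((Fin (2 * s + 1) → Fin (2 * s + 1)) ×
      (PP (2 * s + 1) → Bool))).filter (fun q => IsArb r q.1 ∧ (∀ v, v ≠ r → tt q.2 v (q.1 v) = true) ∧
        ∀ i, outdeg (tt q.2) i = s)) (by intro x; simp)
  rw [← h1]
  apply Nat.card_congr
  refine ⟨fun p => ⟨(p.1.2, fun q => p.1.1 q.1.1 q.1.2), ?_⟩, fun q => ⟨(tt q.1.2, q.1.1), ?_⟩, ?_, ?_⟩
  · obtain ⟨⟨T, g⟩, hT, hd, hg, hs⟩ := p
    simp only at hT hd hg hs ⊢
    rw [tt_surj hT]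
    exact ⟨hg, hs, hd⟩
  · obtain ⟨⟨g, τ⟩, hg, hs, hd⟩ := q
    exact ⟨tt_tour τ, hd, hg, hs⟩
  · rintro ⟨⟨T, g⟩, hT, hd, hg, hs⟩
    apply Subtype.ext
    simp only
    rw [tt_surj hT]
  · rintro ⟨⟨g, τ⟩, hg, hs, hd⟩
    apply Subtype.ext
    simp only
    apply Prod.ext
    · rfl
    · simp only
      funext q
      exact tt_lt τ q

open Classical in
theorem count_eq {ζ : ℂ} (hζ : IsPrimitiveRoot ζ (2 * s + 1)) :
    ∑ f : Fin (2 * s + 1) → Fin (2 * s + 1), (∏ i, pt ζ (f i) ^ (s + 1)) *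
      ((∏ p : PP (2 * s + 1), (pt ζ (f p.1.1) + pt ζ (f p.1.2))) *
        ∑ r : Fin (2 * s + 1), ∑ g : Fin (2 * s + 1) → Fin (2 * s + 1), (if IsArb r g then
          ∏ v ∈ univ.erase r, (pt ζ (f v) / (pt ζ (f v) + pt ζ (f (g v)))) else 0)) =
      ((2 * s + 1 : ℕ) : ℂ) ^ (2 * s + 1) * (((2 * s + 1 : ℕ) : ℂ) * (EE (Fin (2 * s + 1)) s 0 : ℂ)) := by
  have h1 : ∀ f : Fin (2 * s + 1) → Fin (2 * s + 1), (∏ i, pt ζ (f i) ^ (s + 1)) *
      ((∏ p : PP (2 * s + 1), (pt ζ (f p.1.1) + pt ζ (f p.1.2))) *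
        ∑ r : Fin (2 * s + 1), ∑ g : Fin (2 * s + 1) → Fin (2 * s + 1), (if IsArb r g then
          ∏ v ∈ univ.erase r, (pt ζ (f v) / (pt ζ (f v) + pt ζ (f (g v)))) else 0)) =
      ∑ r : Fin (2 * s + 1), ∑ q : (Fin (2 * s + 1) → Fin (2 * s + 1)) × (PP (2 * s + 1) → Bool),
        (if IsArb r q.1 ∧ (∀ v, v ≠ r → tt q.2 v (q.1 v) = true) then
          ∏ i, pt ζ (f i) ^ (s + 1 + outdeg (tt q.2) i) else 0) := by
    intro f
    rw [Finset.mul_sum, Finset.mul_sum]
    apply Finset.sum_congr rfl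
    intro r _
    rw [Finset.mul_sum, Finset.mul_sum, Fintype.sum_prod_type]
    apply Finset.sum_congr rfl
    intro g _
    simp only
    by_cases hg : IsArb r g
    · rw [if_pos hg]
      have h2 := tour_sum (fun i => pt ζ (f i)) (fun i j _ => pt_add_ne hζ (f i) (f j)) r g hg
      rw [← h2, Finset.mul_sum]
      apply Finset.sum_congr rfl
      intro τ _
      by_cases hτ : ∀ v, v ≠ r → tt τ v (g v) = true
      · rw [if_pos hτ, if_pos ⟨hg, hτ⟩, ← Finset.prod_mul_distrib]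
        apply Finset.prod_congr rfl
        intro i _
        rw [pow_add _ (s + 1)]
      · rw [if_neg hτ, if_neg (fun h => hτ h.2), mul_zero]
    · rw [if_neg hg, mul_zero, mul_zero]
      symm
      apply Finset.sum_eq_zero
      intro τ _
      rw [if_neg (fun h => hg h.1)]
  rw [Finset.sum_congr rfl (fun f _ => h1 f), Finset.sum_comm]
  have h3 : ∀ r : Fin (2 * s + 1), ∑ f : Fin (2 * s + 1) → Fin (2 * s + 1),
      ∑ q : (Fin (2 * s + 1) → Fin (2 * s + 1)) × (PP (2 * s + 1) → Bool),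
        (if IsArb r q.1 ∧ (∀ v, v ≠ r → tt q.2 v (q.1 v) = true) then
          ∏ i, pt ζ (f i) ^ (s + 1 + outdeg (tt q.2) i) else 0) =
      ((2 * s + 1 : ℕ) : ℂ) ^ (2 * s + 1) * (EE (Fin (2 * s + 1)) s r : ℂ) := by
    intro r
    rw [Finset.sum_comm, ee_count, Finset.card_eq_sum_ones, Nat.cast_sum, Finset.mul_sum, Finset.sum_filter]
    apply Finset.sum_congr rfl
    intro q _
    by_cases hq : IsArb r q.1 ∧ (∀ v, v ≠ r → tt q.2 v (q.1 v) = true)
    · rw [Finset.sum_congr rfl (fun f _ => if_pos hq)]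
      have h4 := Finset.prod_univ_sum (fun _ : Fin (2 * s + 1) => (univ : Finset (Fin (2 * s + 1))))
        (fun i k => pt ζ k ^ (s + 1 + outdeg (tt q.2) i))
      rw [Fintype.piFinset_univ] at h4
      rw [← h4]
      have h5 : ∀ i, ∑ k : Fin (2 * s + 1), pt ζ k ^ (s + 1 + outdeg (tt q.2) i) =
          if outdeg (tt q.2) i = s then ((2 * s + 1 : ℕ) : ℂ) else 0 := by
        intro i
        rw [pt_sum hζ]
        have h6 := outdeg_le q.2 i
        by_cases h7 : outdeg (tt q.2) i = s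
        · rw [if_pos h7, if_pos]
          rw [h7]
          exact ⟨1, by ring⟩
        · rw [if_neg h7, if_neg]
          rintro ⟨c, hc⟩
          apply h7
          have hc1 : c = 1 := by
            have h8 : 0 < c := by
              rcases Nat.eq_zero_or_pos c with h9 | h9
              · rw [h9] at hc; omega
              · exact h9
            have h9 : c < 2 := by
              by_contra h10
              push Not at h10
              have : (2 * s + 1) * 2 ≤ (2 * s + 1) * c := Nat.mul_le_mul_left _ h10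
              omega
            omega
          rw [hc1] at hc
          omega
      rw [Finset.prod_congr rfl (fun i _ => h5 i)]
      by_cases h8 : ∀ i, outdeg (tt q.2) i = s
      · rw [if_pos ⟨hq.1, hq.2, h8⟩, Finset.prod_congr rfl (fun i _ => if_pos (h8 i)), Finset.prod_const,
          Finset.card_univ, Fintype.card_fin]
        simp
      · rw [if_neg (fun h => h8 h.2.2)]
        push Not at h8
        obtain ⟨i, hi⟩ := h8
        exact Finset.prod_eq_zero (Finset.mem_univ i) (if_neg hi)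
    · rw [Finset.sum_congr rfl (fun f _ => if_neg hq), Finset.sum_const_zero,
        if_neg (fun h => hq ⟨h.1, h.2.1⟩)]
  rw [Finset.sum_congr rfl (fun r _ => h3 r), ← Finset.mul_sum]
  congr 1
  rw [Finset.sum_congr rfl (fun r _ => by rw [EE_root s r 0]), Finset.sum_const, Finset.card_univ,
    Fintype.card_fin, nsmul_eq_mul]

end

end Pool.Agent.MP_c3d1b0
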