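import Pool.Agent.Lib.MP_c3d1b0_co.V2

set_option autoImplicit false

/-!
# The tree sum as a small determinant
-/

namespace Pool.Agent.MP_c3d1b0

open Finset Matrix

section psi

variable {V : Type} [Fintype V] [DecidableEq V]

lemma lap_row (w : V → V → ℂ) (i : V) : ∑ j, Lap w i j = 0 := by
  unfold Lap
  rw [Finset.sum_sub_distrib]
  simp

theorem psi_det (w : V → V → ℂ) (hV : (Fintype.card V : ℂ) ≠ 0) :
    ∑ r, ((Lap w).updateRow r (Pi.single r 1)).det =
      (Lap w + Matrix.of (fun _ _ => (1 : ℂ) / (Fintype.card V : ℂ))).det := by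
  set n : ℂ := (Fintype.card V : ℂ) with hn
  set M : Matrix V V ℂ := Lap w + Matrix.of (fun _ _ => (1 : ℂ) / n) with hM
  have hM1 : M *ᵥ (fun _ => (1 : ℂ)) = fun _ => 1 := by
    funext i
    rw [Matrix.mulVec]
    unfold dotProduct
    simp only [mul_one]
    rw [hM]
    simp only [Matrix.add_apply, Matrix.of_apply]
    rw [Finset.sum_add_distrib, lap_row, zero_add, Finset.sum_const, Finset.card_univ, nsmul_eq_mul]
    rw [← hn]
    field_simp
  -- (c)
  have hc : ∑ r, (M.updateRow r (fun _ => (1 : ℂ))).det = n * M.det := by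
    have h1 : ∀ r, (M.updateRow r (fun _ => (1 : ℂ))).det = ∑ i, M.adjugate i r := by
      intro r
      rw [← Matrix.cramer_transpose_apply, Matrix.cramer_eq_adjugate_mulVec, ← Matrix.adjugate_transpose]
      rw [Matrix.mulVec]
      unfold dotProduct
      simp only [mul_one, Matrix.transpose_apply]
    rw [Finset.sum_congr rfl (fun r _ => h1 r), Finset.sum_comm]
    have h2 : M.adjugate *ᵥ (fun _ => (1 : ℂ)) = fun _ => M.det := by
      have h3 : M.adjugate *ᵥ (M *ᵥ (fun _ => (1 : ℂ))) = M.adjugate *ᵥ (fun _ => 1) := by rw [hM1]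
      rw [← h3, Matrix.mulVec_mulVec, Matrix.adjugate_mul, Matrix.smul_mulVec, Matrix.one_mulVec]
      funext i
      simp
    have h4 : ∀ i, ∑ r, M.adjugate i r = M.det := by
      intro i
      have h5 := congrFun h2 i
      rw [Matrix.mulVec] at h5
      unfold dotProduct at h5
      simp only [mul_one] at h5
      exact h5
    rw [Finset.sum_congr rfl (fun i _ => h4 i), Finset.sum_const, Finset.card_univ, nsmul_eq_mul]
  -- (a)
  have ha : ∀ r, (M.updateRow r (fun _ => (1 : ℂ))).det = ((Lap w).updateRow r (fun _ => (1 : ℂ))).det := by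
    intro r
    apply Matrix.det_eq_of_forall_row_eq_smul_add_const (fun i => if i = r then 0 else 1 / n) r (if_pos rfl)
    intro i j
    by_cases hi : i = r
    · subst hi
      rw [Matrix.updateRow_self, Matrix.updateRow_self, if_pos rfl]
      ring
    · rw [Matrix.updateRow_ne hi, Matrix.updateRow_ne hi, Matrix.updateRow_self, if_neg hi, hM]
      simp only [Matrix.add_apply, Matrix.of_apply]
      ring
  -- (b)
  have hb : ∀ r, ((Lap w).updateRow r (fun _ => (1 : ℂ))).det =
      n * ((Lap w).updateRow r (Pi.single r 1)).det := by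
    intro r
    set L' := (Lap w).updateRow r (fun _ => (1 : ℂ)) with hL'
    have h1 : L' *ᵥ (fun _ => (1 : ℂ)) = Pi.single r n := by
      funext i
      rw [Matrix.mulVec]
      unfold dotProduct
      simp only [mul_one]
      by_cases hi : i = r
      · subst hi
        rw [hL', Matrix.updateRow_self, Pi.single_eq_same, Finset.sum_const, Finset.card_univ,
          nsmul_eq_mul, mul_one]
      · rw [hL', Matrix.updateRow_ne hi, lap_row, Pi.single_eq_of_ne hi]
    have h2 : L'.adjugate *ᵥ (L' *ᵥ (fun _ => (1 : ℂ))) = fun _ => L'.det := by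
      rw [Matrix.mulVec_mulVec, Matrix.adjugate_mul, Matrix.smul_mulVec, Matrix.one_mulVec]
      funext i
      simp
    rw [h1] at h2
    have h3 := congrFun h2 r
    rw [Matrix.mulVec_single] at h3
    simp only [Matrix.col_apply, Pi.smul_apply, MulOpposite.smul_eq_mul_unop, MulOpposite.unop_op] at h3
    rw [← h3, Matrix.adjugate_apply, hL', Matrix.updateRow_idem]
    ring
  have h5 : n * ∑ r, ((Lap w).updateRow r (Pi.single r 1)).det = n * M.det := by
    rw [← hc, Finset.mul_sum]
    apply Finset.sum_congr rfl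
    intro r _
    rw [ha r, hb r]
  exact mul_left_cancel₀ hV h5

/-- Fibre sizes. -/
def fb {K : Type} [DecidableEq K] (f : V → K) (k : K) : ℕ := (univ.filter (fun i => f i = k)).card

omit [DecidableEq V] in
lemma sum_fb {K : Type} [Fintype K] [DecidableEq K] (f : V → K) (h : K → ℂ) :
    ∑ i, h (f i) = ∑ k, (fb f k : ℂ) * h k := by
  rw [← Finset.sum_fiberwise (univ : Finset V) f (fun i => h (f i))]
  apply Finset.sum_congr rfl
  intro k _
  rw [Finset.sum_congr rfl (fun i hi => by rw [(Finset.mem_filter.mp hi).2]), Finset.sum_const,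
    nsmul_eq_mul]
  rfl

omit [DecidableEq V] in
lemma prod_fb {K : Type} [Fintype K] [DecidableEq K] (f : V → K) (h : K → ℂ) :
    ∏ i, h (f i) = ∏ k, h k ^ (fb f k) := by
  rw [← Finset.prod_fiberwise (univ : Finset V) f (fun i => h (f i))]
  apply Finset.prod_congr rfl
  intro k _
  rw [Finset.prod_congr rfl (fun i hi => by rw [(Finset.mem_filter.mp hi).2]), Finset.prod_const]
  rfl

theorem det_fib {K : Type} [Fintype K] [DecidableEq K] (f : V → K) (c : K → K → ℂ) (E : K → ℂ) (t : ℂ)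
    (hE : ∀ i : V, E (f i) = ∑ j, c (f i) (f j)) (hE0 : ∀ k, E k ≠ 0) (hE1 : ∀ k, fb f k = 0 → E k = 1) :
    (Lap (fun i j => c (f i) (f j)) + Matrix.of (fun _ _ => t)).det =
      (∏ k, E k ^ (fb f k - 1)) * (Matrix.of (fun k l : K => (if k = l then E k else 0) -
        (fb f k : ℂ) * (c k l - t))).det := by
  set A : Matrix V K ℂ := Matrix.of (fun i k => (E (f i))⁻¹ * (c (f i) k - t)) with hA
  set B : Matrix K V ℂ := Matrix.of (fun k j => if f j = k then 1 else 0) with hB
  have h1 : (Lap (fun i j => c (f i) (f j)) + Matrix.of (fun _ _ => t)) =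
      Matrix.of (fun i j => E (f i) * (1 - A * B : Matrix V V ℂ) i j) := by
    ext i j
    simp only [Matrix.add_apply, Matrix.of_apply, Matrix.sub_apply]
    rw [Matrix.mul_apply, hA, hB]
    simp only [Matrix.of_apply, mul_ite, mul_one, mul_zero]
    rw [Finset.sum_ite_eq, if_pos (Finset.mem_univ _), Matrix.one_apply]
    unfold Lap
    rw [← hE i]
    have h2 := hE0 (f i)
    by_cases hij : i = j
    · rw [if_pos hij, if_pos hij]
      field_simp
      ring
    · rw [if_neg hij, if_neg hij]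
      field_simp
      ring
  rw [h1, Matrix.det_mul_column, Matrix.det_one_sub_mul_comm]
  have h3 : Matrix.of (fun k l : K => (if k = l then E k else 0) - (fb f k : ℂ) * (c k l - t)) =
      Matrix.of (fun k l => E k * (1 - B * A : Matrix K K ℂ) k l) := by
    ext k l
    simp only [Matrix.of_apply, Matrix.sub_apply]
    rw [Matrix.mul_apply, hA, hB]
    simp only [Matrix.of_apply, ite_mul, one_mul, zero_mul]
    have h4 : ∑ i : V, (if f i = k then (E (f i))⁻¹ * (c (f i) l - t) else 0) =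
        (fb f k : ℂ) * ((E k)⁻¹ * (c k l - t)) := by
      rw [← Finset.sum_filter]
      rw [Finset.sum_congr rfl (fun i hi => by rw [(Finset.mem_filter.mp hi).2]), Finset.sum_const,
        nsmul_eq_mul]
      rfl
    rw [h4, Matrix.one_apply]
    have h2 := hE0 k
    by_cases hkl : k = l
    · rw [if_pos hkl, if_pos hkl]
      field_simp
    · rw [if_neg hkl, if_neg hkl]
      field_simp
      ring
  rw [h3, Matrix.det_mul_column, prod_fb f E, ← mul_assoc, ← Finset.prod_mul_distrib]
  congr 1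
  apply Finset.prod_congr rfl
  intro k _
  by_cases hk : fb f k = 0
  · rw [hk, hE1 k hk]
    simp
  · rw [← pow_succ]
    congr 1
    omega

end psi

section

/-- The weights. -/
noncomputable def cc (ζ : ℂ) {n : ℕ} (k l : Fin n) : ℂ := pt ζ k / (pt ζ k + pt ζ l)

/-- Row sums. -/
noncomputable def DD (ζ : ℂ) {n : ℕ} (m : Fin n → ℕ) (k : Fin n) : ℂ := ∑ l, (m l : ℂ) * cc ζ k l

/-- Row sums, with the convention 1 outside the support. -/
noncomputable def E1 (ζ : ℂ) {n : ℕ} (m : Fin n → ℕ) (k : Fin n) : ℂ := if m k = 0 then 1 else DD ζ m k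

/-- The small matrix. -/
noncomputable def QQ (ζ : ℂ) {n : ℕ} (m : Fin n → ℕ) : Matrix (Fin n) (Fin n) ℂ :=
  Matrix.of (fun k l => (if k = l then E1 ζ m k else 0) - (m k : ℂ) * (cc ζ k l - 1 / (n : ℂ)))

lemma pt_conj {ζ : ℂ} {n : ℕ} (hζ : IsPrimitiveRoot ζ n) (k : Fin n) :
    (starRingEnd ℂ) (pt ζ k) = (pt ζ k)⁻¹ := by
  have hn : n ≠ 0 := by have := k.2; omega
  have h1 : ‖pt ζ k‖ = 1 := Complex.norm_eq_one_of_pow_eq_one (pt_pow hζ k) hn
  rw [Complex.inv_def, Complex.normSq_eq_norm_sq, h1]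
  simp

lemma cc_re {ζ : ℂ} {s : ℕ} (hζ : IsPrimitiveRoot ζ (2 * s + 1)) (k l : Fin (2 * s + 1)) :
    (cc ζ k l).re = 1 / 2 := by
  have h1 : cc ζ k l + (starRingEnd ℂ) (cc ζ k l) = 1 := by
    unfold cc
    rw [map_div₀, map_add, pt_conj hζ, pt_conj hζ]
    have hk := pt_ne_zero hζ k
    have hl := pt_ne_zero hζ l
    have h2 := pt_add_ne hζ k l
    have h3 : pt ζ l + pt ζ k ≠ 0 := by rw [add_comm]; exact h2
    field_simp
    ring
  rw [Complex.add_conj] at h1
  have h2 := congrArg Complex.re h1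
  simp only [Complex.ofReal_re, Complex.one_re] at h2
  linarith

lemma DD_ne {ζ : ℂ} {s : ℕ} (hζ : IsPrimitiveRoot ζ (2 * s + 1)) (m : Fin (2 * s + 1) → ℕ)
    (hm : m ≠ 0) (k : Fin (2 * s + 1)) : DD ζ m k ≠ 0 := by
  intro h
  have h1 := congrArg Complex.re h
  unfold DD at h1
  rw [Complex.re_sum, Complex.zero_re] at h1
  have h2 : ∀ l, ((m l : ℂ) * cc ζ k l).re = (m l : ℝ) * (1 / 2) := by
    intro l
    rw [Complex.mul_re, cc_re hζ, Complex.natCast_re, Complex.natCast_im]
    ring
  rw [Finset.sum_congr rfl (fun l _ => h2 l), ← Finset.sum_mul] at h1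
  have h3 : (∑ l, (m l : ℝ)) = 0 := by linarith
  rw [Finset.sum_eq_zero_iff_of_nonneg (fun _ _ => Nat.cast_nonneg _)] at h3
  apply hm
  funext l
  have := h3 l (Finset.mem_univ l)
  exact_mod_cast this

lemma E1_ne {ζ : ℂ} {s : ℕ} (hζ : IsPrimitiveRoot ζ (2 * s + 1)) (m : Fin (2 * s + 1) → ℕ)
    (k : Fin (2 * s + 1)) : E1 ζ m k ≠ 0 := by
  unfold E1
  by_cases hk : m k = 0
  · rw [if_pos hk]; exact one_ne_zero
  · rw [if_neg hk]
    apply DD_ne hζ
    rintro rfl
    exact hk rfl

open Classical in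
theorem psi_fib {ζ : ℂ} {s : ℕ} (hζ : IsPrimitiveRoot ζ (2 * s + 1))
    (f : Fin (2 * s + 1) → Fin (2 * s + 1)) :
    ∑ r : Fin (2 * s + 1), ∑ g : Fin (2 * s + 1) → Fin (2 * s + 1), (if IsArb r g then
          ∏ v ∈ univ.erase r, (pt ζ (f v) / (pt ζ (f v) + pt ζ (f (g v)))) else 0) =
      (∏ k, E1 ζ (fb f) k ^ (fb f k - 1)) * (QQ ζ (fb f)).det := by
  have h1 : ∀ r : Fin (2 * s + 1), ∑ g : Fin (2 * s + 1) → Fin (2 * s + 1), (if IsArb r g then
          ∏ v ∈ univ.erase r, (pt ζ (f v) / (pt ζ (f v) + pt ζ (f (g v)))) else 0) =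
      ((Lap (fun i j => cc ζ (f i) (f j))).updateRow r (Pi.single r 1)).det := by
    intro r
    rw [matrix_tree]
    rfl
  rw [Finset.sum_congr rfl (fun r _ => h1 r), psi_det _ (by
    rw [Fintype.card_fin]; exact Nat.cast_ne_zero.mpr (by omega))]
  rw [det_fib f (cc ζ) (E1 ζ (fb f)) _ ?_ (E1_ne hζ _) ?_]
  · rw [Fintype.card_fin]
    rfl
  · intro i
    have hi : fb f (f i) ≠ 0 := by
      unfold fb
      rw [Finset.card_ne_zero]
      exact ⟨i, by simp⟩
    unfold E1
    rw [if_neg hi]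
    unfold DD
    exact (sum_fb f (fun l => cc ζ (f i) l)).symm
  · intro k hk
    unfold E1
    rw [if_pos hk]

end

end Pool.Agent.MP_c3d1b0
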