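import Pool.Agent.Lib.MP_c3d1b0_co.V3

set_option autoImplicit false

/-!
# Grouping by fibre sizes
-/

namespace Pool.Agent.MP_c3d1b0

open Finset

lemma sum_pairs {N : ℕ} (a : Fin N → Fin N → ℕ) :
    ∑ i, ∑ j, a i j = (∑ i, a i i) + ∑ p : PP N, (a p.1.1 p.1.2 + a p.1.2 p.1.1) := by
  have h := prod_pairs (fun i j => 2 ^ (a i j))
  have h1 : ∏ i, ∏ j, 2 ^ (a i j) = 2 ^ (∑ i, ∑ j, a i j) := by
    rw [← Finset.prod_pow_eq_pow_sum]
    apply Finset.prod_congr rfl
    intro i _
    rw [Finset.prod_pow_eq_pow_sum]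
  have h2 : ∏ p : PP N, (2 ^ (a p.1.1 p.1.2) * 2 ^ (a p.1.2 p.1.1)) =
      2 ^ (∑ p : PP N, (a p.1.1 p.1.2 + a p.1.2 p.1.1)) := by
    rw [← Finset.prod_pow_eq_pow_sum]
    apply Finset.prod_congr rfl
    intro p _
    rw [pow_add]
  rw [h1, h2, Finset.prod_pow_eq_pow_sum, ← pow_add] at h
  exact Nat.pow_right_injective (le_refl 2) h

/-- Indicator. -/
def ind {n : ℕ} (x k : Fin n) : ℕ := if x = k then 1 else 0

lemma fb_ind {N n : ℕ} (f : Fin N → Fin n) (k : Fin n) : fb f k = ∑ i, ind (f i) k := by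
  unfold fb ind
  rw [Finset.card_filter]

theorem pairs_fib {N n : ℕ} (θ : Fin n → Fin n → ℂ) (hθ : ∀ k l, θ k l = θ l k) (f : Fin N → Fin n) :
    ∏ p : PP N, θ (f p.1.1) (f p.1.2) =
      (∏ k, θ k k ^ ((fb f k).choose 2)) * ∏ q : PP n, θ q.1.1 q.1.2 ^ (fb f q.1.1 * fb f q.1.2) := by
  have key : ∀ x y : Fin n, θ x y = (∏ k, θ k k ^ (ind x k * ind y k)) *
      ∏ q : PP n, θ q.1.1 q.1.2 ^ (ind x q.1.1 * ind y q.1.2 + ind x q.1.2 * ind y q.1.1) := by
    intro x y
    have h := prod_pairs (fun k l => θ k l ^ (ind x k * ind y l))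
    have h1 : ∏ k, ∏ l, θ k l ^ (ind x k * ind y l) = θ x y := by
      rw [Finset.prod_eq_single x, Finset.prod_eq_single y]
      · unfold ind
        simp
      · intro l _ hl
        unfold ind
        rw [if_neg (Ne.symm hl)]
        simp
      · intro hh; exact absurd (Finset.mem_univ _) hh
      · intro k _ hk
        apply Finset.prod_eq_one
        intro l _
        unfold ind
        rw [if_neg (Ne.symm hk)]
        simp
      · intro hh; exact absurd (Finset.mem_univ _) hh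
    rw [h1] at h
    rw [h]
    congr 1
    apply Finset.prod_congr rfl
    intro q _
    rw [pow_add, hθ q.1.2 q.1.1]
  rw [Finset.prod_congr rfl (fun p _ => key (f p.1.1) (f p.1.2)), Finset.prod_mul_distrib]
  rw [Finset.prod_comm, Finset.prod_comm (s := (univ : Finset (PP N)))]
  congr 1
  · apply Finset.prod_congr rfl
    intro k _
    rw [Finset.prod_pow_eq_pow_sum]
    congr 1
    have h := sum_pairs (fun i j => ind (f i) k * ind (f j) k)
    have h1 : ∑ i, ∑ j, ind (f i) k * ind (f j) k = fb f k * fb f k := by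
      rw [fb_ind, Finset.sum_mul_sum]
    have h2 : ∑ i, ind (f i) k * ind (f i) k = fb f k := by
      rw [fb_ind]
      apply Finset.sum_congr rfl
      intro i _
      unfold ind
      split_ifs <;> rfl
    have h3 : ∑ p : PP N, (ind (f p.1.1) k * ind (f p.1.2) k + ind (f p.1.2) k * ind (f p.1.1) k) =
        2 * ∑ p : PP N, ind (f p.1.1) k * ind (f p.1.2) k := by
      rw [Finset.mul_sum]
      apply Finset.sum_congr rfl
      intro p _
      ring
    rw [h1, h2, h3] at h
    rw [Nat.choose_two_right]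
    have h4 : fb f k * (fb f k - 1) = fb f k * fb f k - fb f k := by
      rw [Nat.mul_sub, mul_one]
    rw [h4, h]
    omega
  · apply Finset.prod_congr rfl
    intro q _
    rw [Finset.prod_pow_eq_pow_sum]
    congr 1
    have hne : q.1.1 ≠ q.1.2 := ne_of_lt q.2
    have h := sum_pairs (fun i j => ind (f i) q.1.1 * ind (f j) q.1.2)
    have h1 : ∑ i, ∑ j, ind (f i) q.1.1 * ind (f j) q.1.2 = fb f q.1.1 * fb f q.1.2 := by
      rw [fb_ind, fb_ind, Finset.sum_mul_sum]
    have h2 : ∑ i, ind (f i) q.1.1 * ind (f i) q.1.2 = 0 := by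
      apply Finset.sum_eq_zero
      intro i _
      unfold ind
      by_cases hh : f i = q.1.1
      · rw [if_neg (fun h5 => hne (hh.symm.trans h5)), mul_zero]
      · rw [if_neg hh, zero_mul]
    rw [h1, h2, zero_add] at h
    rw [h]
    apply Finset.sum_congr rfl
    intro p _
    ring

open Classical in
lemma mono_eq {n : ℕ} (m : Fin n → ℕ) :
    (∏ k, (MvPolynomial.X k : MvPolynomial (Fin n) ℕ) ^ (m k)) =
      MvPolynomial.monomial (Finsupp.equivFunOnFinite.symm m) 1 := by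
  rw [MvPolynomial.monomial_eq, Finsupp.prod_fintype]
  · rw [MvPolynomial.C_1, one_mul]
    rfl
  · intro i
    rw [pow_zero]

lemma fib_count {N n : ℕ} (m : Fin n → ℕ) (hm : m ∈ (univ : Finset (Fin n)).piAntidiag N) :
    ((univ : Finset (Fin N → Fin n)).filter (fun f => fb f = m)).card = Nat.multinomial univ m := by
  classical
  have h1 := Fintype.sum_pow (fun k : Fin n => (MvPolynomial.X k : MvPolynomial (Fin n) ℕ)) N
  have h2 := Finset.sum_pow_eq_sum_piAntidiag (univ : Finset (Fin n))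
    (fun k : Fin n => (MvPolynomial.X k : MvPolynomial (Fin n) ℕ)) N
  rw [h1] at h2
  have h3 := congrArg (MvPolynomial.coeff (Finsupp.equivFunOnFinite.symm m)) h2
  rw [MvPolynomial.coeff_sum, MvPolynomial.coeff_sum] at h3
  have h4 : ∀ f : Fin N → Fin n, MvPolynomial.coeff (Finsupp.equivFunOnFinite.symm m)
      (∏ i, (MvPolynomial.X (f i) : MvPolynomial (Fin n) ℕ)) = if fb f = m then 1 else 0 := by
    intro f
    have h5 : (∏ i, (MvPolynomial.X (f i) : MvPolynomial (Fin n) ℕ)) =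
        ∏ k, (MvPolynomial.X k : MvPolynomial (Fin n) ℕ) ^ (fb f k) := by
      rw [← Finset.prod_fiberwise (univ : Finset (Fin N)) f
        (fun i => (MvPolynomial.X (f i) : MvPolynomial (Fin n) ℕ))]
      apply Finset.prod_congr rfl
      intro k _
      rw [Finset.prod_congr rfl (fun i hi => by rw [(Finset.mem_filter.mp hi).2]), Finset.prod_const]
      rfl
    rw [h5, mono_eq, MvPolynomial.coeff_monomial]
    simp only [EmbeddingLike.apply_eq_iff_eq]
  have h6 : ∀ m' ∈ (univ : Finset (Fin n)).piAntidiag N,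
      MvPolynomial.coeff (Finsupp.equivFunOnFinite.symm m) ((Nat.multinomial univ m' :
        MvPolynomial (Fin n) ℕ) * ∏ k, (MvPolynomial.X k : MvPolynomial (Fin n) ℕ) ^ (m' k)) =
      if m' = m then Nat.multinomial univ m' else 0 := by
    intro m' _
    rw [mono_eq]
    have h7 : (Nat.multinomial univ m' : MvPolynomial (Fin n) ℕ) =
        MvPolynomial.C (Nat.multinomial univ m') := by
      exact (eq_natCast (MvPolynomial.C : ℕ →+* MvPolynomial (Fin n) ℕ) _).symm
    rw [h7, MvPolynomial.coeff_C_mul, MvPolynomial.coeff_monomial]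
    simp only [EmbeddingLike.apply_eq_iff_eq]
    split_ifs <;> simp
  rw [Finset.sum_congr rfl (fun f _ => h4 f), Finset.sum_congr rfl h6, Finset.sum_ite_eq',
    if_pos hm, ← Finset.card_filter] at h3
  exact h3

theorem fib_sum {N n : ℕ} (G : (Fin n → ℕ) → ℂ) :
    ∑ f : Fin N → Fin n, G (fb f) =
      (Nat.factorial N : ℂ) * ∑ m ∈ (univ : Finset (Fin n)).piAntidiag N,
        G m / ∏ k, ((Nat.factorial (m k) : ℕ) : ℂ) := by
  classical
  have h0 : ∀ f ∈ (univ : Finset (Fin N → Fin n)), fb f ∈ (univ : Finset (Fin n)).piAntidiag N := by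
    intro f _
    rw [Finset.mem_piAntidiag]
    refine ⟨?_, fun _ _ => Finset.mem_univ _⟩
    unfold fb
    rw [← Finset.card_eq_sum_card_fiberwise (f := f) (s := univ) (t := univ)
      (fun _ _ => Finset.mem_univ _), Finset.card_univ, Fintype.card_fin]
  rw [← Finset.sum_fiberwise_of_maps_to h0, Finset.mul_sum]
  apply Finset.sum_congr rfl
  intro m hm
  rw [Finset.sum_congr rfl (fun f hf => by rw [(Finset.mem_filter.mp hf).2]), Finset.sum_const,
    fib_count m hm, nsmul_eq_mul]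
  have h1 := Nat.multinomial_spec univ m
  rw [(Finset.mem_piAntidiag.mp hm).1] at h1
  rw [← h1]
  push_cast
  have h2 : (∏ k, ((Nat.factorial (m k) : ℕ) : ℂ)) ≠ 0 := by
    rw [Finset.prod_ne_zero_iff]
    intro k _
    exact Nat.cast_ne_zero.mpr (Nat.factorial_ne_zero _)
  field_simp

section

/-- The summand. -/
noncomputable def GG (ζ : ℂ) (s : ℕ) (m : Fin (2 * s + 1) → ℕ) : ℂ :=
  (∏ k, (pt ζ k ^ (s + 1)) ^ (m k)) *
    (((∏ k, (pt ζ k + pt ζ k) ^ ((m k).choose 2)) *
      ∏ q : PP (2 * s + 1), (pt ζ q.1.1 + pt ζ q.1.2) ^ (m q.1.1 * m q.1.2)) *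
    ((∏ k, E1 ζ m k ^ (m k - 1)) * (QQ ζ m).det))

theorem main_sum {ζ : ℂ} {s : ℕ} (hζ : IsPrimitiveRoot ζ (2 * s + 1)) :
    (Nat.factorial (2 * s + 1) : ℂ) * ∑ m ∈ (univ : Finset (Fin (2 * s + 1))).piAntidiag (2 * s + 1),
        GG ζ s m / ∏ k, ((Nat.factorial (m k) : ℕ) : ℂ) =
      ((2 * s + 1 : ℕ) : ℂ) ^ (2 * s + 1) * (((2 * s + 1 : ℕ) : ℂ) * (EE (Fin (2 * s + 1)) s 0 : ℂ)) := by
  classical
  rw [← fib_sum, ← count_eq hζ]
  apply Finset.sum_congr rfl
  intro f _
  unfold GG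
  rw [psi_fib hζ f, prod_fb f (fun k => pt ζ k ^ (s + 1)),
    pairs_fib (fun k l => pt ζ k + pt ζ l) (fun k l => add_comm _ _) f]

end

end Pool.Agent.MP_c3d1b0
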