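import Pool.Agent.Lib.MP_c3d1b0_co.V2

set_option autoImplicit false

/-!
# Numbers that are integral at 2
-/

namespace Pool.Agent.MP_c3d1b0

open Finset

/-- Complex numbers that are integral after multiplication with an odd number. -/
def A2 : Subring ℂ where
  carrier := {x | ∃ N : ℕ, Odd N ∧ IsIntegral ℤ ((N : ℂ) * x)}
  zero_mem' := ⟨1, odd_one, by rw [mul_zero]; exact isIntegral_zero⟩
  one_mem' := ⟨1, odd_one, by rw [Nat.cast_one, mul_one]; exact isIntegral_one⟩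
  mul_mem' := by
    rintro x y ⟨N, hN, hx⟩ ⟨M, hM, hy⟩
    refine ⟨N * M, hN.mul hM, ?_⟩
    have h : (((N * M : ℕ) : ℂ)) * (x * y) = ((N : ℂ) * x) * ((M : ℂ) * y) := by push_cast; ring
    rw [h]
    exact hx.mul hy
  add_mem' := by
    rintro x y ⟨N, hN, hx⟩ ⟨M, hM, hy⟩
    refine ⟨N * M, hN.mul hM, ?_⟩
    have h : (((N * M : ℕ) : ℂ)) * (x + y) = (M : ℂ) * ((N : ℂ) * x) + (N : ℂ) * ((M : ℂ) * y) := by
      push_cast; ring
    have hM' : IsIntegral ℤ (M : ℂ) := by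
      have := isIntegral_algebraMap (R := ℤ) (A := ℂ) (x := (M : ℤ))
      simpa using this
    have hN' : IsIntegral ℤ (N : ℂ) := by
      have := isIntegral_algebraMap (R := ℤ) (A := ℂ) (x := (N : ℤ))
      simpa using this
    rw [h]
    exact (hM'.mul hx).add (hN'.mul hy)
  neg_mem' := by
    rintro x ⟨N, hN, hx⟩
    refine ⟨N, hN, ?_⟩
    rw [mul_neg]
    exact hx.neg

lemma A2_int {x : ℂ} (h : IsIntegral ℤ x) : x ∈ A2 := ⟨1, odd_one, by rw [Nat.cast_one, one_mul]; exact h⟩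

lemma A2_nat (N : ℕ) : (N : ℂ) ∈ A2 := natCast_mem A2 N

lemma A2_inv {N : ℕ} (h : Odd N) : ((N : ℂ))⁻¹ ∈ A2 := by
  refine ⟨N, h, ?_⟩
  have h0 : (N : ℂ) ≠ 0 := Nat.cast_ne_zero.mpr (by rintro rfl; exact absurd h (by decide))
  rw [mul_inv_cancel₀ h0]
  exact isIntegral_one

lemma A2_root {x : ℂ} {n : ℕ} (hn : 0 < n) (h : x ^ n = 1) : x ∈ A2 := by
  apply A2_int
  apply IsIntegral.of_pow hn
  rw [h]
  exact isIntegral_one

lemma root_aux {x y : ℂ} {s : ℕ} (hx : x ^ (2 * s + 1) = 1) (hy : y ^ (2 * s + 1) = 1) (hxy : x ≠ y) :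
    (y * x ^ (2 * s)) ^ (2 * s + 1) = 1 ∧ y * x ^ (2 * s) ≠ 1 ∧ x * (y * x ^ (2 * s)) = y := by
  refine ⟨?_, ?_, ?_⟩
  · rw [mul_pow, hy, one_mul, ← pow_mul, mul_comm (2 * s), pow_mul, hx, one_pow]
  · intro h
    apply hxy
    have h1 : y * x ^ (2 * s) * x = x := by rw [h, one_mul]
    rw [mul_assoc, ← pow_succ, hx, mul_one] at h1
    exact h1.symm
  · have h1 : x * (y * x ^ (2 * s)) = y * x ^ (2 * s + 1) := by rw [pow_succ]; ring
    rw [h1, hx, mul_one]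

lemma A2_inv_add {x y : ℂ} {s : ℕ} (hx : x ^ (2 * s + 1) = 1) (hy : y ^ (2 * s + 1) = 1) (hxy : x ≠ y) :
    (x + y)⁻¹ ∈ A2 := by
  obtain ⟨h1, h2, h3⟩ := root_aux hx hy hxy
  set ω := y * x ^ (2 * s) with hω
  have hxA : x ∈ A2 := A2_root (by omega) hx
  have hyA : y ∈ A2 := A2_root (by omega) hy
  have hωA : ω ∈ A2 := A2_root (by omega) h1
  have h4 : (1 + ω) * ∑ j ∈ range (s + 1), (ω ^ 2) ^ j = 1 := by
    have h5 := mul_geom_sum (ω ^ 2) (s + 1)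
    have h6 : (ω ^ 2) ^ (s + 1) = ω := by
      rw [← pow_mul]
      have : 2 * (s + 1) = (2 * s + 1) + 1 := by ring
      rw [this, pow_succ, h1, one_mul]
    rw [h6] at h5
    have h7 : (ω - 1) * ((1 + ω) * ∑ j ∈ range (s + 1), (ω ^ 2) ^ j) = (ω - 1) * 1 := by
      linear_combination h5
    exact mul_left_cancel₀ (sub_ne_zero.mpr h2) h7
  have h8 : (x + y) * (x ^ (2 * s) * ∑ j ∈ range (s + 1), (ω ^ 2) ^ j) = 1 := by
    have h9 : x + y = x * (1 + ω) := by rw [mul_add, mul_one, h3]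
    rw [h9]
    calc x * (1 + ω) * (x ^ (2 * s) * ∑ j ∈ range (s + 1), (ω ^ 2) ^ j) =
        x ^ (2 * s + 1) * ((1 + ω) * ∑ j ∈ range (s + 1), (ω ^ 2) ^ j) := by rw [pow_succ]; ring
      _ = 1 := by rw [hx, h4, one_mul]
  rw [inv_eq_of_mul_eq_one_right h8]
  exact A2.mul_mem (A2.pow_mem hxA _) (A2.sum_mem (fun j _ => A2.pow_mem (A2.pow_mem hωA _) _))

lemma A2_inv_sub {x y : ℂ} {s : ℕ} (hx : x ^ (2 * s + 1) = 1) (hy : y ^ (2 * s + 1) = 1) (hxy : x ≠ y) :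
    (x - y)⁻¹ ∈ A2 := by
  obtain ⟨h1, h2, h3⟩ := root_aux hx hy hxy
  set ω := y * x ^ (2 * s) with hω
  have hxA : x ∈ A2 := A2_root (by omega) hx
  have hωA : ω ∈ A2 := A2_root (by omega) h1
  have h4 : ∀ N : ℕ, (1 - ω) * ∑ j ∈ range N, (j : ℂ) * ω ^ j =
      ω * ∑ j ∈ range N, ω ^ j - (N : ℂ) * ω ^ N := by
    intro N
    induction N with
    | zero => simp
    | succ N ih =>
      rw [Finset.sum_range_succ, Finset.sum_range_succ, mul_add, ih, pow_succ]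
      push_cast
      ring
  have h5 : ∑ j ∈ range (2 * s + 1), ω ^ j = 0 := by
    have h6 := mul_geom_sum ω (2 * s + 1)
    rw [h1, sub_self] at h6
    rcases mul_eq_zero.mp h6 with h7 | h7
    · exact absurd (sub_eq_zero.mp h7) h2
    · exact h7
  have h6 := h4 (2 * s + 1)
  rw [h5, mul_zero, h1, mul_one, zero_sub] at h6
  have hn0 : (((2 * s + 1 : ℕ)) : ℂ) ≠ 0 := Nat.cast_ne_zero.mpr (by omega)
  have h8 : (x - y) * (x ^ (2 * s) * ((((2 * s + 1 : ℕ)) : ℂ)⁻¹ *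
      (-∑ j ∈ range (2 * s + 1), (j : ℂ) * ω ^ j))) = 1 := by
    have h9 : x - y = x * (1 - ω) := by rw [mul_sub, mul_one, h3]
    rw [h9]
    calc x * (1 - ω) * (x ^ (2 * s) * ((((2 * s + 1 : ℕ)) : ℂ)⁻¹ *
        (-∑ j ∈ range (2 * s + 1), (j : ℂ) * ω ^ j))) =
        x ^ (2 * s + 1) * ((((2 * s + 1 : ℕ)) : ℂ)⁻¹ * (-((1 - ω) * ∑ j ∈ range (2 * s + 1), (j : ℂ) * ω ^ j))) := by
          rw [pow_succ]; ring
      _ = 1 := by rw [hx, h6, one_mul, neg_neg, inv_mul_cancel₀ hn0]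
  rw [inv_eq_of_mul_eq_one_right h8]
  refine A2.mul_mem (A2.pow_mem hxA _) (A2.mul_mem (A2_inv ⟨s, rfl⟩) (A2.neg_mem
    (A2.sum_mem (fun j _ => A2.mul_mem (A2_nat j) (A2.pow_mem hωA _)))))

/-- Congruence modulo 2. -/
def Cg (x y : ℂ) : Prop := x ∈ A2 ∧ y ∈ A2 ∧ ∃ z ∈ A2, x - y = 2 * z

lemma Cg.refl {x : ℂ} (h : x ∈ A2) : Cg x x := ⟨h, h, 0, A2.zero_mem, by ring⟩

lemma Cg.symm {x y : ℂ} (h : Cg x y) : Cg y x := by
  obtain ⟨hx, hy, z, hz, h⟩ := h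
  exact ⟨hy, hx, -z, A2.neg_mem hz, by linear_combination -h⟩

lemma Cg.trans {x y w : ℂ} (h : Cg x y) (h' : Cg y w) : Cg x w := by
  obtain ⟨hx, hy, z, hz, h⟩ := h
  obtain ⟨_, hw, z', hz', h'⟩ := h'
  exact ⟨hx, hw, z + z', A2.add_mem hz hz', by linear_combination h + h'⟩

lemma Cg.add {x y x' y' : ℂ} (h : Cg x y) (h' : Cg x' y') : Cg (x + x') (y + y') := by
  obtain ⟨hx, hy, z, hz, h⟩ := h
  obtain ⟨hx', hy', z', hz', h'⟩ := h'
  exact ⟨A2.add_mem hx hx', A2.add_mem hy hy', z + z', A2.add_mem hz hz', by linear_combination h + h'⟩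

lemma Cg.neg {x y : ℂ} (h : Cg x y) : Cg (-x) (-y) := by
  obtain ⟨hx, hy, z, hz, h⟩ := h
  exact ⟨A2.neg_mem hx, A2.neg_mem hy, -z, A2.neg_mem hz, by linear_combination -h⟩

lemma Cg.sub {x y x' y' : ℂ} (h : Cg x y) (h' : Cg x' y') : Cg (x - x') (y - y') := by
  rw [sub_eq_add_neg, sub_eq_add_neg]
  exact h.add h'.neg

lemma Cg.mul {x y x' y' : ℂ} (h : Cg x y) (h' : Cg x' y') : Cg (x * x') (y * y') := by
  obtain ⟨hx, hy, z, hz, h⟩ := h
  obtain ⟨hx', hy', z', hz', h'⟩ := h'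
  exact ⟨A2.mul_mem hx hx', A2.mul_mem hy hy', x * z' + z * y',
    A2.add_mem (A2.mul_mem hx hz') (A2.mul_mem hz hy'), by linear_combination x * h' + y' * h⟩

lemma Cg.pow {x y : ℂ} (h : Cg x y) (k : ℕ) : Cg (x ^ k) (y ^ k) := by
  induction k with
  | zero => rw [pow_zero, pow_zero]; exact Cg.refl A2.one_mem
  | succ k ih => rw [pow_succ, pow_succ]; exact ih.mul h

lemma Cg.sum {ι : Type} {t : Finset ι} {f g : ι → ℂ} (h : ∀ i ∈ t, Cg (f i) (g i)) :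
    Cg (∑ i ∈ t, f i) (∑ i ∈ t, g i) := by
  classical
  induction t using Finset.induction_on with
  | empty => rw [Finset.sum_empty, Finset.sum_empty]; exact Cg.refl A2.zero_mem
  | insert a t ha ih =>
    rw [Finset.sum_insert ha, Finset.sum_insert ha]
    exact (h a (Finset.mem_insert_self _ _)).add (ih (fun i hi => h i (Finset.mem_insert_of_mem hi)))

lemma Cg.prod {ι : Type} {t : Finset ι} {f g : ι → ℂ} (h : ∀ i ∈ t, Cg (f i) (g i)) :
    Cg (∏ i ∈ t, f i) (∏ i ∈ t, g i) := by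
  classical
  induction t using Finset.induction_on with
  | empty => rw [Finset.prod_empty, Finset.prod_empty]; exact Cg.refl A2.one_mem
  | insert a t ha ih =>
    rw [Finset.prod_insert ha, Finset.prod_insert ha]
    exact (h a (Finset.mem_insert_self _ _)).mul (ih (fun i hi => h i (Finset.mem_insert_of_mem hi)))

lemma Cg.of_two {x y z : ℂ} (hx : x ∈ A2) (hz : z ∈ A2) (h : x - y = 2 * z) : Cg x y := by
  refine ⟨hx, ?_, z, hz, h⟩
  have : y = x - 2 * z := by linear_combination -h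
  rw [this]
  exact A2.sub_mem hx (A2.mul_mem (A2_nat 2) hz)

lemma Cg.two_zero {z : ℂ} (hz : z ∈ A2) : Cg (2 * z) 0 :=
  ⟨A2.mul_mem (A2_nat 2) hz, A2.zero_mem, z, hz, by ring⟩

lemma Cg.even {N : ℕ} (h : Even N) : Cg (N : ℂ) 0 := by
  obtain ⟨k, rfl⟩ := h
  refine ⟨A2_nat _, A2.zero_mem, (k : ℂ), A2_nat k, ?_⟩
  push_cast; ring

lemma Cg.odd {N : ℕ} (h : Odd N) : Cg (N : ℂ) 1 := by
  obtain ⟨k, rfl⟩ := h
  refine ⟨A2_nat _, A2.one_mem, (k : ℂ), A2_nat k, ?_⟩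
  push_cast; ring

lemma Cg.odd_inv {N : ℕ} (h : Odd N) : Cg ((N : ℂ)⁻¹) 1 := by
  have h1 := (Cg.odd h).mul (Cg.refl (A2_inv h))
  have h0 : (N : ℂ) ≠ 0 := Nat.cast_ne_zero.mpr (by rintro rfl; exact absurd h (by decide))
  rw [mul_inv_cancel₀ h0, one_mul] at h1
  exact h1.symm

lemma Cg.neg_self {x : ℂ} (h : x ∈ A2) : Cg (-x) x :=
  ⟨A2.neg_mem h, h, -x, A2.neg_mem h, by ring⟩

/-- Cancellation of units. -/
lemma Cg.cancel {x u : ℂ} (hx : x ∈ A2) (hu : u⁻¹ ∈ A2) (hu0 : u ≠ 0) (h : Cg (x * u) 0) : Cg x 0 := by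
  have h1 := h.mul (Cg.refl hu)
  rw [mul_assoc, mul_inv_cancel₀ hu0, mul_one, zero_mul] at h1
  exact h1

lemma sign_mem {K : Type} [Fintype K] [DecidableEq K] (σ : Equiv.Perm K) :
    (((Equiv.Perm.sign σ : ℤˣ) : ℤ) : ℂ) ∈ A2 := intCast_mem A2 _

lemma Cg.det {K : Type} [Fintype K] [DecidableEq K] {M M' : Matrix K K ℂ}
    (h : ∀ i j, Cg (M i j) (M' i j)) : Cg M.det M'.det := by
  rw [Matrix.det_apply', Matrix.det_apply']
  exact Cg.sum (fun σ _ => (Cg.refl (sign_mem σ)).mul (Cg.prod (fun i _ => h _ _)))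

lemma A2_det {K : Type} [Fintype K] [DecidableEq K] {M : Matrix K K ℂ}
    (h : ∀ i j, M i j ∈ A2) : M.det ∈ A2 := (Cg.det (M := M) (M' := M) (fun i j => Cg.refl (h i j))).1

/-- The 2-adic valuation of a quotient that is congruent to 1. -/
theorem val_of_cg {A B : ℕ} (hB : B ≠ 0) {z : ℂ} (h : (A : ℂ) = B * z) (hz : Cg z 1) :
    padicValNat 2 A = padicValNat 2 B := by
  obtain ⟨_, _, w, ⟨N, hN, hw⟩, hzw⟩ := hz
  have hB0 : (B : ℂ) ≠ 0 := Nat.cast_ne_zero.mpr hB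
  -- N w is a rational number
  set q : ℚ := (N : ℚ) * ((A : ℚ) - B) / (2 * B) with hq
  have h1 : (algebraMap ℚ ℂ) q = (N : ℂ) * w := by
    have h2 : w = ((A : ℂ) - B) / (2 * B) := by
      rw [h]
      field_simp
      linear_combination -hzw
    rw [h2, hq]
    simp
    ring
  rw [← h1, isIntegral_algebraMap_iff (algebraMap ℚ ℂ).injective, IsIntegrallyClosed.isIntegral_iff] at hw
  obtain ⟨t, ht⟩ := hw
  have ht' : (t : ℚ) = (N : ℚ) * ((A : ℚ) - B) / (2 * B) := by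
    rw [← hq, ← ht]; simp
  have hB1 : (B : ℚ) ≠ 0 := Nat.cast_ne_zero.mpr hB
  have h3 : (t : ℚ) * (2 * B) = (N : ℚ) * ((A : ℚ) - B) := by
    rw [ht']
    field_simp
  have h4 : t * (2 * B) = (N : ℤ) * ((A : ℤ) - B) := by exact_mod_cast h3
  obtain ⟨e, b, hb, hBe⟩ := Nat.exists_eq_two_pow_mul_odd hB
  have h5 : (2 : ℤ) ^ (e + 1) ∣ (A : ℤ) - B := by
    have h6 : (2 : ℤ) ^ (e + 1) ∣ (N : ℤ) * ((A : ℤ) - B) := by
      rw [← h4, hBe]
      push_cast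
      exact ⟨t * b, by ring⟩
    have h7 : IsCoprime ((2 : ℤ) ^ (e + 1)) (N : ℤ) := by
      apply IsCoprime.pow_left
      have h8 : Nat.Coprime 2 N := (Nat.coprime_two_left).mpr hN
      exact Nat.isCoprime_iff_coprime.mpr h8
    exact h7.dvd_of_dvd_mul_left h6
  obtain ⟨c, hc⟩ := h5
  have h6 : (A : ℤ) = 2 ^ e * (b + 2 * c) := by
    have : (A : ℤ) = B + 2 ^ (e + 1) * c := by linarith
    rw [this, hBe]
    push_cast
    ring
  have h7 : (0 : ℤ) ≤ b + 2 * c := by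
    by_contra h8
    push Not at h8
    have h9 : (A : ℤ) < 0 := by
      rw [h6]
      exact mul_neg_of_pos_of_neg (by positivity) h8
    omega
  obtain ⟨d, hd⟩ := Int.eq_ofNat_of_zero_le h7
  have h8 : A = 2 ^ e * d := by
    rw [hd] at h6
    exact_mod_cast h6
  have hdo : Odd d := by
    have : Odd (d : ℤ) := by
      rw [← hd]
      obtain ⟨b', hb'⟩ := hb
      exact ⟨b' + c, by rw [hb']; push_cast; ring⟩
    exact_mod_cast this
  have hd0 : d ≠ 0 := by rintro rfl; exact absurd hdo (by decide)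
  have hb0 : b ≠ 0 := by rintro rfl; exact absurd hb (by decide)
  haveI : Fact (Nat.Prime 2) := ⟨Nat.prime_two⟩
  have h9 : ∀ x : ℕ, Odd x → padicValNat 2 x = 0 := by
    intro x hx
    apply padicValNat.eq_zero_of_not_dvd
    rw [← even_iff_two_dvd, Nat.not_even_iff_odd]
    exact hx
  rw [h8, hBe, padicValNat.mul (by positivity) hd0, padicValNat.mul (by positivity) hb0, h9 d hdo, h9 b hb]

end Pool.Agent.MP_c3d1b0
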