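import Pool.Agent.Lib.MP_c3d1b0_co.V4
import Pool.Agent.Lib.MP_c3d1b0_co.V5

set_option autoImplicit false

/-!
# The small determinant modulo 2
-/

namespace Pool.Agent.MP_c3d1b0

open Finset Matrix

lemma mv_apply {K L : Type} [Fintype L] (M : Matrix K L ℂ) (v : L → ℂ) (k : K) :
    (M *ᵥ v) k = ∑ j, M k j * v j := rfl

section loc

variable {ζ : ℂ} {s : ℕ}

lemma pt_mem (hζ : IsPrimitiveRoot ζ (2 * s + 1)) (k : Fin (2 * s + 1)) : pt ζ k ∈ A2 :=
  A2_root (by omega) (pt_pow hζ k)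

lemma pt_add_inv (hζ : IsPrimitiveRoot ζ (2 * s + 1)) {k l : Fin (2 * s + 1)} (h : k ≠ l) :
    (pt ζ k + pt ζ l)⁻¹ ∈ A2 :=
  A2_inv_add (pt_pow hζ k) (pt_pow hζ l) (fun h' => h (pt_inj hζ h'))

lemma pt_sub_inv (hζ : IsPrimitiveRoot ζ (2 * s + 1)) {k l : Fin (2 * s + 1)} (h : k ≠ l) :
    (pt ζ k - pt ζ l)⁻¹ ∈ A2 :=
  A2_inv_sub (pt_pow hζ k) (pt_pow hζ l) (fun h' => h (pt_inj hζ h'))

lemma cc_mem (hζ : IsPrimitiveRoot ζ (2 * s + 1)) {k l : Fin (2 * s + 1)} (h : k ≠ l) :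
    cc ζ k l ∈ A2 := by
  unfold cc
  rw [div_eq_mul_inv]
  exact A2.mul_mem (pt_mem hζ k) (pt_add_inv hζ h)

lemma cc_self (hζ : IsPrimitiveRoot ζ (2 * s + 1)) (k : Fin (2 * s + 1)) : cc ζ k k = 1 / 2 := by
  unfold cc
  have := pt_ne_zero hζ k
  field_simp
  norm_num

lemma ninv_mem (s : ℕ) : (1 : ℂ) / ((2 * s + 1 : ℕ) : ℂ) ∈ A2 := by
  rw [one_div]
  exact A2_inv ⟨s, rfl⟩

lemma ninv_cg (s : ℕ) : Cg ((1 : ℂ) / ((2 * s + 1 : ℕ) : ℂ)) 1 := by
  rw [one_div]
  exact Cg.odd_inv ⟨s, rfl⟩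

/-- Off diagonal row sums. -/
noncomputable def uu (ζ : ℂ) {n : ℕ} (m : Fin n → ℕ) (k : Fin n) : ℂ :=
  ∑ l ∈ univ.erase k, (m l : ℂ) * cc ζ k l

/-- Off diagonal row sums over the odd fibres. -/
noncomputable def vv (ζ : ℂ) {n : ℕ} (m : Fin n → ℕ) (k : Fin n) : ℂ :=
  ∑ l ∈ univ.erase k, if Odd (m l) then cc ζ k l else 0

lemma uu_mem (hζ : IsPrimitiveRoot ζ (2 * s + 1)) (m : Fin (2 * s + 1) → ℕ) (k : Fin (2 * s + 1)) :
    uu ζ m k ∈ A2 :=
  A2.sum_mem (fun l hl => A2.mul_mem (A2_nat _) (cc_mem hζ (Finset.ne_of_mem_erase hl).symm))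

lemma DD_eq (hζ : IsPrimitiveRoot ζ (2 * s + 1)) (m : Fin (2 * s + 1) → ℕ) (k : Fin (2 * s + 1)) :
    DD ζ m k = (m k : ℂ) / 2 + uu ζ m k := by
  unfold DD uu
  rw [← Finset.add_sum_erase _ _ (Finset.mem_univ k), cc_self hζ]
  ring

lemma uu_cg (hζ : IsPrimitiveRoot ζ (2 * s + 1)) (m : Fin (2 * s + 1) → ℕ) (k : Fin (2 * s + 1)) :
    Cg (uu ζ m k) (vv ζ m k) := by
  unfold uu vv
  apply Cg.sum
  intro l hl
  have hc := cc_mem hζ (Finset.ne_of_mem_erase hl).symm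
  by_cases h : Odd (m l)
  · rw [if_pos h]
    have h1 := (Cg.odd h).mul (Cg.refl hc)
    rwa [one_mul] at h1
  · rw [if_neg h]
    have h1 := (Cg.even (Nat.not_odd_iff_even.mp h)).mul (Cg.refl hc)
    rwa [zero_mul] at h1

/-- The small matrix modulo 2. -/
noncomputable def RR (ζ : ℂ) {n : ℕ} (m : Fin n → ℕ) : Matrix (Fin n) (Fin n) ℂ :=
  Matrix.of (fun k l => if Odd (m k) then (if k = l then vv ζ m k + 1 else cc ζ k l + 1)
    else (if k = l then (if m k = 0 then 1 else uu ζ m k) else 0))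

lemma QQ_cg (hζ : IsPrimitiveRoot ζ (2 * s + 1)) (m : Fin (2 * s + 1) → ℕ) (k l : Fin (2 * s + 1)) :
    Cg (QQ ζ m k l) (RR ζ m k l) := by
  unfold QQ RR
  simp only [Matrix.of_apply]
  by_cases hkl : k = l
  · subst hkl
    rw [if_pos rfl, if_pos rfl, if_pos rfl, cc_self hζ]
    unfold E1
    by_cases h0 : m k = 0
    · rw [if_pos h0, if_pos h0, h0, if_neg (by decide)]
      rw [Nat.cast_zero, zero_mul, sub_zero]
      exact Cg.refl A2.one_mem
    · rw [if_neg h0, if_neg h0, DD_eq hζ]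
      have h1 : (m k : ℂ) / 2 + uu ζ m k - (m k : ℂ) * (1 / 2 - 1 / ((2 * s + 1 : ℕ) : ℂ)) =
          uu ζ m k + (m k : ℂ) * (1 / ((2 * s + 1 : ℕ) : ℂ)) := by ring
      rw [h1]
      by_cases ho : Odd (m k)
      · rw [if_pos ho]
        have h2 := (uu_cg hζ m k).add ((Cg.odd ho).mul (ninv_cg s))
        rwa [one_mul] at h2
      · rw [if_neg ho]
        have h2 := (Cg.refl (uu_mem hζ m k)).add
          ((Cg.even (Nat.not_odd_iff_even.mp ho)).mul (ninv_cg s))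
        rwa [zero_mul, add_zero] at h2
  · rw [if_neg hkl, if_neg hkl, if_neg hkl, zero_sub]
    have hc := cc_mem hζ hkl
    have h1 : Cg (cc ζ k l - 1 / ((2 * s + 1 : ℕ) : ℂ)) (cc ζ k l + 1) := by
      rw [sub_eq_add_neg]
      exact (Cg.refl hc).add ((Cg.neg_self (ninv_mem s)).trans (ninv_cg s))
    by_cases ho : Odd (m k)
    · rw [if_pos ho]
      have h2 := ((Cg.odd ho).mul h1)
      rw [one_mul] at h2
      exact (Cg.neg_self h2.1).trans h2
    · rw [if_neg ho]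
      have h2 := (Cg.even (Nat.not_odd_iff_even.mp ho)).mul h1
      rw [zero_mul] at h2
      exact (Cg.neg_self h2.1).trans h2

/-- The block of the odd fibres. -/
noncomputable def BB (ζ : ℂ) {n : ℕ} (m : Fin n → ℕ) : Matrix {k : Fin n // Odd (m k)} {k : Fin n // Odd (m k)} ℂ :=
  Matrix.of (fun k l => if k = l then vv ζ m k.1 + 1 else cc ζ k.1 l.1 + 1)

lemma RR_det (ζ : ℂ) {n : ℕ} (m : Fin n → ℕ) : (RR ζ m).det =
    (BB ζ m).det * ∏ k ∈ univ.filter (fun k => ¬ Odd (m k)), (if m k = 0 then 1 else uu ζ m k) := by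
  have h1 := Matrix.twoBlockTriangular_det (RR ζ m) (fun k => Odd (m k)) (by
    intro i hi j hj
    unfold RR
    rw [Matrix.of_apply, if_neg hi, if_neg]
    rintro rfl
    exact hi hj)
  rw [h1]
  congr 1
  · congr 1
    ext k l
    rw [Matrix.toSquareBlockProp_def, Matrix.of_apply]
    unfold RR BB
    rw [Matrix.of_apply, Matrix.of_apply, if_pos k.2]
    by_cases hkl : k = l
    · rw [if_pos hkl, if_pos (congrArg Subtype.val hkl)]
    · rw [if_neg hkl, if_neg (fun h => hkl (Subtype.ext h))]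
  · have h2 : ((RR ζ m).toSquareBlockProp fun i => ¬ Odd (m i)) =
        Matrix.diagonal (fun k : {k // ¬ Odd (m k)} => if m k.1 = 0 then 1 else uu ζ m k.1) := by
      ext k l
      rw [Matrix.toSquareBlockProp_def, Matrix.of_apply]
      unfold RR
      rw [Matrix.of_apply, if_neg k.2]
      by_cases hkl : k = l
      · subst hkl
        rw [if_pos rfl, Matrix.diagonal_apply_eq]
      · rw [if_neg (fun h => hkl (Subtype.ext h)), Matrix.diagonal_apply_ne _ hkl]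
    rw [h2, Matrix.det_diagonal]
    symm
    exact Finset.prod_subtype _ (by intro x; simp) _

lemma vv_sub (ζ : ℂ) {n : ℕ} (m : Fin n → ℕ) (k : {k : Fin n // Odd (m k)}) :
    vv ζ m k.1 = ∑ l ∈ univ.erase k, cc ζ k.1 l.1 := by
  unfold vv
  rw [← Finset.sum_filter]
  symm
  refine Finset.sum_bij' (fun l _ => l.1) (fun l hl => ⟨l, (Finset.mem_filter.mp hl).2⟩) ?_ ?_ ?_ ?_ ?_
  · intro l hl
    rw [Finset.mem_filter, Finset.mem_erase]
    exact ⟨⟨fun h => Finset.ne_of_mem_erase hl (Subtype.ext h), Finset.mem_univ _⟩, l.2⟩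
  · intro l hl
    rw [Finset.mem_erase]
    refine ⟨fun h => ?_, Finset.mem_univ _⟩
    exact Finset.ne_of_mem_erase (Finset.mem_filter.mp hl).1 (congrArg Subtype.val h)
  · intro l _; rfl
  · intro l _; rfl
  · intro l _; rfl

lemma BB_one (ζ : ℂ) {n : ℕ} (m : Fin n → ℕ) (h : Fintype.card {k : Fin n // Odd (m k)} = 1) :
    (BB ζ m).det = 1 := by
  obtain ⟨k, hk⟩ := Fintype.card_eq_one_iff.mp h
  have : Subsingleton {k : Fin n // Odd (m k)} := ⟨fun a b => (hk a).trans (hk b).symm⟩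
  rw [Matrix.det_eq_elem_of_subsingleton _ k]
  unfold BB
  rw [Matrix.of_apply, if_pos rfl, vv_sub, Finset.sum_eq_zero, zero_add]
  intro l hl
  exact absurd (hk l) (Finset.ne_of_mem_erase hl)

lemma BB_mem (hζ : IsPrimitiveRoot ζ (2 * s + 1)) (m : Fin (2 * s + 1) → ℕ)
    (k l : {k : Fin (2 * s + 1) // Odd (m k)}) : BB ζ m k l ∈ A2 := by
  unfold BB
  rw [Matrix.of_apply]
  by_cases h : k = l
  · rw [if_pos h]
    exact A2.add_mem (uu_cg hζ m k.1).2.1 A2.one_mem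
  · rw [if_neg h]
    exact A2.add_mem (cc_mem hζ (fun h' => h (Subtype.ext h'))) A2.one_mem

lemma BB_zero (hζ : IsPrimitiveRoot ζ (2 * s + 1)) (m : Fin (2 * s + 1) → ℕ)
    (h : 1 < Fintype.card {k : Fin (2 * s + 1) // Odd (m k)})
    (ho : Odd (Fintype.card {k : Fin (2 * s + 1) // Odd (m k)})) :
    Cg (BB ζ m).det 0 := by
  set P := {k : Fin (2 * s + 1) // Odd (m k)} with hP
  set S : ℂ := ∑ l : P, pt ζ l.1 with hS
  have hSm : S ∈ A2 := A2.sum_mem (fun l _ => pt_mem hζ _)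
  obtain ⟨c, hc⟩ := ho
  -- the null vector
  have hnull : ∀ k : P, ∃ w ∈ A2, (BB ζ m *ᵥ (fun l : P => pt ζ l.1 + S)) k = 2 * w := by
    intro k
    refine ⟨(c : ℂ) * pt ζ k.1 + S * vv ζ m k.1 + ((c : ℂ) + 1) * S, ?_, ?_⟩
    · refine A2.add_mem (A2.add_mem (A2.mul_mem (A2_nat c) (pt_mem hζ _)) (A2.mul_mem hSm
        (uu_cg hζ m k.1).2.1)) (A2.mul_mem (A2.add_mem (A2_nat c) A2.one_mem) hSm)
    · rw [mv_apply, ← Finset.add_sum_erase _ _ (Finset.mem_univ k)]
      have h1 : BB ζ m k k = vv ζ m k.1 + 1 := by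
        unfold BB; rw [Matrix.of_apply, if_pos rfl]
      have h2 : ∀ l ∈ (univ : Finset P).erase k, BB ζ m k l * (pt ζ l.1 + S) =
          (pt ζ k.1 - cc ζ k.1 l.1 * pt ζ k.1) + cc ζ k.1 l.1 * S + (pt ζ l.1 + S) := by
        intro l hl
        have hne : k ≠ l := (Finset.ne_of_mem_erase hl).symm
        have h3 : cc ζ k.1 l.1 * (pt ζ k.1 + pt ζ l.1) = pt ζ k.1 := by
          unfold cc
          exact div_mul_cancel₀ _ (pt_add_ne hζ _ _)
        unfold BB
        rw [Matrix.of_apply, if_neg hne]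
        linear_combination h3
      rw [h1, Finset.sum_congr rfl h2, Finset.sum_add_distrib, Finset.sum_add_distrib,
        Finset.sum_sub_distrib, ← Finset.sum_mul, ← Finset.sum_mul, ← vv_sub]
      have h4 : ∑ l ∈ (univ : Finset P).erase k, (pt ζ l.1 + S) =
          ((Fintype.card P : ℂ) + 1) * S - (pt ζ k.1 + S) := by
        have h5 : ∑ l : P, (pt ζ l.1 + S) = ((Fintype.card P : ℂ) + 1) * S := by
          rw [Finset.sum_add_distrib, Finset.sum_const, Finset.card_univ, nsmul_eq_mul, ← hS]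
          ring
        rw [← h5, ← Finset.add_sum_erase _ _ (Finset.mem_univ k)]
        ring
      have h6 : ∑ l ∈ (univ : Finset P).erase k, pt ζ k.1 = (2 * c : ℂ) * pt ζ k.1 := by
        rw [Finset.sum_const, Finset.card_erase_of_mem (Finset.mem_univ _), Finset.card_univ, hc,
          nsmul_eq_mul]
        push_cast
        simp
      rw [h4, h6, hc]
      push_cast
      ring
  have hdet : ∀ k : P, ∃ w ∈ A2, (BB ζ m).det * (pt ζ k.1 + S) = 2 * w := by
    intro k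
    choose w hw1 hw2 using hnull
    refine ⟨∑ j, (BB ζ m).adjugate k j * w j, ?_, ?_⟩
    · refine A2.sum_mem (fun j _ => A2.mul_mem ?_ (hw1 j))
      rw [Matrix.adjugate_apply]
      apply A2_det
      intro a b
      by_cases ha : a = j
      · subst ha
        rw [Matrix.updateRow_self, Pi.single_apply]
        split_ifs
        · exact A2.one_mem
        · exact A2.zero_mem
      · rw [Matrix.updateRow_ne ha]
        exact BB_mem hζ m a b
    · have h1 : (BB ζ m).adjugate *ᵥ (BB ζ m *ᵥ (fun l : P => pt ζ l.1 + S)) =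
          (BB ζ m).det • (fun l : P => pt ζ l.1 + S) := by
        rw [Matrix.mulVec_mulVec, Matrix.adjugate_mul, Matrix.smul_mulVec, Matrix.one_mulVec]
      have h2 := congrFun h1 k
      rw [Pi.smul_apply, smul_eq_mul] at h2
      rw [← h2, mv_apply, Finset.mul_sum]
      apply Finset.sum_congr rfl
      intro j _
      rw [hw2 j]
      ring
  obtain ⟨k, l, hkl⟩ := Fintype.one_lt_card_iff.mp h
  obtain ⟨w, hw, hwe⟩ := hdet k
  obtain ⟨w', hw', hwe'⟩ := hdet l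
  have hne : k.1 ≠ l.1 := fun h' => hkl (Subtype.ext h')
  apply Cg.cancel (A2_det (BB_mem hζ m)) (pt_sub_inv hζ hne)
    (sub_ne_zero.mpr (fun h' => hne (pt_inj hζ h')))
  have h3 : (BB ζ m).det * (pt ζ k.1 - pt ζ l.1) = 2 * (w - w') := by
    linear_combination hwe - hwe'
  rw [h3]
  exact Cg.two_zero (A2.sub_mem hw hw')

end loc

end Pool.Agent.MP_c3d1b0
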