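import Pool.Agent.Lib.MP_c3d1b0_co.V6

set_option autoImplicit false

/-!
# The summands modulo 2
-/

namespace Pool.Agent.MP_c3d1b0

open Finset Matrix

section loc

variable {ζ : ℂ} {s : ℕ}

/-- The local factor. -/
noncomputable def hh (ζ : ℂ) {n : ℕ} (m : Fin n → ℕ) (k : Fin n) : ℂ :=
  (pt ζ k + pt ζ k) ^ ((m k).choose 2) * E1 ζ m k ^ (m k - 1) / ((Nat.factorial (m k) : ℕ) : ℂ)

lemma GG_eq (ζ : ℂ) (s : ℕ) (m : Fin (2 * s + 1) → ℕ) :
    GG ζ s m / ∏ k, ((Nat.factorial (m k) : ℕ) : ℂ) =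
      (∏ k, (pt ζ k ^ (s + 1)) ^ (m k)) *
        (∏ q : PP (2 * s + 1), (pt ζ q.1.1 + pt ζ q.1.2) ^ (m q.1.1 * m q.1.2)) *
        (∏ k, hh ζ m k) * (QQ ζ m).det := by
  unfold GG hh
  rw [Finset.prod_div_distrib, Finset.prod_mul_distrib]
  ring

lemma hh_01 (ζ : ℂ) {n : ℕ} (m : Fin n → ℕ) (k : Fin n) (h : m k ≤ 1) : hh ζ m k = 1 := by
  unfold hh
  rcases Nat.le_one_iff_eq_zero_or_eq_one.mp h with h1 | h1 <;> rw [h1] <;> simp

lemma hh_2 (hζ : IsPrimitiveRoot ζ (2 * s + 1)) (m : Fin (2 * s + 1) → ℕ) (k : Fin (2 * s + 1))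
    (h : m k = 2) : hh ζ m k = pt ζ k * (1 + uu ζ m k) := by
  unfold hh E1
  rw [DD_eq hζ, h, if_neg (by decide)]
  have h1 : Nat.choose 2 2 = 1 := rfl
  have h2 : Nat.factorial 2 = 2 := rfl
  rw [h1, h2]
  push_cast
  ring

lemma hh_3 (hζ : IsPrimitiveRoot ζ (2 * s + 1)) (m : Fin (2 * s + 1) → ℕ) (k : Fin (2 * s + 1))
    (h : m k = 3) : Cg (hh ζ m k) (pt ζ k ^ 3) := by
  have h0 : hh ζ m k = (pt ζ k) ^ 3 * ((((3 : ℕ) : ℂ)⁻¹) * (3 + 2 * uu ζ m k) ^ 2) := by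
    unfold hh E1
    rw [DD_eq hζ, h, if_neg (by decide)]
    have h1 : Nat.choose 3 2 = 3 := rfl
    have h2 : Nat.factorial 3 = 6 := rfl
    rw [h1, h2]
    push_cast
    field_simp
    ring
  rw [h0]
  have h1 : Cg (3 + 2 * uu ζ m k) 1 :=
    Cg.of_two (z := 1 + uu ζ m k) (A2.add_mem (by exact_mod_cast A2_nat 3)
      (A2.mul_mem (by exact_mod_cast A2_nat 2) (uu_mem hζ m k)))
      (A2.add_mem A2.one_mem (uu_mem hζ m k)) (by ring)
  have h2 := (Cg.refl (A2.pow_mem (pt_mem hζ k) 3)).mul ((Cg.odd_inv (N := 3) (by decide)).mul (h1.pow 2))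
  rw [one_pow, mul_one, mul_one] at h2
  exact h2

lemma choose_big (k : ℕ) (hk : 4 ≤ k) : k + 2 ≤ k.choose 2 := by
  induction k, hk using Nat.le_induction with
  | base => decide
  | succ k hk ih =>
    have h : (k + 1).choose 2 = k + k.choose 2 := by
      rw [Nat.choose_succ_succ' k 1, Nat.choose_one_right]
    rw [h]
    omega

lemma fact_two (k : ℕ) (hk : 0 < k) : ∃ e o : ℕ, Odd o ∧ Nat.factorial k = 2 ^ e * o ∧ e < k := by
  obtain ⟨e, o, ho, h⟩ := Nat.exists_eq_two_pow_mul_odd (Nat.factorial_ne_zero k)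
  refine ⟨e, o, ho, h, ?_⟩
  have h1 := Nat.emultiplicity_two_factorial_lt (n := k) hk.ne'
  have h2 : (e : ℕ∞) ≤ emultiplicity 2 (Nat.factorial k) := by
    apply le_emultiplicity_of_pow_dvd
    rw [h]
    exact dvd_mul_right _ _
  have h3 := lt_of_le_of_lt h2 h1
  exact_mod_cast h3

lemma hh_4 (hζ : IsPrimitiveRoot ζ (2 * s + 1)) (m : Fin (2 * s + 1) → ℕ) (k : Fin (2 * s + 1))
    (h : 4 ≤ m k) : Cg (hh ζ m k) 0 := by
  have hu := uu_mem hζ m k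
  have hp := pt_mem hζ k
  obtain ⟨j, hj⟩ : ∃ j, m k = j + 1 := ⟨m k - 1, by omega⟩
  have h1 : hh ζ m k = pt ζ k ^ (j + j.choose 2) * ((((j + 1 : ℕ) : ℂ) + 2 * uu ζ m k) ^ j *
      (2 ^ (j.choose 2) / ((Nat.factorial (j + 1) : ℕ) : ℂ))) := by
    unfold hh E1
    rw [DD_eq hζ, hj, if_neg (by omega), Nat.choose_succ_succ' j 1, Nat.choose_one_right]
    have h3 : j + 1 - 1 = j := rfl
    rw [h3]
    have h4 : (pt ζ k + pt ζ k) ^ (j + j.choose 2) * (((j + 1 : ℕ) : ℂ) / 2 + uu ζ m k) ^ j =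
        pt ζ k ^ (j + j.choose 2) * ((((j + 1 : ℕ) : ℂ) + 2 * uu ζ m k) ^ j * 2 ^ (j.choose 2)) := by
      have h5 : pt ζ k + pt ζ k = 2 * pt ζ k := by ring
      have h6 : ((j + 1 : ℕ) : ℂ) + 2 * uu ζ m k = 2 * (((j + 1 : ℕ) : ℂ) / 2 + uu ζ m k) := by ring
      rw [h5, h6, mul_pow 2 (pt ζ k), mul_pow 2 (((j + 1 : ℕ) : ℂ) / 2 + uu ζ m k), pow_add 2]
      ring
    rw [h4]
    ring
  by_cases hj3 : j = 3
  · rw [h1, hj3]
    have h2 : Nat.choose 3 2 = 3 := rfl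
    have h3 : Nat.factorial (3 + 1) = 24 := rfl
    rw [h2, h3]
    have h4 : pt ζ k ^ (3 + 3) * ((((3 + 1 : ℕ) : ℂ) + 2 * uu ζ m k) ^ 3 * (2 ^ 3 / ((24 : ℕ) : ℂ))) =
        2 * (pt ζ k ^ 6 * ((2 + uu ζ m k) ^ 3 * (4 * ((3 : ℕ) : ℂ)⁻¹))) := by
      push_cast
      ring
    rw [h4]
    apply Cg.two_zero
    exact A2.mul_mem (A2.pow_mem hp _) (A2.mul_mem (A2.pow_mem (A2.add_mem (by exact_mod_cast A2_nat 2) hu) _)
      (A2.mul_mem (by exact_mod_cast A2_nat 4) (A2_inv (by decide))))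
  · have hj4 : 4 ≤ j := by omega
    obtain ⟨e, o, ho, hf, he⟩ := fact_two (j + 1) (by omega)
    have hb := choose_big j hj4
    obtain ⟨d, hd⟩ : ∃ d, j.choose 2 = e + 1 + d := ⟨j.choose 2 - (e + 1), by omega⟩
    have ho0 : (o : ℂ) ≠ 0 := Nat.cast_ne_zero.mpr (by rintro rfl; exact absurd ho (by decide))
    have h5 : (2 : ℂ) ^ (j.choose 2) / ((Nat.factorial (j + 1) : ℕ) : ℂ) = 2 * (2 ^ d * (o : ℂ)⁻¹) := by
      rw [hf, hd]
      push_cast
      rw [pow_add, pow_add]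
      field_simp
    rw [h1, h5]
    have h6 : pt ζ k ^ (j + j.choose 2) * ((((j + 1 : ℕ) : ℂ) + 2 * uu ζ m k) ^ j * (2 * (2 ^ d * (o : ℂ)⁻¹))) =
        2 * (pt ζ k ^ (j + j.choose 2) * ((((j + 1 : ℕ) : ℂ) + 2 * uu ζ m k) ^ j * (2 ^ d * (o : ℂ)⁻¹))) := by
      ring
    rw [h6]
    apply Cg.two_zero
    exact A2.mul_mem (A2.pow_mem hp _) (A2.mul_mem (A2.pow_mem (A2.add_mem (A2_nat _)
      (A2.mul_mem (by exact_mod_cast A2_nat 2) hu)) _)
      (A2.mul_mem (A2.pow_mem (by exact_mod_cast A2_nat 2) _) (A2_inv ho)))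

lemma hh_mem (hζ : IsPrimitiveRoot ζ (2 * s + 1)) (m : Fin (2 * s + 1) → ℕ) (k : Fin (2 * s + 1)) :
    hh ζ m k ∈ A2 := by
  have h : m k ≤ 1 ∨ m k = 2 ∨ m k = 3 ∨ 4 ≤ m k := by omega
  rcases h with h | h | h | h
  · rw [hh_01 ζ m k h]; exact A2.one_mem
  · rw [hh_2 hζ m k h]
    exact A2.mul_mem (pt_mem hζ k) (A2.add_mem A2.one_mem (uu_mem hζ m k))
  · exact (hh_3 hζ m k h).1
  · exact (hh_4 hζ m k h).1

lemma QQ_det_cg (hζ : IsPrimitiveRoot ζ (2 * s + 1)) (m : Fin (2 * s + 1) → ℕ) :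
    Cg (QQ ζ m).det (RR ζ m).det := Cg.det (QQ_cg hζ m)

lemma pre_mem (hζ : IsPrimitiveRoot ζ (2 * s + 1)) (m : Fin (2 * s + 1) → ℕ) :
    (∏ k, (pt ζ k ^ (s + 1)) ^ (m k)) *
        (∏ q : PP (2 * s + 1), (pt ζ q.1.1 + pt ζ q.1.2) ^ (m q.1.1 * m q.1.2)) ∈ A2 :=
  A2.mul_mem (A2.prod_mem (fun k _ => A2.pow_mem (A2.pow_mem (pt_mem hζ k) _) _))
    (A2.prod_mem (fun q _ => A2.pow_mem (A2.add_mem (pt_mem hζ _) (pt_mem hζ _)) _))

/-- Some fibre is large. -/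
lemma gt_big (hζ : IsPrimitiveRoot ζ (2 * s + 1)) (m : Fin (2 * s + 1) → ℕ) (k : Fin (2 * s + 1))
    (h : 4 ≤ m k) : Cg (GG ζ s m / ∏ k, ((Nat.factorial (m k) : ℕ) : ℂ)) 0 := by
  rw [GG_eq]
  have h1 : Cg (∏ k, hh ζ m k) 0 := by
    rw [← Finset.mul_prod_erase _ _ (Finset.mem_univ k)]
    have h2 := (hh_4 hζ m k h).mul (Cg.refl (A2.prod_mem (fun j (_ : j ∈ univ.erase k) => hh_mem hζ m j)))
    rwa [zero_mul] at h2
  have h2 := ((Cg.refl (pre_mem hζ m)).mul h1).mul (QQ_det_cg hζ m)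
  rwa [mul_zero, zero_mul] at h2

/-- Many odd fibres. -/
lemma gt_odd (hζ : IsPrimitiveRoot ζ (2 * s + 1)) (m : Fin (2 * s + 1) → ℕ)
    (h : 1 < Fintype.card {k : Fin (2 * s + 1) // Odd (m k)})
    (ho : Odd (Fintype.card {k : Fin (2 * s + 1) // Odd (m k)})) :
    Cg (GG ζ s m / ∏ k, ((Nat.factorial (m k) : ℕ) : ℂ)) 0 := by
  rw [GG_eq]
  have h1 : Cg (QQ ζ m).det 0 := by
    refine (QQ_det_cg hζ m).trans ?_
    rw [RR_det]
    have h2 := (BB_zero hζ m h ho).mul (Cg.refl (A2.prod_mem (fun k (_ : k ∈ univ.filter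
      (fun k => ¬ Odd (m k))) => (by
        show (if m k = 0 then (1 : ℂ) else uu ζ m k) ∈ A2
        split_ifs
        · exact A2.one_mem
        · exact uu_mem hζ m k))))
    rwa [zero_mul] at h2
  have h2 := (Cg.refl (A2.mul_mem (pre_mem hζ m) (A2.prod_mem (fun k (_ : k ∈ univ) => hh_mem hζ m k)))).mul h1
  rwa [mul_zero] at h2

/-- The half of the summand. -/
noncomputable def XB (ζ : ℂ) (s : ℕ) (β : Fin (2 * s + 1) → ℕ) : ℂ :=
  (∏ k, (pt ζ k ^ (s + 2)) ^ (β k)) *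
    ∏ q : PP (2 * s + 1), (pt ζ q.1.1 + pt ζ q.1.2) ^ (2 * (β q.1.1 * β q.1.2))

lemma cross_prod (hζ : IsPrimitiveRoot ζ (2 * s + 1)) (β : Fin (2 * s + 1) → ℕ) (p : Fin (2 * s + 1)) :
    ∏ q : PP (2 * s + 1), (pt ζ q.1.1 + pt ζ q.1.2) ^
      (2 * (β q.1.1 * (if q.1.2 = p then 1 else 0) + (if q.1.1 = p then 1 else 0) * β q.1.2)) =
      ∏ k ∈ univ.erase p, ((pt ζ k + pt ζ p) ^ 2) ^ (β k) := by
  have h := prod_pairs (fun k l : Fin (2 * s + 1) => (pt ζ k + pt ζ l) ^ (2 * (β k * (if l = p then 1 else 0))))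
  have h1 : ∀ k : Fin (2 * s + 1), ∏ l : Fin (2 * s + 1),
      (pt ζ k + pt ζ l) ^ (2 * (β k * (if l = p then 1 else 0))) = ((pt ζ k + pt ζ p) ^ 2) ^ (β k) := by
    intro k
    rw [Finset.prod_eq_single p]
    · rw [if_pos rfl, mul_one, pow_mul]
    · intro l _ hl
      rw [if_neg hl, mul_zero, mul_zero, pow_zero]
    · intro hh; exact absurd (Finset.mem_univ _) hh
  have h2 : ∏ k : Fin (2 * s + 1), (pt ζ k + pt ζ k) ^ (2 * (β k * (if k = p then 1 else 0))) =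
      ((pt ζ p + pt ζ p) ^ 2) ^ (β p) := by
    rw [Finset.prod_eq_single p]
    · rw [if_pos rfl, mul_one, pow_mul]
    · intro l _ hl
      rw [if_neg hl, mul_zero, mul_zero, pow_zero]
    · intro hh; exact absurd (Finset.mem_univ _) hh
  rw [Finset.prod_congr rfl (fun k _ => h1 k), h2, ← Finset.mul_prod_erase _ _ (Finset.mem_univ p)] at h
  have h3 := mul_left_cancel₀ (pow_ne_zero _ (pow_ne_zero _ (pt_add_ne hζ p p))) h
  rw [h3]
  apply Finset.prod_congr rfl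
  intro q _
  rw [add_comm (pt ζ q.1.2) (pt ζ q.1.1), ← pow_add]
  congr 1
  ring

theorem exact_id (hζ : IsPrimitiveRoot ζ (2 * s + 1)) (β : Fin (2 * s + 1) → ℕ) (p : Fin (2 * s + 1))
    (hβ : ∑ k, β k = s) :
    ((∏ k, (pt ζ k ^ (s + 1)) ^ (2 * β k + (if k = p then 1 else 0))) *
        (∏ q : PP (2 * s + 1), (pt ζ q.1.1 + pt ζ q.1.2) ^
          ((2 * β q.1.1 + (if q.1.1 = p then 1 else 0)) * (2 * β q.1.2 + (if q.1.2 = p then 1 else 0))))) *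
      ((pt ζ p ^ 3) ^ (β p) * ∏ k ∈ univ.erase p, (pt ζ k * cc ζ p k) ^ (β k)) *
      (∏ k ∈ univ.erase p, (cc ζ k p) ^ (β k)) = XB ζ s β ^ 2 := by
  have h1 : ∏ q : PP (2 * s + 1), (pt ζ q.1.1 + pt ζ q.1.2) ^
          ((2 * β q.1.1 + (if q.1.1 = p then 1 else 0)) * (2 * β q.1.2 + (if q.1.2 = p then 1 else 0))) =
      (∏ q : PP (2 * s + 1), (pt ζ q.1.1 + pt ζ q.1.2) ^ (2 * (β q.1.1 * β q.1.2))) ^ 2 *
        ∏ k ∈ univ.erase p, ((pt ζ k + pt ζ p) ^ 2) ^ (β k) := by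
    rw [← cross_prod hζ β p, ← Finset.prod_pow, ← Finset.prod_mul_distrib]
    apply Finset.prod_congr rfl
    intro q _
    rw [← pow_mul, ← pow_add]
    congr 1
    have hne : q.1.1 ≠ q.1.2 := ne_of_lt q.2
    by_cases ha : q.1.1 = p
    · have hb : q.1.2 ≠ p := fun h => hne (ha.trans h.symm)
      rw [if_pos ha, if_neg hb]
      ring
    · rw [if_neg ha]
      ring
  have h2 : ∏ k, (pt ζ k ^ (s + 1)) ^ (2 * β k + (if k = p then 1 else 0)) =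
      pt ζ p ^ (s + 1) * ∏ k, (pt ζ k ^ (2 * (s + 1))) ^ (β k) := by
    have h3 : ∀ k, (pt ζ k ^ (s + 1)) ^ (2 * β k + (if k = p then 1 else 0)) =
        (if k = p then pt ζ k ^ (s + 1) else 1) * (pt ζ k ^ (2 * (s + 1))) ^ (β k) := by
      intro k
      rw [pow_add]
      have h4 : (pt ζ k ^ (s + 1)) ^ (2 * β k) = (pt ζ k ^ (2 * (s + 1))) ^ (β k) := by
        rw [← pow_mul, ← pow_mul]; congr 1; ring
      rw [h4, mul_comm]
      congr 1
      split_ifs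
      · rw [pow_one]
      · rw [pow_zero]
    rw [Finset.prod_congr rfl (fun k _ => h3 k), Finset.prod_mul_distrib, Finset.prod_ite_eq',
      if_pos (Finset.mem_univ p)]
  have h3 : (∏ k ∈ univ.erase p, ((pt ζ k + pt ζ p) ^ 2) ^ (β k)) *
      (∏ k ∈ univ.erase p, (pt ζ k * cc ζ p k) ^ (β k)) * (∏ k ∈ univ.erase p, (cc ζ k p) ^ (β k)) =
      (∏ k ∈ univ.erase p, (pt ζ k ^ 2) ^ (β k)) * pt ζ p ^ (∑ k ∈ univ.erase p, β k) := by
    rw [← Finset.prod_pow_eq_pow_sum, ← Finset.prod_mul_distrib, ← Finset.prod_mul_distrib,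
      ← Finset.prod_mul_distrib]
    apply Finset.prod_congr rfl
    intro k _
    rw [← mul_pow, ← mul_pow, ← mul_pow]
    congr 1
    unfold cc
    have h4 := pt_add_ne hζ k p
    have h5 : pt ζ p + pt ζ k ≠ 0 := pt_add_ne hζ p k
    field_simp
    ring
  have hsum := Finset.add_sum_erase (univ : Finset (Fin (2 * s + 1))) β (Finset.mem_univ p)
  have hsum2 : β p + ∑ k ∈ univ.erase p, β k = s := hsum.trans hβ
  have h4 : ∑ k ∈ univ.erase p, β k = s - β p := by omega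
  have hβp : β p ≤ s := by omega
  have h5 : XB ζ s β ^ 2 = (∏ k, (pt ζ k ^ (2 * s + 4)) ^ (β k)) *
      (∏ q : PP (2 * s + 1), (pt ζ q.1.1 + pt ζ q.1.2) ^ (2 * (β q.1.1 * β q.1.2))) ^ 2 := by
    unfold XB
    rw [mul_pow, ← Finset.prod_pow]
    congr 1
    apply Finset.prod_congr rfl
    intro k _
    rw [← pow_mul, ← pow_mul, ← pow_mul]
    congr 1
    ring
  have h6 : ∏ k, (pt ζ k ^ (2 * s + 4)) ^ (β k) =
      (∏ k, (pt ζ k ^ (2 * (s + 1))) ^ (β k)) * ∏ k, (pt ζ k ^ 2) ^ (β k) := by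
    rw [← Finset.prod_mul_distrib]
    apply Finset.prod_congr rfl
    intro k _
    have he : 2 * s + 4 = 2 * (s + 1) + 2 := by ring
    rw [← mul_pow, ← pow_add, he]
  have h7 : ∏ k, (pt ζ k ^ 2) ^ (β k) = (pt ζ p ^ 2) ^ (β p) * ∏ k ∈ univ.erase p, (pt ζ k ^ 2) ^ (β k) :=
    (Finset.mul_prod_erase _ _ (Finset.mem_univ p)).symm
  have h8 : pt ζ p ^ (s + 1) * (pt ζ p ^ 3) ^ (β p) * pt ζ p ^ (s - β p) = (pt ζ p ^ 2) ^ (β p) := by
    rw [← pow_mul, ← pow_mul, ← pow_add, ← pow_add]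
    have h9 : s + 1 + 3 * β p + (s - β p) = (2 * s + 1) + 2 * β p := by omega
    rw [h9, pow_add, pt_pow hζ p, one_mul]
  rw [h1, h2, h5, h6, h7]
  rw [h4] at h3
  generalize (∏ k, (pt ζ k ^ (2 * (s + 1))) ^ (β k)) = A at *
  generalize (∏ q : PP (2 * s + 1), (pt ζ q.1.1 + pt ζ q.1.2) ^ (2 * (β q.1.1 * β q.1.2))) = B at *
  generalize (∏ k ∈ univ.erase p, ((pt ζ k + pt ζ p) ^ 2) ^ (β k)) = C at *
  generalize (∏ k ∈ univ.erase p, (pt ζ k * cc ζ p k) ^ (β k)) = D at *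
  generalize (∏ k ∈ univ.erase p, (cc ζ k p) ^ (β k)) = E at *
  generalize (∏ k ∈ univ.erase p, (pt ζ k ^ 2) ^ (β k)) = F at *
  rw [← h8]
  linear_combination (pt ζ p ^ (s + 1) * (pt ζ p ^ 3) ^ β p * A * B ^ 2) * h3

/-- Exactly one odd fibre and no large fibre. -/
theorem gt_good (hζ : IsPrimitiveRoot ζ (2 * s + 1)) (β : Fin (2 * s + 1) → ℕ) (p : Fin (2 * s + 1))
    (hβ : ∑ k, β k = s) (hβ1 : ∀ k, β k ≤ 1) :
    Cg (GG ζ s (fun k => 2 * β k + (if k = p then 1 else 0)) /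
      ∏ k, ((Nat.factorial (2 * β k + (if k = p then 1 else 0)) : ℕ) : ℂ)) (XB ζ s β ^ 2) := by
  set m : Fin (2 * s + 1) → ℕ := fun k => 2 * β k + (if k = p then 1 else 0) with hm
  have hmodd : ∀ k, Odd (m k) ↔ k = p := by
    intro k
    rw [hm]
    simp only
    by_cases hk : k = p
    · rw [if_pos hk]
      exact ⟨fun _ => hk, fun _ => ⟨β k, rfl⟩⟩
    · rw [if_neg hk, add_zero]
      refine ⟨fun h => ?_, fun h => absurd h hk⟩
      exact absurd (even_two_mul (β k)) (Nat.not_even_iff_odd.mpr h)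
  have hcc : ∀ k, k ≠ p → vv ζ m k = cc ζ k p := by
    intro k hk
    unfold vv
    rw [Finset.sum_eq_single p]
    · rw [if_pos ((hmodd p).mpr rfl)]
    · intro l _ hl
      rw [if_neg (fun h => hl ((hmodd l).mp h))]
    · intro h
      exact absurd (Finset.mem_erase.mpr ⟨hk.symm, Finset.mem_univ _⟩) h
  have h1 : Cg (∏ k, hh ζ m k) ((pt ζ p ^ 3) ^ (β p) * ∏ k ∈ univ.erase p, (pt ζ k * cc ζ p k) ^ (β k)) := by
    rw [← Finset.mul_prod_erase _ _ (Finset.mem_univ p)]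
    apply Cg.mul
    · have h2 := hβ1 p
      rcases Nat.le_one_iff_eq_zero_or_eq_one.mp h2 with h3 | h3
      · rw [hh_01 ζ m p (by rw [hm]; simp [h3]), h3, pow_zero]
        exact Cg.refl A2.one_mem
      · rw [h3, pow_one]
        exact hh_3 hζ m p (by rw [hm]; simp [h3])
    · apply Cg.prod
      intro k hk
      have hkp := Finset.ne_of_mem_erase hk
      rcases Nat.le_one_iff_eq_zero_or_eq_one.mp (hβ1 k) with h3 | h3
      · rw [hh_01 ζ m k (by rw [hm]; simp [h3, hkp]), h3, pow_zero]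
        exact Cg.refl A2.one_mem
      · rw [hh_2 hζ m k (by rw [hm]; simp [h3, hkp]), h3, pow_one]
        apply (Cg.refl (pt_mem hζ k)).mul
        have h4 := uu_cg hζ m k
        rw [hcc k hkp] at h4
        refine ((Cg.refl A2.one_mem).add h4).trans ?_
        refine ⟨A2.add_mem A2.one_mem (cc_mem hζ hkp), cc_mem hζ hkp.symm, cc ζ k p, cc_mem hζ hkp, ?_⟩
        unfold cc
        have h5 := pt_add_ne hζ k p
        have h6 : pt ζ p + pt ζ k ≠ 0 := pt_add_ne hζ p k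
        field_simp
        ring
  have h2 : Cg (QQ ζ m).det (∏ k ∈ univ.erase p, (cc ζ k p) ^ (β k)) := by
    refine (QQ_det_cg hζ m).trans ?_
    rw [RR_det, BB_one, one_mul]
    · have h3 : univ.filter (fun k => ¬ Odd (m k)) = univ.erase p := by
        ext k
        rw [Finset.mem_filter, Finset.mem_erase, hmodd]
        tauto
      rw [h3]
      apply Cg.prod
      intro k hk
      have hkp := Finset.ne_of_mem_erase hk
      rcases Nat.le_one_iff_eq_zero_or_eq_one.mp (hβ1 k) with h3 | h3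
      · rw [if_pos (by rw [hm]; simp [h3, hkp]), h3, pow_zero]
        exact Cg.refl A2.one_mem
      · rw [if_neg (by rw [hm]; simp [h3, hkp]), h3, pow_one]
        have h4 := uu_cg hζ m k
        rw [hcc k hkp] at h4
        exact h4
    · rw [Fintype.card_eq_one_iff]
      exact ⟨⟨p, (hmodd p).mpr rfl⟩, fun k => Subtype.ext ((hmodd k.1).mp k.2)⟩
  have h3 := ((Cg.refl (pre_mem hζ m)).mul h1).mul h2
  have h4 := GG_eq ζ s m
  have h5 := exact_id hζ β p hβ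
  rw [← h5]
  have h6 : GG ζ s m / ∏ k, ((Nat.factorial (2 * β k + (if k = p then 1 else 0)) : ℕ) : ℂ) =
      GG ζ s m / ∏ k, ((Nat.factorial (m k) : ℕ) : ℂ) := rfl
  rw [h6, h4]
  exact h3

end loc

end Pool.Agent.MP_c3d1b0
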