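import Pool.Agent.Lib.MP_c3d1b0_co.V4

set_option autoImplicit false

/-!
# A Cauchy Binet sum
-/

namespace Pool.Agent.MP_c3d1b0

open Finset Matrix

lemma ioi_pairs {N : ℕ} (g : Fin N → Fin N → ℂ) :
    ∏ i : Fin N, ∏ j ∈ Finset.Ioi i, g i j = ∏ p : PP N, g p.1.1 p.1.2 := by
  rw [Finset.prod_sigma']
  refine Finset.prod_bij' (fun q hq => (⟨(q.1, q.2), by
      rw [Finset.mem_sigma, Finset.mem_Ioi] at hq; exact hq.2⟩ : PP N))
    (fun p _ => ⟨p.1.1, p.1.2⟩) ?_ ?_ ?_ ?_ ?_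
  · intro q _; exact Finset.mem_univ _
  · intro p _
    rw [Finset.mem_sigma, Finset.mem_Ioi]
    exact ⟨Finset.mem_univ _, p.2⟩
  · intro q _; rfl
  · intro p _; rfl
  · intro q _; rfl

section

variable {N : ℕ} {K : Type} [Fintype K] [DecidableEq K]

lemma det_expand (w a : K → ℂ) :
    (Matrix.of (fun i j : Fin N => ∑ k, w k * a k ^ (i : ℕ) * a k ^ (j : ℕ))).det =
      ∑ φ : Fin N → K, (∏ i, (w (φ i) * a (φ i) ^ (i : ℕ))) * (Matrix.vandermonde (fun i => a (φ i))).det := by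
  have h1 : (Matrix.of (fun i j : Fin N => ∑ k, w k * a k ^ (i : ℕ) * a k ^ (j : ℕ))).det =
      Matrix.detRowAlternating (n := Fin N) (R := ℂ)
        (fun i : Fin N => ∑ k : K, (w k * a k ^ (i : ℕ)) • (fun j : Fin N => a k ^ (j : ℕ))) := by
    have h2 : (Matrix.of (fun i j : Fin N => ∑ k, w k * a k ^ (i : ℕ) * a k ^ (j : ℕ))) =
        (fun i : Fin N => ∑ k : K, (w k * a k ^ (i : ℕ)) • (fun j : Fin N => a k ^ (j : ℕ))) := by
      funext i j
      rw [Finset.sum_apply]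
      rfl
    rw [h2]
    rfl
  rw [h1]
  have h2 := (Matrix.detRowAlternating (R := ℂ) (n := Fin N)).toMultilinearMap.map_sum
    (g := fun (i : Fin N) (k : K) => (w k * a k ^ (i : ℕ)) • (fun j : Fin N => a k ^ (j : ℕ)))
  rw [AlternatingMap.coe_multilinearMap] at h2
  rw [h2]
  apply Finset.sum_congr rfl
  intro φ _
  have h4 := (Matrix.detRowAlternating (R := ℂ) (n := Fin N)).toMultilinearMap.map_smul_univ
    (fun i : Fin N => w (φ i) * a (φ i) ^ (i : ℕ)) (fun i : Fin N => (fun j : Fin N => a (φ i) ^ (j : ℕ)))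
  rw [AlternatingMap.coe_multilinearMap] at h4
  rw [h4, smul_eq_mul]
  rfl

lemma det_expand_sym (w a : K → ℂ) :
    (Nat.factorial N : ℂ) * (Matrix.of (fun i j : Fin N => ∑ k, w k * a k ^ (i : ℕ) * a k ^ (j : ℕ))).det =
      ∑ φ : Fin N → K, (∏ i, w (φ i)) * (Matrix.vandermonde (fun i => a (φ i))).det ^ 2 := by
  rw [det_expand]
  have h1 : ∀ σ : Equiv.Perm (Fin N), ∑ φ : Fin N → K, (∏ i, (w (φ i) * a (φ i) ^ (i : ℕ))) *
      (Matrix.vandermonde (fun i => a (φ i))).det =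
      ∑ φ : Fin N → K, (∏ i, w (φ i)) * (Matrix.vandermonde (fun i => a (φ i))).det *
        ((((Equiv.Perm.sign σ : ℤˣ) : ℤ) : ℂ) * ∏ i, (Matrix.vandermonde (fun i => a (φ i))) (σ i) i) := by
    intro σ
    rw [← Equiv.sum_comp (Equiv.arrowCongr σ.symm (Equiv.refl K))]
    apply Finset.sum_congr rfl
    intro φ _
    have h2 : (Equiv.arrowCongr σ.symm (Equiv.refl K)) φ = fun i => φ (σ i) := rfl
    rw [h2]
    simp only
    have h3 : (Matrix.vandermonde (fun i => a (φ (σ i)))).det =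
        (((Equiv.Perm.sign σ : ℤˣ) : ℤ) : ℂ) * (Matrix.vandermonde (fun i => a (φ i))).det := by
      have h4 := Matrix.det_permute σ (Matrix.vandermonde (fun i => a (φ i)))
      rw [← h4]
      rfl
    rw [h3, Finset.prod_mul_distrib, Equiv.prod_comp σ (fun i => w (φ i))]
    have h5 : ∏ i, a (φ (σ i)) ^ (i : ℕ) = ∏ i, (Matrix.vandermonde (fun i => a (φ i))) (σ i) i := by
      apply Finset.prod_congr rfl
      intro i _
      rw [Matrix.vandermonde_apply]
    rw [h5]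
    ring
  have h2 : (Nat.factorial N : ℂ) * ∑ φ : Fin N → K, (∏ i, (w (φ i) * a (φ i) ^ (i : ℕ))) *
      (Matrix.vandermonde (fun i => a (φ i))).det = ∑ σ : Equiv.Perm (Fin N),
        ∑ φ : Fin N → K, (∏ i, (w (φ i) * a (φ i) ^ (i : ℕ))) *
      (Matrix.vandermonde (fun i => a (φ i))).det := by
    rw [Finset.sum_const, Finset.card_univ, Fintype.card_perm, Fintype.card_fin, nsmul_eq_mul]
  rw [h2, Finset.sum_congr rfl (fun σ _ => h1 σ), Finset.sum_comm]
  apply Finset.sum_congr rfl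
  intro φ _
  rw [← Finset.mul_sum, ← Matrix.det_apply']
  ring

end

section

variable {ζ : ℂ} {s : ℕ}

/-- The summand of the Cauchy Binet sum. -/
noncomputable def XC (ζ : ℂ) (s : ℕ) (β : Fin (2 * s + 1) → ℕ) : ℂ :=
  (∏ k, (pt ζ k ^ (s + 2)) ^ (β k)) *
    ∏ q : PP (2 * s + 1), (pt ζ q.1.1 - pt ζ q.1.2) ^ (2 * (β q.1.1 * β q.1.2))

open Classical in
theorem cb_sum (ζ : ℂ) (s : ℕ) :
    ∑ β ∈ ((univ : Finset (Fin (2 * s + 1))).piAntidiag s).filter (fun β => ∀ k, β k ≤ 1), XC ζ s β =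
      (Matrix.of (fun i j : Fin s => ∑ k : Fin (2 * s + 1), pt ζ k ^ (s + 2) * pt ζ k ^ (i : ℕ) *
        pt ζ k ^ (j : ℕ))).det := by
  have h0 : (Nat.factorial s : ℂ) ≠ 0 := Nat.cast_ne_zero.mpr (Nat.factorial_ne_zero _)
  apply mul_left_cancel₀ h0
  rw [det_expand_sym]
  have h1 : ∀ φ : Fin s → Fin (2 * s + 1), (∏ i, pt ζ (φ i) ^ (s + 2)) *
      (Matrix.vandermonde (fun i => pt ζ (φ i))).det ^ 2 =
      (∏ k, (pt ζ k ^ (s + 2)) ^ (fb φ k)) * ((∏ k, ((pt ζ k - pt ζ k) ^ 2) ^ ((fb φ k).choose 2)) *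
        ∏ q : PP (2 * s + 1), ((pt ζ q.1.1 - pt ζ q.1.2) ^ 2) ^ (fb φ q.1.1 * fb φ q.1.2)) := by
    intro φ
    rw [prod_fb φ (fun k => pt ζ k ^ (s + 2)), ← pairs_fib (fun k l => (pt ζ k - pt ζ l) ^ 2)
      (fun k l => by ring) φ, Matrix.det_vandermonde, ioi_pairs (fun i j => pt ζ (φ j) - pt ζ (φ i)),
      ← Finset.prod_pow]
    congr 1
    apply Finset.prod_congr rfl
    intro p _
    ring
  rw [Finset.sum_congr rfl (fun φ _ => h1 φ), fib_sum (fun β => (∏ k, (pt ζ k ^ (s + 2)) ^ (β k)) *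
    ((∏ k, ((pt ζ k - pt ζ k) ^ 2) ^ ((β k).choose 2)) *
        ∏ q : PP (2 * s + 1), ((pt ζ q.1.1 - pt ζ q.1.2) ^ 2) ^ (β q.1.1 * β q.1.2)))]
  congr 1
  rw [Finset.sum_filter]
  apply Finset.sum_congr rfl
  intro β _
  by_cases hβ : ∀ k, β k ≤ 1
  · rw [if_pos hβ]
    have h2 : ∏ k, ((pt ζ k - pt ζ k) ^ 2) ^ ((β k).choose 2) = 1 := by
      apply Finset.prod_eq_one
      intro k _
      rw [Nat.choose_eq_zero_of_lt (lt_of_le_of_lt (hβ k) (by norm_num)), pow_zero]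
    have h3 : ∏ k, ((Nat.factorial (β k) : ℕ) : ℂ) = 1 := by
      apply Finset.prod_eq_one
      intro k _
      rcases Nat.le_one_iff_eq_zero_or_eq_one.mp (hβ k) with h | h <;> rw [h] <;> simp
    rw [h2, h3, div_one, one_mul]
    unfold XC
    congr 1
    apply Finset.prod_congr rfl
    intro q _
    rw [pow_mul]
  · rw [if_neg hβ]
    push Not at hβ
    obtain ⟨k, hk⟩ := hβ
    have h2 : ∏ k, ((pt ζ k - pt ζ k) ^ 2) ^ ((β k).choose 2) = 0 := by
      apply Finset.prod_eq_zero (Finset.mem_univ k)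
      rw [sub_self, zero_pow (by norm_num), zero_pow]
      exact (Nat.choose_pos (by omega)).ne'
    rw [h2, zero_mul, mul_zero, zero_div]

theorem cb_det (hζ : IsPrimitiveRoot ζ (2 * s + 1)) :
    (Matrix.of (fun i j : Fin s => ∑ k : Fin (2 * s + 1), pt ζ k ^ (s + 2) * pt ζ k ^ (i : ℕ) *
        pt ζ k ^ (j : ℕ))).det ^ 2 = (((2 * s + 1 : ℕ) : ℂ) ^ 2) ^ s := by
  have h1 : (Matrix.of (fun i j : Fin s => ∑ k : Fin (2 * s + 1), pt ζ k ^ (s + 2) * pt ζ k ^ (i : ℕ) *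
        pt ζ k ^ (j : ℕ))) = Matrix.of (fun i j : Fin s => if j = Fin.rev i then ((2 * s + 1 : ℕ) : ℂ) else 0) := by
    ext i j
    rw [Matrix.of_apply, Matrix.of_apply]
    have h2 : ∀ k : Fin (2 * s + 1), pt ζ k ^ (s + 2) * pt ζ k ^ (i : ℕ) * pt ζ k ^ (j : ℕ) =
        pt ζ k ^ (s + 2 + i + j) := by
      intro k
      rw [← pow_add, ← pow_add]
    rw [Finset.sum_congr rfl (fun k _ => h2 k), pt_sum hζ]
    have hi := i.2
    have hj := j.2
    by_cases h : j = Fin.rev i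
    · rw [if_pos h, if_pos]
      rw [h, Fin.val_rev]
      refine ⟨1, ?_⟩
      omega
    · rw [if_neg h, if_neg]
      rintro ⟨c, hc⟩
      apply h
      have hc1 : c = 1 := by
        have h8 : 0 < c := by
          rcases Nat.eq_zero_or_pos c with h9 | h9
          · rw [h9] at hc; omega
          · exact h9
        have h9 : c < 2 := by
          by_contra h10
          push Not at h10
          have : (2 * s + 1) * 2 ≤ (2 * s + 1) * c := Nat.mul_le_mul_left _ h10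
          omega
        omega
      rw [hc1] at hc
      apply Fin.ext
      rw [Fin.val_rev]
      omega
  rw [h1, pow_two (Matrix.det _), ← Matrix.det_mul]
  have h2 : (Matrix.of (fun i j : Fin s => if j = Fin.rev i then ((2 * s + 1 : ℕ) : ℂ) else 0)) *
      (Matrix.of (fun i j : Fin s => if j = Fin.rev i then ((2 * s + 1 : ℕ) : ℂ) else 0)) =
      Matrix.diagonal (fun _ => ((2 * s + 1 : ℕ) : ℂ) ^ 2) := by
    ext i k
    rw [Matrix.mul_apply]
    simp only [Matrix.of_apply, ite_mul, zero_mul]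
    rw [Finset.sum_ite_eq', if_pos (Finset.mem_univ _), Fin.rev_rev]
    by_cases hik : i = k
    · subst hik
      rw [if_pos rfl, Matrix.diagonal_apply_eq]
      ring
    · rw [if_neg (Ne.symm hik), Matrix.diagonal_apply_ne _ hik, mul_zero]
  rw [h2, Matrix.det_diagonal, Finset.prod_const, Finset.card_univ, Fintype.card_fin]

end

end Pool.Agent.MP_c3d1b0
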