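import Pool.Agent.Lib.MP_c3d1b0_co.V7
import Pool.Agent.Lib.MP_c3d1b0_co.V8

set_option autoImplicit false

/-!
# The 2-adic valuation
-/

namespace Pool.Agent.MP_c3d1b0

open Finset

lemma Cg.sum_sq {ι : Type} (t : Finset ι) (f : ι → ℂ) (h : ∀ i ∈ t, f i ∈ A2) :
    Cg ((∑ i ∈ t, f i) ^ 2) (∑ i ∈ t, f i ^ 2) := by
  classical
  induction t using Finset.induction_on with
  | empty =>
    rw [Finset.sum_empty, Finset.sum_empty, zero_pow (by norm_num)]
    exact Cg.refl A2.zero_mem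
  | insert a t ha ih =>
    rw [Finset.sum_insert ha, Finset.sum_insert ha]
    have h1 := h a (Finset.mem_insert_self _ _)
    have h2 : ∀ i ∈ t, f i ∈ A2 := fun i hi => h i (Finset.mem_insert_of_mem hi)
    have h3 := ih h2
    have h4 : ∑ i ∈ t, f i ∈ A2 := A2.sum_mem h2
    have h5 : (f a + ∑ i ∈ t, f i) ^ 2 = (f a ^ 2 + (∑ i ∈ t, f i) ^ 2) + 2 * (f a * ∑ i ∈ t, f i) := by ring
    rw [h5]
    have h6 := ((Cg.refl (A2.pow_mem h1 2)).add h3).add (Cg.two_zero (A2.mul_mem h1 h4))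
    rw [add_zero] at h6
    exact h6

section

variable {ζ : ℂ} {s : ℕ}

lemma XB_mem (hζ : IsPrimitiveRoot ζ (2 * s + 1)) (β : Fin (2 * s + 1) → ℕ) : XB ζ s β ∈ A2 :=
  A2.mul_mem (A2.prod_mem (fun k _ => A2.pow_mem (A2.pow_mem (pt_mem hζ k) _) _))
    (A2.prod_mem (fun _ _ => A2.pow_mem (A2.add_mem (pt_mem hζ _) (pt_mem hζ _)) _))

lemma XB_XC (hζ : IsPrimitiveRoot ζ (2 * s + 1)) (β : Fin (2 * s + 1) → ℕ) :
    Cg (XB ζ s β) (XC ζ s β) := by
  unfold XB XC
  apply Cg.mul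
  · exact Cg.refl (A2.prod_mem (fun k _ => A2.pow_mem (A2.pow_mem (pt_mem hζ k) _) _))
  · apply Cg.prod
    intro q _
    apply Cg.pow
    rw [sub_eq_add_neg]
    exact (Cg.refl (pt_mem hζ _)).add (Cg.neg_self (pt_mem hζ _)).symm

/-- The index of a half set and a point. -/
def bm {s : ℕ} (x : (Fin (2 * s + 1) → ℕ) × Fin (2 * s + 1)) : Fin (2 * s + 1) → ℕ :=
  fun k => 2 * x.1 k + (if k = x.2 then 1 else 0)

lemma bm_inj {s : ℕ} : Function.Injective (bm (s := s)) := by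
  rintro ⟨β, p⟩ ⟨β', p'⟩ h
  have h1 : ∀ k, 2 * β k + (if k = p then 1 else 0) = 2 * β' k + (if k = p' then 1 else 0) :=
    fun k => congrFun h k
  have hp : p = p' := by
    by_contra hne
    have h2 := h1 p
    rw [if_pos rfl, if_neg hne] at h2
    omega
  subst hp
  refine Prod.ext ?_ rfl
  funext k
  have h2 := h1 k
  simp only at h2 ⊢
  split_ifs at h2 <;> omega

open Classical in
theorem z_cg (hζ : IsPrimitiveRoot ζ (2 * s + 1)) :
    Cg (∑ m ∈ (univ : Finset (Fin (2 * s + 1))).piAntidiag (2 * s + 1),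
        GG ζ s m / ∏ k, ((Nat.factorial (m k) : ℕ) : ℂ)) 1 := by
  set 𝓑 := ((univ : Finset (Fin (2 * s + 1))).piAntidiag s).filter (fun β => ∀ k, β k ≤ 1) with h𝓑
  set Im := (𝓑 ×ˢ (univ : Finset (Fin (2 * s + 1)))).image bm with hIm
  have hsub : Im ⊆ (univ : Finset (Fin (2 * s + 1))).piAntidiag (2 * s + 1) := by
    intro m hm
    rw [hIm, Finset.mem_image] at hm
    obtain ⟨⟨β, p⟩, hx, rfl⟩ := hm
    rw [Finset.mem_product, h𝓑, Finset.mem_filter, Finset.mem_piAntidiag] at hx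
    rw [Finset.mem_piAntidiag]
    refine ⟨?_, fun _ _ => Finset.mem_univ _⟩
    have h1 : ∑ k, bm (β, p) k = 2 * (∑ k, β k) + 1 := by
      unfold bm
      rw [Finset.sum_add_distrib, Finset.sum_ite_eq', if_pos (Finset.mem_univ _), Finset.mul_sum]
    have h2 : ∑ k, β k = s := hx.1.1.1
    rw [h1, h2]
  rw [← Finset.sum_sdiff hsub]
  have hA : Cg (∑ m ∈ (univ : Finset (Fin (2 * s + 1))).piAntidiag (2 * s + 1) \ Im,
      GG ζ s m / ∏ k, ((Nat.factorial (m k) : ℕ) : ℂ)) 0 := by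
    have h0 : (0 : ℂ) = ∑ m ∈ (univ : Finset (Fin (2 * s + 1))).piAntidiag (2 * s + 1) \ Im, 0 := by
      rw [Finset.sum_const_zero]
    rw [h0]
    apply Cg.sum
    intro m hm
    rw [Finset.mem_sdiff, Finset.mem_piAntidiag] at hm
    obtain ⟨⟨hsum, _⟩, hnot⟩ := hm
    by_cases hbig : ∃ k, 4 ≤ m k
    · obtain ⟨k, hk⟩ := hbig
      exact gt_big hζ m k hk
    · push Not at hbig
      have hodd : Odd (Fintype.card {k : Fin (2 * s + 1) // Odd (m k)}) := by
        rw [Fintype.card_subtype]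
        rw [← Finset.odd_sum_iff_odd_card_odd]
        have h1 : ∑ k, m k = 2 * s + 1 := hsum
        rw [h1]
        exact ⟨s, rfl⟩
      by_cases h1 : 1 < Fintype.card {k : Fin (2 * s + 1) // Odd (m k)}
      · exact gt_odd hζ m h1 hodd
      · exfalso
        have h2 : Fintype.card {k : Fin (2 * s + 1) // Odd (m k)} = 1 := by
          obtain ⟨c, hc⟩ := hodd
          omega
        obtain ⟨p, hp⟩ := Fintype.card_eq_one_iff.mp h2
        apply hnot
        rw [hIm, Finset.mem_image]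
        have h3 : bm ((fun k => m k / 2), p.1) = m := by
          funext k
          unfold bm
          simp only
          by_cases hk : k = p.1
          · rw [if_pos hk, hk]
            obtain ⟨c, hc⟩ := p.2
            omega
          · rw [if_neg hk]
            have h4 : ¬ Odd (m k) := fun h => hk (congrArg Subtype.val (hp ⟨k, h⟩))
            obtain ⟨c, hc⟩ := Nat.not_odd_iff_even.mp h4
            omega
        refine ⟨((fun k => m k / 2), p.1), ?_, h3⟩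
        rw [Finset.mem_product, h𝓑, Finset.mem_filter, Finset.mem_piAntidiag]
        refine ⟨⟨⟨?_, fun _ _ => Finset.mem_univ _⟩, fun k => ?_⟩, Finset.mem_univ _⟩
        · have h5 : ∑ k, bm ((fun k => m k / 2), p.1) k = 2 * (∑ k, m k / 2) + 1 := by
            unfold bm
            rw [Finset.sum_add_distrib, Finset.sum_ite_eq', if_pos (Finset.mem_univ _), Finset.mul_sum]
          rw [h3] at h5
          have h6 : ∑ k, m k = 2 * s + 1 := hsum
          rw [h6] at h5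
          show ∑ k, m k / 2 = s
          omega
        · have := hbig k
          show m k / 2 ≤ 1
          omega
  have hB : Cg (∑ m ∈ Im, GG ζ s m / ∏ k, ((Nat.factorial (m k) : ℕ) : ℂ))
      (∑ x ∈ 𝓑 ×ˢ (univ : Finset (Fin (2 * s + 1))), XB ζ s x.1 ^ 2) := by
    rw [hIm, Finset.sum_image (fun a _ b _ h => bm_inj h)]
    apply Cg.sum
    rintro ⟨β, p⟩ hx
    rw [Finset.mem_product, h𝓑, Finset.mem_filter, Finset.mem_piAntidiag] at hx
    exact gt_good hζ β p hx.1.1.1 hx.1.2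
  have hC : ∑ x ∈ 𝓑 ×ˢ (univ : Finset (Fin (2 * s + 1))), XB ζ s x.1 ^ 2 =
      ((2 * s + 1 : ℕ) : ℂ) * ∑ β ∈ 𝓑, XB ζ s β ^ 2 := by
    rw [Finset.sum_product, Finset.mul_sum]
    apply Finset.sum_congr rfl
    intro β _
    simp only
    rw [Finset.sum_const, Finset.card_univ, Fintype.card_fin, nsmul_eq_mul]
  have hD : Cg (((2 * s + 1 : ℕ) : ℂ) * ∑ β ∈ 𝓑, XB ζ s β ^ 2) (1 * (∑ β ∈ 𝓑, XB ζ s β) ^ 2) :=
    (Cg.odd ⟨s, rfl⟩).mul (Cg.sum_sq 𝓑 (XB ζ s) (fun β _ => XB_mem hζ β)).symm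
  have hE : Cg ((∑ β ∈ 𝓑, XB ζ s β) ^ 2) ((∑ β ∈ 𝓑, XC ζ s β) ^ 2) :=
    (Cg.sum (fun β _ => XB_XC hζ β)).pow 2
  have hF : (∑ β ∈ 𝓑, XC ζ s β) ^ 2 = (((2 * s + 1 : ℕ) : ℂ) ^ 2) ^ s := by
    rw [h𝓑, cb_sum, cb_det hζ]
  have hG : Cg ((((2 * s + 1 : ℕ) : ℂ) ^ 2) ^ s) ((1 ^ 2) ^ s) := ((Cg.odd ⟨s, rfl⟩).pow 2).pow s
  rw [one_pow, one_pow] at hG
  rw [hF] at hE
  rw [one_mul] at hD
  rw [hC] at hB
  have h1 := hA.add (hB.trans (hD.trans (hE.trans hG)))
  rw [zero_add] at h1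
  exact h1

theorem EE_val (hs : 0 < s) :
    padicValNat 2 (EE (Fin (2 * s + 1)) s 0) = padicValNat 2 (Nat.factorial (2 * s)) ∧
      EE (Fin (2 * s + 1)) s 0 ≠ 0 := by
  have hζ : IsPrimitiveRoot (Complex.exp (2 * Real.pi * Complex.I / ((2 * s + 1 : ℕ) : ℂ))) (2 * s + 1) :=
    Complex.isPrimitiveRoot_exp (2 * s + 1) (by omega)
  have h1 := main_sum hζ
  have h2 := z_cg hζ
  set z := ∑ m ∈ (univ : Finset (Fin (2 * s + 1))).piAntidiag (2 * s + 1),
        GG (Complex.exp (2 * Real.pi * Complex.I / ((2 * s + 1 : ℕ) : ℂ))) s m /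
          ∏ k, ((Nat.factorial (m k) : ℕ) : ℂ) with hz
  set E := EE (Fin (2 * s + 1)) s 0 with hE
  have h3 : (((2 * s + 1) ^ (2 * s + 1) * ((2 * s + 1) * E) : ℕ) : ℂ) =
      ((Nat.factorial (2 * s + 1) : ℕ) : ℂ) * z := by
    rw [h1]
    push_cast
    ring
  have h4 := val_of_cg (Nat.factorial_ne_zero (2 * s + 1)) h3 h2
  have hv2 : Fact (Nat.Prime 2) := ⟨Nat.prime_two⟩
  have hvn : ∀ t : ℕ, padicValNat 2 ((2 * s + 1) ^ t) = 0 := by
    intro t
    apply padicValNat.eq_zero_of_not_dvd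
    rw [← even_iff_two_dvd, Nat.not_even_iff_odd]
    exact Odd.pow ⟨s, rfl⟩
  have hf : padicValNat 2 (Nat.factorial (2 * s + 1)) = padicValNat 2 (Nat.factorial (2 * s)) := by
    have h5 := hvn 1
    rw [pow_one] at h5
    rw [Nat.factorial_succ, padicValNat.mul (by omega) (Nat.factorial_ne_zero _), h5, zero_add]
  have hpos : 0 < padicValNat 2 (Nat.factorial (2 * s)) := by
    have h6 : 2 ∣ Nat.factorial (2 * s) := (Nat.prime_two.dvd_factorial).mpr (by omega)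
    exact Nat.pos_of_ne_zero (by
      intro h7
      rw [padicValNat.eq_zero_iff] at h7
      rcases h7 with h8 | h8 | h8
      · omega
      · exact Nat.factorial_ne_zero _ h8
      · exact h8 h6)
  have hE0 : E ≠ 0 := by
    intro h7
    rw [h7, mul_zero, mul_zero, padicValNat_zero_right, hf] at h4
    omega
  refine ⟨?_, hE0⟩
  rw [padicValNat.mul (by positivity) (by positivity), padicValNat.mul (by positivity) hE0, hvn, hf] at h4
  have h5 := hvn 1
  rw [pow_one] at h5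
  rw [h5] at h4
  omega

end

end Pool.Agent.MP_c3d1b0
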