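import Pool.Agent.Lib.MP_c3d1b0_co.Best4

set_option autoImplicit false

/-!
# Half systems modulo a prime
-/

namespace Pool.Agent.MP_c3d1b0

open Finset

section hs

variable {p s : ℕ} [Fact p.Prime]

/-- `d` takes exactly one value from each pair `{x, -x}` of nonzero residues. -/
def HS (p s : ℕ) (d : Fin s → ZMod p) : Prop :=
  (∀ j, d j ≠ 0) ∧ ∀ x : ZMod p, x ≠ 0 → ∃! j, d j = x ∨ d j = -x

/-- The signed representative. -/
def sg (p : ℕ) {s : ℕ} (q : Fin s × Bool) : ZMod p :=
  if q.2 then (((q.1 : ℕ) + 1 : ℕ) : ZMod p) else -(((q.1 : ℕ) + 1 : ℕ) : ZMod p)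

lemma sg_ne (hp : p = 2 * s + 1) (q : Fin s × Bool) : sg p q ≠ 0 := by
  have h : (((q.1 : ℕ) + 1 : ℕ) : ZMod p) ≠ 0 := by
    rw [Ne, ZMod.natCast_eq_zero_iff]
    intro hd
    have := Nat.le_of_dvd (by omega) hd
    have := q.1.2
    omega
  unfold sg
  split_ifs
  · exact h
  · exact neg_ne_zero.mpr h

lemma sg_inj (hp : p = 2 * s + 1) : Function.Injective (sg p (s := s)) := by
  have h1 : ∀ i j : Fin s, (((i : ℕ) + 1 : ℕ) : ZMod p) = (((j : ℕ) + 1 : ℕ) : ZMod p) → i = j := by
    intro i j h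
    rw [ZMod.natCast_eq_natCast_iff'] at h
    have hi := i.2
    have hj := j.2
    rw [Nat.mod_eq_of_lt (by omega), Nat.mod_eq_of_lt (by omega)] at h
    exact Fin.ext (by omega)
  have h2 : ∀ i j : Fin s, (((i : ℕ) + 1 : ℕ) : ZMod p) ≠ -(((j : ℕ) + 1 : ℕ) : ZMod p) := by
    intro i j h
    rw [eq_neg_iff_add_eq_zero, ← Nat.cast_add, ZMod.natCast_eq_zero_iff] at h
    have := Nat.le_of_dvd (by omega) h
    have hi := i.2
    have hj := j.2
    omega
  rintro ⟨i, b⟩ ⟨j, c⟩ h
  unfold sg at h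
  cases b <;> cases c
  · simp only [Bool.false_eq_true, if_false, neg_inj] at h
    rw [h1 i j h]
  · simp only [Bool.false_eq_true, if_false, if_true] at h
    exact absurd h.symm (h2 j i)
  · simp only [Bool.false_eq_true, if_false, if_true] at h
    exact absurd h (h2 i j)
  · simp only [if_true] at h
    rw [h1 i j h]

lemma sg_not (q : Fin s × Bool) : sg p (q.1, !q.2) = - sg p q := by
  rcases q with ⟨i, b⟩
  unfold sg
  cases b <;> simp

lemma sg_surj (hp : p = 2 * s + 1) (x : ZMod p) (hx : x ≠ 0) : ∃ q : Fin s × Bool, sg p q = x := by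
  have h : (univ : Finset (Fin s × Bool)).image (sg p) = univ.erase 0 := by
    apply Finset.eq_of_subset_of_card_le
    · intro y hy
      rw [Finset.mem_image] at hy
      obtain ⟨q, _, rfl⟩ := hy
      exact Finset.mem_erase.mpr ⟨sg_ne hp q, Finset.mem_univ _⟩
    · rw [Finset.card_image_of_injective _ (sg_inj hp), Finset.card_erase_of_mem (Finset.mem_univ _),
        Finset.card_univ, Finset.card_univ, ZMod.card, Fintype.card_prod, Fintype.card_fin,
        Fintype.card_bool]
      omega
  have hx' : x ∈ (univ : Finset (ZMod p)).erase 0 := Finset.mem_erase.mpr ⟨hx, Finset.mem_univ _⟩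
  rw [← h, Finset.mem_image] at hx'
  obtain ⟨q, _, hq⟩ := hx'
  exact ⟨q, hq⟩

/-- The half system of a permutation and a choice of signs. -/
def hsd (p : ℕ) {s : ℕ} (t : Equiv.Perm (Fin s) × (Fin s → Bool)) (j : Fin s) : ZMod p :=
  sg p (t.1 j, t.2 (t.1 j))

lemma hsd_mem (hp : p = 2 * s + 1) (t : Equiv.Perm (Fin s) × (Fin s → Bool)) :
    HS p s (hsd p t) := by
  refine ⟨fun j => sg_ne hp _, fun x hx => ?_⟩
  obtain ⟨q, rfl⟩ := sg_surj hp x hx
  have key : ∀ j, (hsd p t j = sg p q ∨ hsd p t j = - sg p q) ↔ t.1 j = q.1 := by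
    intro j
    rw [← sg_not]
    unfold hsd
    constructor
    · rintro (h | h)
      · exact congrArg Prod.fst (sg_inj hp h)
      · exact congrArg Prod.fst (sg_inj hp h)
    · intro h
      rw [h]
      by_cases hb : t.2 q.1 = q.2
      · left; rw [hb]
      · right
        have : t.2 q.1 = !q.2 := by
          cases h1 : t.2 q.1 <;> cases h2 : q.2 <;> simp_all
        rw [this]
  refine ⟨t.1.symm q.1, (key _).mpr (by simp), ?_⟩
  intro j hj
  rw [← (key j).mp hj]
  simp

lemma hsd_bij (hp : p = 2 * s + 1) :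
    Function.Bijective (fun t : Equiv.Perm (Fin s) × (Fin s → Bool) =>
      (⟨hsd p t, hsd_mem hp t⟩ : {d : Fin s → ZMod p // HS p s d})) := by
  constructor
  · rintro ⟨σ, ε⟩ ⟨σ', ε'⟩ h
    have h1 := congrArg Subtype.val h
    simp only at h1
    have h2 : ∀ j, (σ j, ε (σ j)) = (σ' j, ε' (σ' j)) := fun j => sg_inj hp (congrFun h1 j)
    have h3 : σ = σ' := Equiv.ext (fun j => congrArg Prod.fst (h2 j))
    subst h3
    have h4 : ε = ε' := by
      funext i
      have := h2 (σ.symm i)
      rw [Equiv.apply_symm_apply] at this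
      exact congrArg Prod.snd this
    rw [h4]
  · rintro ⟨d, hd⟩
    choose q hq using fun j => sg_surj hp (d j) (hd.1 j)
    have hinj : Function.Injective (fun j => (q j).1) := by
      intro j j' h
      simp only at h
      obtain ⟨k, _, hk⟩ := hd.2 (d j) (hd.1 j)
      have e1 := hk j (Or.inl rfl)
      have e2 : j' = k := by
        apply hk j'
        rw [← hq j, ← hq j', ← sg_not]
        by_cases hb : (q j').2 = (q j).2
        · left
          have : q j' = q j := Prod.ext h.symm hb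
          rw [this]
        · right
          have : q j' = ((q j).1, !(q j).2) := by
            refine Prod.ext h.symm ?_
            cases h1 : (q j').2 <;> cases h2 : (q j).2 <;> simp_all
          rw [this]
      exact e1.trans e2.symm
    set σ : Equiv.Perm (Fin s) := Equiv.ofBijective _ (Finite.injective_iff_bijective.mp hinj) with hσ
    refine ⟨(σ, fun i => (q (σ.symm i)).2), Subtype.ext (funext fun j => ?_)⟩
    simp only
    unfold hsd
    simp only [Equiv.symm_apply_apply]
    have : σ j = (q j).1 := rfl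
    rw [this, ← hq j]

/-- Sums of products over half systems. -/
lemma sum_hs (hp : p = 2 * s + 1) [DecidablePred (HS p s)] (φ : ZMod p → ℂ) :
    ∑ d : {d : Fin s → ZMod p // HS p s d}, ∏ j, φ (d.1 j) =
      (Nat.factorial s : ℂ) * ∏ i : Fin s, (φ (sg p (i, true)) + φ (sg p (i, false))) := by
  rw [← (Equiv.ofBijective _ (hsd_bij hp)).sum_comp, Fintype.sum_prod_type]
  have h1 : ∀ σ : Equiv.Perm (Fin s), ∑ ε : Fin s → Bool,
      ∏ j, φ (((Equiv.ofBijective _ (hsd_bij (p := p) hp)) (σ, ε)).1 j) =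
      ∏ i : Fin s, (φ (sg p (i, true)) + φ (sg p (i, false))) := by
    intro σ
    have h2 : ∀ ε : Fin s → Bool, ∏ j, φ (((Equiv.ofBijective _ (hsd_bij (p := p) hp)) (σ, ε)).1 j) =
        ∏ i, φ (sg p (i, ε i)) := by
      intro ε
      exact Equiv.prod_comp σ (fun i => φ (sg p (i, ε i)))
    rw [Finset.sum_congr rfl (fun ε _ => h2 ε)]
    have h3 : ∏ i : Fin s, (φ (sg p (i, true)) + φ (sg p (i, false))) =
        ∏ i : Fin s, ∑ b : Bool, φ (sg p (i, b)) := by
      apply Finset.prod_congr rfl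
      intro i _
      rw [Fintype.sum_bool]
    rw [h3, Finset.prod_univ_sum]
    rw [Fintype.piFinset_univ]
  rw [Finset.sum_congr rfl (fun σ _ => h1 σ), Finset.sum_const, Finset.card_univ, Fintype.card_perm,
    Fintype.card_fin, nsmul_eq_mul]

/-- Product of `φ x` over all nonzero residues. -/
lemma prod_ne (hp : p = 2 * s + 1) (φ : ZMod p → ℂ) :
    ∏ x ∈ (univ : Finset (ZMod p)).erase 0, φ x = ∏ i : Fin s, (φ (sg p (i, true)) * φ (sg p (i, false))) := by
  have h : (univ : Finset (ZMod p)).erase 0 = (univ : Finset (Fin s × Bool)).image (sg p) := by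
    ext x
    rw [Finset.mem_image, Finset.mem_erase]
    constructor
    · rintro ⟨hx, _⟩
      obtain ⟨q, hq⟩ := sg_surj hp x hx
      exact ⟨q, Finset.mem_univ _, hq⟩
    · rintro ⟨q, _, rfl⟩
      exact ⟨sg_ne hp q, Finset.mem_univ _⟩
  rw [h, Finset.prod_image (fun a _ b _ hab => sg_inj hp hab), Fintype.prod_prod_type]
  apply Finset.prod_congr rfl
  intro i _
  rw [Fintype.prod_bool]

end hs

end Pool.Agent.MP_c3d1b0
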