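import Pool.Agent.Lib.MP_c3d1b0_co.Wief1

set_option autoImplicit false

/-!
# Distribution of the sums of half systems
-/

namespace Pool.Agent.MP_c3d1b0

open Finset

section hs2

variable {p s : ℕ} [Fact p.Prime]

/-- Number of half systems (with order) with sum `c`. -/
noncomputable def AA (p s : ℕ) (c : ZMod p) : ℕ :=
  Nat.card {d : Fin s → ZMod p // HS p s d ∧ ∑ j, d j = c}

lemma AA_smul (u : ZMod p) (hu : u ≠ 0) (c : ZMod p) : AA p s c = AA p s (u * c) := by
  unfold AA
  apply Nat.card_congr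
  have hmem : ∀ (u : ZMod p), u ≠ 0 → ∀ d : Fin s → ZMod p, HS p s d → HS p s (fun j => u * d j) := by
    intro u hu d hd
    refine ⟨fun j => mul_ne_zero hu (hd.1 j), fun x hx => ?_⟩
    obtain ⟨j, hj, hj'⟩ := hd.2 (u⁻¹ * x) (mul_ne_zero (inv_ne_zero hu) hx)
    have key : ∀ j, (u * d j = x ∨ u * d j = -x) ↔ (d j = u⁻¹ * x ∨ d j = -(u⁻¹ * x)) := by
      intro j
      rw [← mul_neg, eq_inv_mul_iff_mul_eq₀ hu, eq_inv_mul_iff_mul_eq₀ hu]
    exact ⟨j, (key j).mpr hj, fun k hk => hj' k ((key k).mp hk)⟩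
  refine ⟨fun d => ⟨fun j => u * d.1 j, hmem u hu _ d.2.1, by rw [← Finset.mul_sum, d.2.2]⟩,
    fun d => ⟨fun j => u⁻¹ * d.1 j, hmem u⁻¹ (inv_ne_zero hu) _ d.2.1,
      by rw [← Finset.mul_sum, d.2.2, inv_mul_cancel_left₀ hu]⟩,
    fun d => Subtype.ext (funext fun j => by simp [inv_mul_cancel_left₀ hu]),
    fun d => Subtype.ext (funext fun j => by simp [mul_inv_cancel_left₀ hu])⟩

lemma AA_const (c : ZMod p) (hc : c ≠ 0) : AA p s c = AA p s 1 := by
  rw [AA_smul c hc 1, mul_one]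

/-- Sum over half systems grouped by the sum. -/
lemma sum_group [DecidablePred (HS p s)] (ψ : ZMod p → ℂ) :
    ∑ d : {d : Fin s → ZMod p // HS p s d}, ψ (∑ j, d.1 j) = ∑ c : ZMod p, (AA p s c : ℂ) * ψ c := by
  rw [← Finset.sum_fiberwise (s := (univ : Finset {d : Fin s → ZMod p // HS p s d}))
    (g := fun d => ∑ j, d.1 j) (f := fun d => ψ (∑ j, d.1 j))]
  apply Finset.sum_congr rfl
  intro c _
  have h1 : ∀ d ∈ (univ : Finset {d : Fin s → ZMod p // HS p s d}).filter (fun d => ∑ j, d.1 j = c),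
      ψ (∑ j, d.1 j) = ψ c := by
    intro d hd
    rw [(Finset.mem_filter.mp hd).2]
  rw [Finset.sum_congr rfl h1, Finset.sum_const, nsmul_eq_mul]
  congr 2
  unfold AA
  rw [← Fintype.card_subtype, ← Nat.card_eq_fintype_card]
  apply Nat.card_congr
  exact (Equiv.subtypeSubtypeEquivSubtypeInter (HS p s) (fun d => ∑ j, d j = c))

/-- The additive character. -/
noncomputable def ee (p : ℕ) (x : ZMod p) : ℂ :=
  Complex.exp (2 * Real.pi * Complex.I / p * (x.val : ℂ))

lemma ee_eq_pow (x : ZMod p) : ee p x = (Complex.exp (2 * Real.pi * Complex.I / p)) ^ x.val := by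
  unfold ee
  rw [← Complex.exp_nat_mul]
  congr 1
  ring

lemma zeta_prim : IsPrimitiveRoot (Complex.exp (2 * Real.pi * Complex.I / p)) p :=
  Complex.isPrimitiveRoot_exp p (Fact.out : p.Prime).ne_zero

lemma ee_nat (n : ℕ) : ee p (n : ZMod p) = (Complex.exp (2 * Real.pi * Complex.I / p)) ^ n := by
  rw [ee_eq_pow, ZMod.val_natCast]
  have h := (zeta_prim (p := p)).pow_eq_one
  conv_rhs => rw [← Nat.mod_add_div n p, pow_add, pow_mul, h, one_pow, mul_one]

lemma ee_add (x y : ZMod p) : ee p (x + y) = ee p x * ee p y := by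
  obtain ⟨m, rfl⟩ := ZMod.natCast_zmod_surjective x
  obtain ⟨n, rfl⟩ := ZMod.natCast_zmod_surjective y
  rw [← Nat.cast_add, ee_nat, ee_nat, ee_nat, pow_add]

lemma ee_zero : ee p (0 : ZMod p) = 1 := by
  have := ee_nat (p := p) 0
  simpa using this

lemma ee_sum {ι : Type} (t : Finset ι) (f : ι → ZMod p) : ee p (∑ j ∈ t, f j) = ∏ j ∈ t, ee p (f j) := by
  classical
  induction t using Finset.induction_on with
  | empty => simp [ee_zero]
  | insert a t ha ih => rw [Finset.sum_insert ha, Finset.prod_insert ha, ee_add, ih]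

lemma ee_ne_zero (x : ZMod p) : ee p x ≠ 0 := Complex.exp_ne_zero _

lemma ee_inj {x y : ZMod p} (h : ee p x = ee p y) : x = y := by
  rw [ee_eq_pow, ee_eq_pow] at h
  have := (zeta_prim (p := p)).pow_inj (ZMod.val_lt x) (ZMod.val_lt y) h
  exact ZMod.val_injective p this

lemma ee_neg (x : ZMod p) : ee p x * ee p (-x) = 1 := by
  rw [← ee_add, add_neg_cancel, ee_zero]

lemma sum_ee : ∑ x ∈ (univ : Finset (ZMod p)).erase 0, ee p x = -1 := by
  have h1 : ∑ x : ZMod p, ee p x = 0 := by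
    have h2 : ee p 1 * ∑ x : ZMod p, ee p x = ∑ x : ZMod p, ee p x := by
      rw [Finset.mul_sum]
      rw [← Equiv.sum_comp (Equiv.addLeft (1 : ZMod p)) (fun x => ee p x)]
      apply Finset.sum_congr rfl
      intro x _
      rw [Equiv.coe_addLeft, ee_add]
    have h3 : ee p 1 ≠ 1 := by
      intro h
      rw [← ee_zero (p := p)] at h
      exact one_ne_zero (ee_inj h)
    have h4 : (ee p 1 - 1) * ∑ x : ZMod p, ee p x = 0 := by rw [sub_mul, h2, one_mul, sub_self]
    exact (mul_eq_zero.mp h4).resolve_left (sub_ne_zero.mpr h3)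
  rw [← Finset.add_sum_erase _ _ (Finset.mem_univ (0 : ZMod p)), ee_zero] at h1
  linear_combination h1

/-- The sign as an element of `ℂ`. -/
noncomputable def dl (p s : ℕ) : ℂ := ∏ i : Fin s, (ee p (sg p (i, true)) + ee p (sg p (i, false)))

lemma sg_tf (i : Fin s) : sg p (i, false) = - sg p (i, true) := by
  have := sg_not (p := p) (i, true)
  simpa using this

lemma dl_sq (hp : p = 2 * s + 1) : dl p s ^ 2 = 1 := by
  have h1 : dl p s ^ 2 = ∏ x ∈ (univ : Finset (ZMod p)).erase 0, (ee p x + ee p (-x)) := by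
    rw [prod_ne hp (fun x => ee p x + ee p (-x))]
    unfold dl
    rw [sq, ← Finset.prod_mul_distrib]
    apply Finset.prod_congr rfl
    intro i _
    rw [sg_tf, neg_neg]
    ring
  have hp2 : p ≠ 2 := by omega
  have h20 : (2 : ZMod p) ≠ 0 := by
    intro h
    have : ((2 : ℕ) : ZMod p) = 0 := by exact_mod_cast h
    rw [ZMod.natCast_eq_zero_iff] at this
    have := Nat.le_of_dvd (by norm_num) this
    have := (Fact.out : p.Prime).two_le
    omega
  have h2 : (∏ x ∈ (univ : Finset (ZMod p)).erase 0, (ee p x + ee p (-x))) *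
      (∏ x ∈ (univ : Finset (ZMod p)).erase 0, (ee p x - ee p (-x))) =
      ∏ x ∈ (univ : Finset (ZMod p)).erase 0, (ee p x - ee p (-x)) := by
    rw [← Finset.prod_mul_distrib]
    apply Finset.prod_bij (fun x _ => 2 * x)
    · intro x hx
      exact Finset.mem_erase.mpr ⟨mul_ne_zero h20 (Finset.ne_of_mem_erase hx), Finset.mem_univ _⟩
    · intro x _ y _ h
      exact mul_left_cancel₀ h20 h
    · intro y hy
      refine ⟨2⁻¹ * y, Finset.mem_erase.mpr ⟨mul_ne_zero (inv_ne_zero h20) (Finset.ne_of_mem_erase hy),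
        Finset.mem_univ _⟩, ?_⟩
      rw [mul_inv_cancel_left₀ h20]
    · intro x _
      rw [two_mul, neg_add, ee_add, ee_add]
      ring
  have h3 : (∏ x ∈ (univ : Finset (ZMod p)).erase 0, (ee p x - ee p (-x))) ≠ 0 := by
    rw [Finset.prod_ne_zero_iff]
    intro x hx h
    have h4 := ee_inj (sub_eq_zero.mp h)
    have h5 : 2 * x = 0 := by
      rw [two_mul]
      nth_rewrite 2 [h4]
      exact add_neg_cancel x
    rcases mul_eq_zero.mp h5 with h6 | h6
    · exact h20 h6
    · exact Finset.ne_of_mem_erase hx h6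
  rw [h1]
  exact mul_right_cancel₀ h3 (h2.trans (one_mul _).symm)

lemma AA_diff (hp : p = 2 * s + 1) :
    (AA p s 0 : ℂ) - (AA p s 1 : ℂ) = (Nat.factorial s : ℂ) * dl p s := by
  classical
  have h1 := sum_group (p := p) (s := s) (ee p)
  have h2 := sum_hs (p := p) hp (ee p)
  have h3 : ∑ d : {d : Fin s → ZMod p // HS p s d}, ee p (∑ j, d.1 j) =
      ∑ d : {d : Fin s → ZMod p // HS p s d}, ∏ j, ee p (d.1 j) := by
    apply Finset.sum_congr rfl
    intro d _
    rw [ee_sum]
  rw [h1, h2] at h3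
  rw [← Finset.add_sum_erase _ _ (Finset.mem_univ (0 : ZMod p)), ee_zero] at h3
  have h4 : ∑ c ∈ (univ : Finset (ZMod p)).erase 0, (AA p s c : ℂ) * ee p c =
      (AA p s 1 : ℂ) * ∑ c ∈ (univ : Finset (ZMod p)).erase 0, ee p c := by
    rw [Finset.mul_sum]
    apply Finset.sum_congr rfl
    intro c hc
    rw [AA_const c (Finset.ne_of_mem_erase hc)]
  rw [h4, sum_ee] at h3
  unfold dl
  rw [← h3]
  ring

lemma AA_total (hp : p = 2 * s + 1) :
    AA p s 0 + (p - 1) * AA p s 1 = Nat.factorial s * 2 ^ s := by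
  classical
  have h1 := sum_group (p := p) (s := s) (fun _ => 1)
  have h2 := sum_hs (p := p) hp (fun _ => 1)
  have h3 : ∑ d : {d : Fin s → ZMod p // HS p s d}, (1 : ℂ) =
      ∑ d : {d : Fin s → ZMod p // HS p s d}, ∏ j : Fin s, (1 : ℂ) := by
    apply Finset.sum_congr rfl
    intro d _
    simp
  rw [h1, h2] at h3
  rw [← Finset.add_sum_erase _ _ (Finset.mem_univ (0 : ZMod p))] at h3
  have h4 : ∑ c ∈ (univ : Finset (ZMod p)).erase 0, (AA p s c : ℂ) * 1 =
      ((p - 1 : ℕ) : ℂ) * (AA p s 1 : ℂ) := by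
    have : ∀ c ∈ (univ : Finset (ZMod p)).erase 0, (AA p s c : ℂ) * 1 = (AA p s 1 : ℂ) := by
      intro c hc
      rw [AA_const c (Finset.ne_of_mem_erase hc), mul_one]
    rw [Finset.sum_congr rfl this, Finset.sum_const, Finset.card_erase_of_mem (Finset.mem_univ _),
      Finset.card_univ, ZMod.card, nsmul_eq_mul]
  rw [h4] at h3
  have h5 : ((AA p s 0 + (p - 1) * AA p s 1 : ℕ) : ℂ) = ((Nat.factorial s * 2 ^ s : ℕ) : ℂ) := by
    push_cast
    rw [mul_one] at h3
    rw [h3]
    simp only [Finset.prod_const, Finset.card_univ, Fintype.card_fin]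
    norm_num
  exact_mod_cast h5

/-- The key relation: there is a sign `δ` with `p A₁ = s! (2^s - δ)`, and it is the Legendre symbol. -/
lemma AA_main (hp : p = 2 * s + 1) :
    ((AA p s 0 : ℤ) - (AA p s 1 : ℤ) = (Nat.factorial s : ℤ) * legendreSym p 2) ∧
    ((p : ℤ) * AA p s 1 = (Nat.factorial s : ℤ) * (2 ^ s - legendreSym p 2)) := by
  have hpp : p.Prime := Fact.out
  have hpos : (Nat.factorial s : ℂ) ≠ 0 := by exact_mod_cast (Nat.factorial_pos s).ne'
  have hd := AA_diff (p := p) (s := s) hp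
  have ht := AA_total (p := p) (s := s) hp
  have hsq := dl_sq (p := p) (s := s) hp
  have hcase : dl p s = 1 ∨ dl p s = -1 := by
    have h0 : (dl p s - 1) * (dl p s + 1) = 0 := by linear_combination hsq
    rcases mul_eq_zero.mp h0 with h | h
    · exact Or.inl (sub_eq_zero.mp h)
    · exact Or.inr (eq_neg_of_add_eq_zero_left h)
  have key : ∃ δ : ℤ, (δ = 1 ∨ δ = -1) ∧ ((AA p s 0 : ℤ) - (AA p s 1 : ℤ) = (Nat.factorial s : ℤ) * δ) := by
    rcases hcase with h | h
    · refine ⟨1, Or.inl rfl, ?_⟩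
      rw [h] at hd
      exact_mod_cast hd
    · refine ⟨-1, Or.inr rfl, ?_⟩
      rw [h] at hd
      exact_mod_cast hd
  obtain ⟨δ, hδ, hδ2⟩ := key
  have h1 : (p : ℤ) * AA p s 1 = (Nat.factorial s : ℤ) * (2 ^ s - δ) := by
    have h2 : ((AA p s 0 : ℤ) + ((p : ℤ) - 1) * AA p s 1) = (Nat.factorial s : ℤ) * 2 ^ s := by
      have : ((p - 1 : ℕ) : ℤ) = (p : ℤ) - 1 := by
        rw [Nat.cast_sub hpp.one_le]; simp
      rw [← this]
      exact_mod_cast ht
    linear_combination h2 - hδ2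
  have hcop : IsCoprime (p : ℤ) (Nat.factorial s : ℤ) := by
    rw [Nat.isCoprime_iff_coprime, Nat.Prime.coprime_iff_not_dvd hpp, hpp.dvd_factorial]
    omega
  have h3 : (p : ℤ) ∣ 2 ^ s - δ := by
    apply hcop.dvd_of_dvd_mul_left
    exact ⟨_, h1.symm⟩
  have h4 : legendreSym p 2 = δ := by
    have h5 := legendreSym.eq_pow p 2
    have h6 : p / 2 = s := by omega
    rw [h6] at h5
    have h7 : ((legendreSym p 2 : ℤ) : ZMod p) = ((δ : ℤ) : ZMod p) := by
      rw [h5]
      have := (ZMod.intCast_zmod_eq_zero_iff_dvd (2 ^ s - δ) p).mpr h3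
      push_cast at this
      rw [sub_eq_zero] at this
      rw [← this]
      norm_num
    have h20 : (2 : ZMod p) ≠ 0 := by
      intro h
      have h8 : ((2 : ℕ) : ZMod p) = 0 := by exact_mod_cast h
      rw [ZMod.natCast_eq_zero_iff] at h8
      have := Nat.le_of_dvd (by norm_num) h8
      have := hpp.two_le
      omega
    have h9 : legendreSym p 2 = 1 ∨ legendreSym p 2 = -1 :=
      legendreSym.eq_one_or_neg_one p (by exact_mod_cast h20)
    rcases h9 with h9 | h9 <;> rcases hδ with h10 | h10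
    · rw [h9, h10]
    · exfalso
      rw [h9, h10] at h7
      apply h20
      push_cast at h7
      linear_combination h7
    · exfalso
      rw [h9, h10] at h7
      apply h20
      push_cast at h7
      linear_combination -h7
    · rw [h9, h10]
  rw [h4]
  exact ⟨hδ2, h1⟩

end hs2

end Pool.Agent.MP_c3d1b0
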