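import Pool.Agent.Lib.MP_c3d1b0_co.Wief2

set_option autoImplicit false

/-!
# Cyclic walks and their symmetries
-/

namespace Pool.Agent.MP_c3d1b0

open Finset

/-- Cyclic Eulerian walks. -/
def CW (V : Type) (m : ℕ) : Set (ZMod m → V) := {c | Cov c (fun i => c (i + 1))}

lemma val_succ {m : ℕ} [NeZero m] (hm : 1 < m) (i : ZMod m) :
    (i + 1).val = if i.val + 1 = m then 0 else i.val + 1 := by
  haveI : Fact (1 < m) := ⟨hm⟩
  have h := ZMod.val_lt i
  rw [ZMod.val_add, ZMod.val_one]
  split_ifs with h1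
  · rw [h1, Nat.mod_self]
  · exact Nat.mod_eq_of_lt (by omega)

lemma card_ww_cw {V : Type} {m : ℕ} (hm : 1 < m) : Nat.card (WW V m) = Nat.card (CW V m) := by
  haveI : NeZero m := ⟨by omega⟩
  apply Nat.card_congr
  have hsucc : ∀ (w : WW V m) (i : ZMod m), w.1 ⟨(i + 1).val, (ZMod.val_lt _).trans (Nat.lt_succ_self m)⟩ =
      w.1 (Fin.succ ⟨i.val, ZMod.val_lt i⟩) := by
    intro w i
    have h1 := val_succ hm i
    by_cases h2 : i.val + 1 = m
    · rw [if_pos h2] at h1
      have e1 : (⟨(i + 1).val, (ZMod.val_lt _).trans (Nat.lt_succ_self m)⟩ : Fin (m + 1)) = 0 :=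
        Fin.ext h1
      have e2 : (Fin.succ ⟨i.val, ZMod.val_lt i⟩ : Fin (m + 1)) = Fin.last m :=
        Fin.ext (by simp [h2])
      rw [e1, e2]
      exact w.2.1
    · rw [if_neg h2] at h1
      have e1 : (⟨(i + 1).val, (ZMod.val_lt _).trans (Nat.lt_succ_self m)⟩ : Fin (m + 1)) =
          Fin.succ ⟨i.val, ZMod.val_lt i⟩ := Fin.ext (by simp [h1])
      rw [e1]
  refine ⟨fun w => ⟨fun i => w.1 ⟨i.val, (ZMod.val_lt i).trans (Nat.lt_succ_self m)⟩, ?_⟩,
    fun c => ⟨fun i => c.1 ((i : ℕ) : ZMod m), ?_, ?_⟩, ?_, ?_⟩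
  · intro a b hab
    obtain ⟨i, hi, hi'⟩ := w.2.2 a b hab
    refine ⟨((i : ℕ) : ZMod m), ?_, ?_⟩
    · simp only
      rw [hsucc w]
      have : (⟨((i : ℕ) : ZMod m).val, ZMod.val_lt _⟩ : Fin m) = i :=
        Fin.ext (ZMod.val_cast_of_lt i.2)
      have h3 : (⟨((i : ℕ) : ZMod m).val, (ZMod.val_lt _).trans (Nat.lt_succ_self m)⟩ : Fin (m + 1)) =
        i.castSucc := Fin.ext (ZMod.val_cast_of_lt i.2)
      rw [this, h3]
      exact hi
    · intro j hj
      simp only at hj
      rw [hsucc w] at hj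
      have := hi' ⟨j.val, ZMod.val_lt j⟩ hj
      rw [← this]
      exact (ZMod.natCast_zmod_val j).symm
  · simp
  · intro a b hab
    obtain ⟨i, hi, hi'⟩ := c.2 a b hab
    have hc : ∀ j : Fin m, c.1 (((j.succ : Fin (m + 1)) : ℕ) : ZMod m) = c.1 (((j : ℕ) : ZMod m) + 1) := by
      intro j
      simp
    refine ⟨⟨i.val, ZMod.val_lt i⟩, ?_, ?_⟩
    · simp only
      rw [hc]
      simp only [Fin.val_castSucc, ZMod.natCast_zmod_val]
      exact hi
    · intro j hj
      simp only at hj
      rw [hc] at hj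
      have := hi' ((j : ℕ) : ZMod m) hj
      apply Fin.ext
      simp only
      rw [← this, ZMod.val_cast_of_lt j.2]
  · intro w
    apply Subtype.ext
    funext i
    simp only
    by_cases hi : (i : ℕ) < m
    · have : (⟨((i : ℕ) : ZMod m).val, (ZMod.val_lt _).trans (Nat.lt_succ_self m)⟩ : Fin (m + 1)) = i :=
        Fin.ext (ZMod.val_cast_of_lt hi)
      rw [this]
    · have h1 : i = Fin.last m := Fin.ext (by have := i.2; simp; omega)
      subst h1
      have : (⟨(((Fin.last m : Fin (m + 1)) : ℕ) : ZMod m).val, (ZMod.val_lt _).trans (Nat.lt_succ_self m)⟩ : Fin (m + 1)) = 0 :=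
        Fin.ext (by simp)
      rw [this]
      exact w.2.1
  · intro c
    apply Subtype.ext
    funext i
    simp

lemma free_dvd {G X : Type} [Group G] [MulAction G X] [Finite G] [Finite X]
    (h : ∀ (g : G) (x : X), g • x = x → g = 1) : Nat.card G ∣ Nat.card X := by
  classical
  haveI := Fintype.ofFinite G
  haveI := Fintype.ofFinite X
  haveI := Fintype.ofFinite (Quotient (MulAction.orbitRel G X))
  rw [Nat.card_eq_fintype_card, Nat.card_eq_fintype_card]
  rw [MulAction.card_eq_sum_card_group_div_card_stabilizer G X]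
  apply Finset.dvd_sum
  intro ω _
  have h1 : Fintype.card (MulAction.stabilizer G ω.out) = 1 := by
    rw [Fintype.card_eq_one_iff]
    refine ⟨1, ?_⟩
    rintro ⟨g, hg⟩
    exact Subtype.ext (h g _ hg)
  rw [h1, Nat.div_one]

section act

variable {p s : ℕ} [Fact p.Prime]

/-- Walks with a translation symmetry. -/
def YY (p s m : ℕ) (c : ZMod m → ZMod p) : Prop :=
  ∃ c₀ : ZMod p, c₀ ≠ 0 ∧ ∀ i, c (i + (s : ZMod m)) = c i + c₀

/-- Walks without translation symmetry. -/
def XX (p s m : ℕ) : Set (ZMod m → ZMod p) := {c | c ∈ CW (ZMod p) m ∧ ¬ YY p s m c}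

lemma act_mem {m : ℕ} (a : ZMod m) (b : ZMod p) {c : ZMod m → ZMod p} (hc : c ∈ XX p s m) :
    (fun i => c (i + a) + b) ∈ XX p s m := by
  refine ⟨?_, ?_⟩
  · intro x y hxy
    obtain ⟨i, hi, hi'⟩ := hc.1 (x - b) (y - b) (fun h => hxy (sub_left_injective h))
    refine ⟨i - a, ?_, ?_⟩
    · simp only
      rw [sub_add_cancel, show i - a + 1 + a = i + 1 by ring]
      simp only [← eq_sub_iff_add_eq]
      exact hi
    · intro j hj
      simp only at hj
      rw [show j + 1 + a = j + a + 1 by ring] at hj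
      simp only [← eq_sub_iff_add_eq] at hj
      rw [← hi' (j + a) hj]
      ring
  · rintro ⟨c₀, hc0, h⟩
    apply hc.2
    refine ⟨c₀, hc0, fun i => ?_⟩
    have h1 := h (i - a)
    simp only at h1
    rw [sub_add_cancel, show i - a + (s : ZMod m) + a = i + (s : ZMod m) by ring] at h1
    linear_combination h1

/-- Rotations and translations. -/
instance actXX {m : ℕ} : MulAction (Multiplicative (ZMod m × ZMod p)) (XX p s m) where
  smul g c := ⟨fun i => c.1 (i + (Multiplicative.toAdd g).1) + (Multiplicative.toAdd g).2,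
    act_mem _ _ c.2⟩
  one_smul c := by
    apply Subtype.ext
    funext i
    show c.1 (i + 0) + 0 = c.1 i
    rw [add_zero, add_zero]
  mul_smul g h c := by
    apply Subtype.ext
    funext i
    show c.1 (i + ((Multiplicative.toAdd g).1 + (Multiplicative.toAdd h).1)) +
      ((Multiplicative.toAdd g).2 + (Multiplicative.toAdd h).2) =
      c.1 (i + (Multiplicative.toAdd g).1 + (Multiplicative.toAdd h).1) + (Multiplicative.toAdd h).2 +
        (Multiplicative.toAdd g).2
    rw [← add_assoc]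
    ring

lemma act_free (hp : p = 2 * s + 1) (hs : 0 < s)
    (g : Multiplicative (ZMod (s * (2 * s + 1)) × ZMod p)) (c : XX p s (s * (2 * s + 1)))
    (h : g • c = c) : g = 1 := by
  have hpp : p.Prime := Fact.out
  haveI : NeZero (s * (2 * s + 1)) := ⟨by positivity⟩
  set a := (Multiplicative.toAdd g).1 with ha
  set b := (Multiplicative.toAdd g).2 with hb
  have h1 : ∀ i, c.1 (i + a) + b = c.1 i := fun i => congrFun (congrArg Subtype.val h) i
  have hmul : ∀ (n : ℕ) (i : ZMod (s * (2 * s + 1))), c.1 (i + n * a) + n * b = c.1 i := by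
    intro n
    induction n with
    | zero => intro i; simp
    | succ n ih =>
      intro i
      rw [← ih i, ← h1 (i + n * a)]
      push_cast
      rw [show i + ((n : ZMod (s * (2 * s + 1))) + 1) * a = i + n * a + a by ring]
      ring
  have hcov := c.2.1
  have hnl := cov_noloop (V := ZMod p) (I := ZMod (s * (2 * s + 1))) (s := s)
    (by rw [ZMod.card, hp]) (by rw [ZMod.card]) hcov
  -- if `b = 0` then `a = 0`
  have hb0 : ∀ a' : ZMod (s * (2 * s + 1)), (∀ i, c.1 (i + a') = c.1 i) → a' = 0 := by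
    intro a' ha'
    obtain ⟨i, _, hi⟩ := hcov (c.1 0) (c.1 (0 + 1)) (hnl 0)
    have e1 := hi 0 (Or.inl ⟨rfl, rfl⟩)
    have e2 := hi (0 + a') (Or.inl ⟨ha' 0, by
      show c.1 (0 + a' + 1) = c.1 (0 + 1)
      rw [show (0 : ZMod (s * (2 * s + 1))) + a' + 1 = (0 + 1) + a' by ring]
      exact ha' _⟩)
    rw [← e1, zero_add] at e2
    exact e2
  by_contra hne
  have hbne : b ≠ 0 := by
    intro hb'
    apply hne
    have : a = 0 := hb0 a (fun i => by have := h1 i; rw [hb', add_zero] at this; exact this)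
    have h2 : Multiplicative.toAdd g = 0 := Prod.ext this hb'
    exact h2
  have hpa : (p : ZMod (s * (2 * s + 1))) * a = 0 := by
    apply hb0
    intro i
    have := hmul p i
    rw [ZMod.natCast_self, zero_mul, add_zero] at this
    exact this
  have hane : a ≠ 0 := by
    intro ha'
    have := h1 0
    rw [ha', add_zero] at this
    apply hbne
    linear_combination this
  -- `a` is a multiple of `s`
  have hdvd : s ∣ a.val := by
    have h3 : ((p * a.val : ℕ) : ZMod (s * (2 * s + 1))) = 0 := by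
      push_cast
      rw [ZMod.natCast_zmod_val]
      exact hpa
    rw [ZMod.natCast_eq_zero_iff] at h3
    have e : p * s = s * (2 * s + 1) := by rw [hp]; ring
    have h4 : p * s ∣ p * a.val := by rw [e]; exact h3
    exact Nat.dvd_of_mul_dvd_mul_left hpp.pos h4
  obtain ⟨a', ha'⟩ := hdvd
  have ha'p : ¬ p ∣ a' := by
    rintro ⟨k, hk⟩
    have h5 : a.val < s * (2 * s + 1) := ZMod.val_lt a
    rw [ha', hk, ← hp] at h5
    have h6 : k = 0 := by
      by_contra hk0
      have : 1 ≤ k := Nat.one_le_iff_ne_zero.mpr hk0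
      have : s * p ≤ s * (p * k) := Nat.mul_le_mul_left s (Nat.le_mul_of_pos_right p (by omega))
      omega
    apply hane
    rw [← ZMod.val_eq_zero, ha', hk, h6]
    simp
  have hcop : Nat.Coprime a' p := ((Nat.Prime.coprime_iff_not_dvd hpp).mpr ha'p).symm
  obtain ⟨t, ht⟩ : ∃ t : ℕ, t * a' ≡ 1 [MOD p] := by
    have hu : IsUnit (a' : ZMod p) := (ZMod.isUnit_iff_coprime a' p).mpr hcop
    obtain ⟨v, hv⟩ := hu.exists_left_inv
    refine ⟨v.val, ?_⟩
    rw [← ZMod.natCast_eq_natCast_iff]
    push_cast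
    rw [ZMod.natCast_zmod_val]
    exact hv
  have hta : (t : ZMod (s * (2 * s + 1))) * a = (s : ZMod (s * (2 * s + 1))) := by
    have h7 : ((t * a.val : ℕ) : ZMod (s * (2 * s + 1))) = ((s : ℕ) : ZMod (s * (2 * s + 1))) := by
      rw [ZMod.natCast_eq_natCast_iff, ha']
      have h8 : s * (t * a') ≡ s * 1 [MOD s * (2 * s + 1)] := by
        apply Nat.ModEq.mul_left'
        rw [← hp]
        exact ht
      rw [mul_one] at h8
      rw [show t * (s * a') = s * (t * a') by ring]
      exact h8
    push_cast at h7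
    rw [ZMod.natCast_zmod_val] at h7
    exact h7
  apply c.2.2
  refine ⟨-((t : ZMod p) * b), ?_, ?_⟩
  · rw [neg_ne_zero]
    apply mul_ne_zero _ hbne
    intro ht0
    have := (ZMod.natCast_eq_natCast_iff _ _ _).mpr ht
    push_cast at this
    rw [ht0, zero_mul] at this
    exact zero_ne_one this
  · intro i
    have := hmul t i
    rw [hta] at this
    linear_combination this

end act

end Pool.Agent.MP_c3d1b0
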