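import Pool.Agent.Lib.MP_c3d1b0_co.Wief3

set_option autoImplicit false

/-!
# Counting the walks with a translation symmetry
-/

namespace Pool.Agent.MP_c3d1b0

open Finset

lemma cov_equiv {V I J : Type} (e : J ≃ I) (x y : I → V) :
    Cov x y ↔ Cov (fun j => x (e j)) (fun j => y (e j)) := by
  constructor
  · intro h a b hab
    obtain ⟨i, hi, hi'⟩ := h a b hab
    refine ⟨e.symm i, by simpa using hi, ?_⟩
    intro j hj
    rw [← hi' (e j) hj]
    simp
  · intro h a b hab
    obtain ⟨j, hj, hj'⟩ := h a b hab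
    refine ⟨e j, hj, ?_⟩
    intro i hi
    have := hj' (e.symm i) (by simpa using hi)
    rw [← this]
    simp

section

variable {p s : ℕ} [Fact p.Prime]

lemma cov_hs (hp : p = 2 * s + 1) (hs : 0 < s) {c₀ : ZMod p} (hc : c₀ ≠ 0) (C d : Fin s → ZMod p) :
    Cov (fun q : ZMod p × Fin s => C q.2 + q.1 * c₀) (fun q => C q.2 + d q.2 + q.1 * c₀) ↔
      HS p s d := by
  have h20 : (2 : ZMod p) ≠ 0 := by
    intro h
    have h8 : ((2 : ℕ) : ZMod p) = 0 := by exact_mod_cast h
    rw [ZMod.natCast_eq_zero_iff] at h8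
    have := Nat.le_of_dvd (by norm_num) h8
    omega
  constructor
  · intro h
    have hnl := cov_noloop (V := ZMod p) (I := ZMod p × Fin s) (s := s)
      (by rw [ZMod.card, hp]) (by rw [Fintype.card_prod, ZMod.card, Fintype.card_fin, hp]; ring) h
    refine ⟨fun j hj => hnl (0, j) (by simp [hj]), ?_⟩
    intro x hx
    obtain ⟨q, hq, hq'⟩ := h 0 x (Ne.symm hx)
    simp only at hq
    refine ⟨q.2, ?_, ?_⟩
    · rcases hq with ⟨e1, e2⟩ | ⟨e1, e2⟩
      · left; linear_combination e2 - e1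
      · right; linear_combination e2 - e1
    · intro j hj
      rcases hj with hj | hj
      · have h1 : (-(C j) * c₀⁻¹) * c₀ = -(C j) := by rw [mul_assoc, inv_mul_cancel₀ hc, mul_one]
        have := hq' (-(C j) * c₀⁻¹, j) (Or.inl ⟨by simp only; rw [h1]; ring, by
          simp only; rw [h1, hj]; ring⟩)
        rw [← this]
      · have h1 : ((x - C j) * c₀⁻¹) * c₀ = x - C j := by rw [mul_assoc, inv_mul_cancel₀ hc, mul_one]
        have := hq' ((x - C j) * c₀⁻¹, j) (Or.inr ⟨by simp only; rw [h1]; ring, by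
          simp only; rw [h1, hj]; ring⟩)
        rw [← this]
  · intro h a b hab
    have hx : b - a ≠ 0 := sub_ne_zero.mpr (Ne.symm hab)
    obtain ⟨j, hj, hj'⟩ := h.2 (b - a) hx
    have hxx : b - a ≠ -(b - a) := by
      intro h1
      have : 2 * (b - a) = 0 := by linear_combination h1
      rcases mul_eq_zero.mp this with h2 | h2
      · exact h20 h2
      · exact hx h2
    rcases hj with hj | hj
    · have h1 : ((a - C j) * c₀⁻¹) * c₀ = a - C j := by rw [mul_assoc, inv_mul_cancel₀ hc, mul_one]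
      refine ⟨((a - C j) * c₀⁻¹, j), Or.inl ⟨by simp only; rw [h1]; ring, by
        simp only; rw [h1, hj]; ring⟩, ?_⟩
      rintro ⟨t', j'⟩ hq
      simp only at hq
      have hjj : j' = j := by
        apply hj'
        rcases hq with ⟨e1, e2⟩ | ⟨e1, e2⟩
        · left; linear_combination e2 - e1
        · right; linear_combination e2 - e1
      subst hjj
      rcases hq with ⟨e1, e2⟩ | ⟨e1, e2⟩
      · have : t' * c₀ = a - C j' := by linear_combination e1
        rw [← this, mul_assoc, mul_inv_cancel₀ hc, mul_one]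
      · exfalso
        apply hxx
        rw [← hj]
        linear_combination hj + e2 - e1
    · have h1 : ((b - C j) * c₀⁻¹) * c₀ = b - C j := by rw [mul_assoc, inv_mul_cancel₀ hc, mul_one]
      refine ⟨((b - C j) * c₀⁻¹, j), Or.inr ⟨by simp only; rw [h1]; ring, by
        simp only; rw [h1, hj]; ring⟩, ?_⟩
      rintro ⟨t', j'⟩ hq
      simp only at hq
      have hjj : j' = j := by
        apply hj'
        rcases hq with ⟨e1, e2⟩ | ⟨e1, e2⟩
        · left; linear_combination e2 - e1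
        · right; linear_combination e2 - e1
      subst hjj
      rcases hq with ⟨e1, e2⟩ | ⟨e1, e2⟩
      · exfalso
        apply hxx
        rw [← hj]
        linear_combination e1 - e2
      · have : t' * c₀ = b - C j' := by linear_combination e1
        rw [← this, mul_assoc, mul_inv_cancel₀ hc, mul_one]

/-- Positions of the cyclic walk. -/
noncomputable def pos (hp : p = 2 * s + 1) (hs : 0 < s) : ZMod p × Fin s ≃ ZMod (s * (2 * s + 1)) :=
  Equiv.ofBijective (fun q => (((q.2 : ℕ) + s * q.1.val : ℕ) : ZMod (s * (2 * s + 1)))) (by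
    haveI : NeZero (s * (2 * s + 1)) := ⟨by positivity⟩
    rw [Fintype.bijective_iff_injective_and_card]
    constructor
    · rintro ⟨t, j⟩ ⟨t', j'⟩ h
      simp only at h
      have hb : ∀ (t : ZMod p) (j : Fin s), (j : ℕ) + s * t.val < s * (2 * s + 1) := by
        intro t j
        have h1 := ZMod.val_lt t
        have h2 := j.2
        have h3 : s * t.val ≤ s * (2 * s) := Nat.mul_le_mul_left s (by omega)
        have h4 : s * (2 * s + 1) = s * (2 * s) + s := by ring
        omega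
      rw [ZMod.natCast_eq_natCast_iff', Nat.mod_eq_of_lt (hb t j), Nat.mod_eq_of_lt (hb t' j')] at h
      have h5 : (j : ℕ) = j' := by
        have := congrArg (· % s) h
        simp only [Nat.add_mul_mod_self_left] at this
        rw [Nat.mod_eq_of_lt j.2, Nat.mod_eq_of_lt j'.2] at this
        exact this
      have h6 : t.val = t'.val := by
        rw [h5] at h
        exact Nat.eq_of_mul_eq_mul_left hs (Nat.add_left_cancel h)
      rw [ZMod.val_injective p h6, Fin.ext h5]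
    · rw [Fintype.card_prod, ZMod.card, ZMod.card, Fintype.card_fin, hp]
      ring)

lemma pos_apply (hp : p = 2 * s + 1) (hs : 0 < s) (q : ZMod p × Fin s) :
    pos hp hs q = (((q.2 : ℕ) + s * q.1.val : ℕ) : ZMod (s * (2 * s + 1))) := rfl

lemma yy_mul {m : ℕ} {c : ZMod m → ZMod p} {c₀ : ZMod p} (h : ∀ i, c (i + (s : ZMod m)) = c i + c₀)
    (n : ℕ) (i : ZMod m) : c (i + (s : ZMod m) * (n : ZMod m)) = c i + n * c₀ := by
  induction n with
  | zero => simp
  | succ n ih =>
    push_cast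
    rw [show i + (s : ZMod m) * ((n : ZMod m) + 1) = i + (s : ZMod m) * n + (s : ZMod m) by ring, h, ih]
    ring

/-- Differences. -/
def dif (s : ℕ) {m : ℕ} (c : ZMod m → ZMod p) (j : Fin s) : ZMod p :=
  c (((j : ℕ) : ZMod m) + 1) - c ((j : ℕ) : ZMod m)

lemma cw_iff (hp : p = 2 * s + 1) (hs : 0 < s) {c : ZMod (s * (2 * s + 1)) → ZMod p} {c₀ : ZMod p}
    (hc : c₀ ≠ 0) (h : ∀ i, c (i + (s : ZMod (s * (2 * s + 1)))) = c i + c₀) :
    c ∈ CW (ZMod p) (s * (2 * s + 1)) ↔ HS p s (dif s c) := by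
  rw [← cov_hs hp hs hc (fun j => c ((j : ℕ) : ZMod (s * (2 * s + 1)))) (dif s c)]
  show Cov c (fun i => c (i + 1)) ↔ _
  rw [cov_equiv (pos hp hs)]
  have e1 : (fun q => c (pos hp hs q)) = (fun q : ZMod p × Fin s =>
      c ((q.2 : ℕ) : ZMod (s * (2 * s + 1))) + q.1 * c₀) := by
    funext q
    rw [pos_apply]
    push_cast
    rw [yy_mul h, ZMod.natCast_zmod_val]
  have e2 : (fun q => c (pos hp hs q + 1)) = (fun q : ZMod p × Fin s =>
      c ((q.2 : ℕ) : ZMod (s * (2 * s + 1))) + dif s c q.2 + q.1 * c₀) := by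
    funext q
    rw [pos_apply]
    push_cast
    rw [show (((q.2 : ℕ) : ZMod (s * (2 * s + 1))) + (s : ZMod (s * (2 * s + 1))) *
      (q.1.val : ZMod (s * (2 * s + 1))) + 1) = (((q.2 : ℕ) : ZMod (s * (2 * s + 1))) + 1) +
      (s : ZMod (s * (2 * s + 1))) * (q.1.val : ZMod (s * (2 * s + 1))) by ring, yy_mul h,
      ZMod.natCast_zmod_val]
    unfold dif
    ring
  rw [e1, e2]

/-- Partial sums. -/
def SS (hs : 0 < s) (d : Fin s → ZMod p) (n : ℕ) : ZMod p :=
  ∑ l ∈ range n, d ⟨l % s, Nat.mod_lt _ hs⟩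

lemma SS_succ (hs : 0 < s) (d : Fin s → ZMod p) (n : ℕ) :
    SS hs d (n + 1) = SS hs d n + d ⟨n % s, Nat.mod_lt _ hs⟩ := by
  unfold SS
  rw [Finset.sum_range_succ]

lemma SS_s (hs : 0 < s) (d : Fin s → ZMod p) : SS hs d s = ∑ j, d j := by
  unfold SS
  rw [Finset.sum_range]
  apply Finset.sum_congr rfl
  intro j _
  have : (⟨(j : ℕ) % s, Nat.mod_lt _ hs⟩ : Fin s) = j := Fin.ext (Nat.mod_eq_of_lt j.2)
  rw [this]

lemma SS_add (hs : 0 < s) (d : Fin s → ZMod p) (n : ℕ) : SS hs d (n + s) = SS hs d n + ∑ j, d j := by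
  induction n with
  | zero => rw [zero_add, SS_s]; simp [SS]
  | succ n ih =>
    rw [show n + 1 + s = (n + s) + 1 by ring, SS_succ, ih, SS_succ]
    have : (⟨(n + s) % s, Nat.mod_lt _ hs⟩ : Fin s) = ⟨n % s, Nat.mod_lt _ hs⟩ :=
      Fin.ext (by simp)
    rw [this]
    ring

lemma SS_mul (hs : 0 < s) (d : Fin s → ZMod p) (n t : ℕ) :
    SS hs d (n + s * t) = SS hs d n + t * ∑ j, d j := by
  induction t with
  | zero => simp
  | succ t ih =>
    rw [show n + s * (t + 1) = (n + s * t) + s by ring, SS_add, ih]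
    push_cast
    ring

lemma SS_mod (hp : p = 2 * s + 1) (hs : 0 < s) (d : Fin s → ZMod p) (n : ℕ) :
    SS hs d (n % (s * (2 * s + 1))) = SS hs d n := by
  have h1 := SS_mul hs d (n % (s * (2 * s + 1))) ((2 * s + 1) * (n / (s * (2 * s + 1))))
  have h2 : n % (s * (2 * s + 1)) + s * ((2 * s + 1) * (n / (s * (2 * s + 1)))) = n := by
    rw [← mul_assoc]
    exact Nat.mod_add_div _ _
  rw [h2] at h1
  have h3 : (((2 * s + 1) * (n / (s * (2 * s + 1))) : ℕ) : ZMod p) = 0 := by
    rw [Nat.cast_mul, ← hp, ZMod.natCast_self, zero_mul]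
  rw [h3, zero_mul, add_zero] at h1
  exact h1.symm

/-- The cyclic walk of a starting point and differences. -/
def bld (hs : 0 < s) (v : ZMod p) (d : Fin s → ZMod p) (i : ZMod (s * (2 * s + 1))) : ZMod p :=
  v + SS hs d i.val

lemma bld_nat (hp : p = 2 * s + 1) (hs : 0 < s) (v : ZMod p) (d : Fin s → ZMod p) (n : ℕ) :
    bld hs v d ((n : ℕ) : ZMod (s * (2 * s + 1))) = v + SS hs d n := by
  unfold bld
  rw [ZMod.val_natCast, SS_mod hp hs]

lemma bld_yy (hp : p = 2 * s + 1) (hs : 0 < s) (v : ZMod p) (d : Fin s → ZMod p)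
    (i : ZMod (s * (2 * s + 1))) :
    bld hs v d (i + (s : ZMod (s * (2 * s + 1)))) = bld hs v d i + ∑ j, d j := by
  haveI : NeZero (s * (2 * s + 1)) := ⟨by positivity⟩
  obtain ⟨n, rfl⟩ := ZMod.natCast_zmod_surjective i
  rw [← Nat.cast_add, bld_nat hp, bld_nat hp, SS_add]
  ring

lemma bld_dif (hp : p = 2 * s + 1) (hs : 0 < s) (v : ZMod p) (d : Fin s → ZMod p) :
    dif s (bld hs v d) = d := by
  funext j
  unfold dif
  have h1 : (((j : ℕ) : ZMod (s * (2 * s + 1))) + 1) = (((j : ℕ) + 1 : ℕ) : ZMod (s * (2 * s + 1))) := by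
    push_cast; ring
  rw [h1, bld_nat hp, bld_nat hp, SS_succ]
  have : (⟨(j : ℕ) % s, Nat.mod_lt _ hs⟩ : Fin s) = j := Fin.ext (Nat.mod_eq_of_lt j.2)
  rw [this]
  ring

lemma dif_bld (hs : 0 < s) {c : ZMod (s * (2 * s + 1)) → ZMod p} {c₀ : ZMod p}
    (h : ∀ i, c (i + (s : ZMod (s * (2 * s + 1)))) = c i + c₀) (n : ℕ) :
    c ((n : ℕ) : ZMod (s * (2 * s + 1))) = c 0 + SS hs (dif s c) n := by
  induction n with
  | zero => simp [SS]
  | succ n ih =>
    rw [SS_succ, ← add_assoc, ← ih]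
    unfold dif
    simp only
    have h1 : ((n : ℕ) : ZMod (s * (2 * s + 1))) = ((n % s : ℕ) : ZMod (s * (2 * s + 1))) +
        (s : ZMod (s * (2 * s + 1))) * ((n / s : ℕ) : ZMod (s * (2 * s + 1))) := by
      have h9 := congrArg (fun x : ℕ => (x : ZMod (s * (2 * s + 1)))) (Nat.mod_add_div n s)
      push_cast at h9
      exact h9.symm
    have h2 : c ((n : ℕ) : ZMod (s * (2 * s + 1))) = c ((n % s : ℕ) : ZMod (s * (2 * s + 1))) +
        (n / s : ℕ) * c₀ := by
      rw [h1, yy_mul h]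
    have h3 : c (((n + 1 : ℕ) : ℕ) : ZMod (s * (2 * s + 1))) =
        c (((n % s : ℕ) : ZMod (s * (2 * s + 1))) + 1) + (n / s : ℕ) * c₀ := by
      push_cast
      rw [h1, show ((n % s : ℕ) : ZMod (s * (2 * s + 1))) +
        (s : ZMod (s * (2 * s + 1))) * ((n / s : ℕ) : ZMod (s * (2 * s + 1))) + 1 =
        (((n % s : ℕ) : ZMod (s * (2 * s + 1))) + 1) +
        (s : ZMod (s * (2 * s + 1))) * ((n / s : ℕ) : ZMod (s * (2 * s + 1))) by ring, yy_mul h]
    rw [h3, h2]
    ring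

lemma dif_sum (hs : 0 < s) {c : ZMod (s * (2 * s + 1)) → ZMod p} {c₀ : ZMod p}
    (h : ∀ i, c (i + (s : ZMod (s * (2 * s + 1)))) = c i + c₀) : ∑ j, dif s c j = c₀ := by
  have h1 := dif_bld hs h s
  rw [SS_s] at h1
  have h2 := h 0
  rw [zero_add] at h2
  rw [h2] at h1
  exact (add_left_cancel h1).symm

/-- The number of cyclic walks with a translation symmetry. -/
theorem card_yy (hp : p = 2 * s + 1) (hs : 0 < s) :
    Nat.card {c : ZMod (s * (2 * s + 1)) → ZMod p // c ∈ CW (ZMod p) (s * (2 * s + 1)) ∧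
      YY p s (s * (2 * s + 1)) c} = p * ((p - 1) * AA p s 1) := by
  classical
  have hpp : p.Prime := Fact.out
  haveI : NeZero (s * (2 * s + 1)) := ⟨by positivity⟩
  have h1 : Nat.card {c : ZMod (s * (2 * s + 1)) → ZMod p // c ∈ CW (ZMod p) (s * (2 * s + 1)) ∧
      YY p s (s * (2 * s + 1)) c} =
      Nat.card (ZMod p × {d : Fin s → ZMod p // HS p s d ∧ ∑ j, d j ≠ 0}) := by
    apply Nat.card_congr
    refine ⟨fun c => (c.1 0, ⟨dif s c.1, ?_, ?_⟩), fun q => ⟨bld hs q.1 q.2.1, ?_, ?_⟩, ?_, ?_⟩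
    · obtain ⟨c₀, hc, h⟩ := c.2.2
      exact (cw_iff hp hs hc h).mp c.2.1
    · obtain ⟨c₀, hc, h⟩ := c.2.2
      rw [dif_sum hs h]
      exact hc
    · rw [cw_iff hp hs q.2.2.2 (bld_yy hp hs q.1 q.2.1), bld_dif hp hs]
      exact q.2.2.1
    · exact ⟨_, q.2.2.2, bld_yy hp hs q.1 q.2.1⟩
    · intro c
      apply Subtype.ext
      funext i
      obtain ⟨c₀, hc, h⟩ := c.2.2
      have := dif_bld hs h i.val
      rw [ZMod.natCast_zmod_val] at this
      exact this.symm
    · rintro ⟨v, d, hd⟩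
      have e1 : bld hs v d 0 = v := by
        unfold bld
        rw [ZMod.val_zero]
        simp [SS]
      have e2 := bld_dif hp hs v d
      ext1
      · exact e1
      · exact Subtype.ext e2
  rw [h1, Nat.card_prod, Nat.card_zmod]
  congr 1
  have h2 : Nat.card {d : Fin s → ZMod p // HS p s d ∧ ∑ j, d j ≠ 0} =
      Nat.card (Σ c : {c : ZMod p // c ≠ 0}, {d : Fin s → ZMod p // HS p s d ∧ ∑ j, d j = c.1}) := by
    apply Nat.card_congr
    refine ⟨fun d => ⟨⟨∑ j, d.1 j, d.2.2⟩, ⟨d.1, d.2.1, rfl⟩⟩,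
      fun q => ⟨q.2.1, q.2.2.1, by rw [q.2.2.2]; exact q.1.2⟩, fun d => rfl, ?_⟩
    rintro ⟨⟨c, hc⟩, ⟨d, hd, hdc⟩⟩
    simp only at hdc
    subst hdc
    rfl
  rw [h2, Nat.card_sigma]
  have h3 : ∀ c : {c : ZMod p // c ≠ 0},
      Nat.card {d : Fin s → ZMod p // HS p s d ∧ ∑ j, d j = c.1} = AA p s 1 := by
    intro c
    exact AA_const c.1 c.2
  rw [Finset.sum_congr rfl (fun c _ => h3 c), Finset.sum_const, Finset.card_univ, smul_eq_mul]
  congr 1
  rw [Fintype.card_subtype_compl, ZMod.card]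
  simp

end

end Pool.Agent.MP_c3d1b0
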