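import Pool.Agent.Lib.MP_c3d1b0_co.Wief4

set_option autoImplicit false

/-!
# The number of Eulerian circuits of the complete graph on p points, modulo p
-/

namespace Pool.Agent.MP_c3d1b0

open Finset

section

variable {p s : ℕ} [Fact p.Prime]

lemma card_split (m : ℕ) [NeZero m] : Nat.card (CW (ZMod p) m) = Nat.card (XX p s m) +
    Nat.card {c : ZMod m → ZMod p // c ∈ CW (ZMod p) m ∧ YY p s m c} := by
  classical
  rw [← Nat.card_sum]
  apply Nat.card_congr
  refine ⟨fun c => if h : YY p s m c.1 then Sum.inr ⟨c.1, c.2, h⟩ else Sum.inl ⟨c.1, c.2, h⟩,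
    fun q => Sum.elim (fun c => ⟨c.1, c.2.1⟩) (fun c => ⟨c.1, c.2.1⟩) q, ?_, ?_⟩
  · intro c
    by_cases h : YY p s m c.1
    · simp [h]
    · simp [h]
  · rintro (c | c)
    · have h : ¬ YY p s m c.1 := c.2.2
      simp [h]
    · have h : YY p s m c.1 := c.2.2
      simp [h]

theorem wief_main (hp : p = 2 * s + 1) (hs : 0 < s) :
    (p : ℤ) * ((Nat.factorial (s - 1)) ^ (2 * s + 1) * EE (ZMod p) s 0 : ℕ) ≡
      (Nat.factorial (s - 1) : ℤ) * (legendreSym p 2 - 2 ^ s) [ZMOD (p : ℤ) ^ 2] := by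
  have hpp : p.Prime := Fact.out
  haveI : NeZero (s * (2 * s + 1)) := ⟨by positivity⟩
  have hm : 1 < s * (2 * s + 1) := by nlinarith
  have h1 := card_ww_best (V := ZMod p) hs (by rw [ZMod.card, hp]) 0
  rw [card_ww_cw hm, card_split (p := p) (s := s), card_yy hp hs] at h1
  have h2 : Nat.card (Multiplicative (ZMod (s * (2 * s + 1)) × ZMod p)) ∣
      Nat.card (XX p s (s * (2 * s + 1))) := free_dvd (act_free hp hs)
  have h3 : Nat.card (Multiplicative (ZMod (s * (2 * s + 1)) × ZMod p)) = s * p ^ 2 := by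
    rw [Nat.card_eq_fintype_card, Fintype.card_multiplicative, Fintype.card_prod, ZMod.card, ZMod.card,
      ← hp]
    ring
  rw [h3] at h2
  obtain ⟨k, hk⟩ := h2
  obtain ⟨h4, h5⟩ := AA_main (p := p) (s := s) hp
  set e := (Nat.factorial (s - 1)) ^ (2 * s + 1) * EE (ZMod p) s 0 with he
  rw [hk, ← hp] at h1
  have h6 : ((s * p ^ 2 * k + p * ((p - 1) * AA p s 1) : ℕ) : ℤ) = ((s * p * e : ℕ) : ℤ) := by
    rw [h1]
  have h7 : ((p - 1 : ℕ) : ℤ) = (p : ℤ) - 1 := by
    rw [Nat.cast_sub hpp.one_le]; simp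
  push_cast at h6
  rw [h7] at h6
  have hfac : (Nat.factorial s : ℤ) = s * (Nat.factorial (s - 1) : ℤ) := by
    exact_mod_cast (Nat.mul_factorial_pred hs.ne').symm
  have hcop : IsCoprime (p : ℤ) (Nat.factorial s : ℤ) := by
    rw [Nat.isCoprime_iff_coprime, Nat.Prime.coprime_iff_not_dvd hpp, hpp.dvd_factorial]
    omega
  have hcops : IsCoprime ((p : ℤ) ^ 2) (s : ℤ) := by
    apply IsCoprime.pow_left
    rw [Nat.isCoprime_iff_coprime, Nat.Prime.coprime_iff_not_dvd hpp]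
    intro h
    have := Nat.le_of_dvd hs h
    omega
  have h8 : (p : ℤ) ∣ 2 ^ s - legendreSym p 2 := by
    apply hcop.dvd_of_dvd_mul_left
    exact ⟨_, h5.symm⟩
  obtain ⟨l, hl⟩ := h8
  -- s * (p e) - s * (s-1)! (δ - 2^s) is divisible by p^2
  rw [Int.modEq_iff_dvd]
  apply hcops.dvd_of_dvd_mul_left
  refine ⟨-(s * k) - (Nat.factorial s : ℤ) * l, ?_⟩
  have h9 : (legendreSym p 2 - 2 ^ s : ℤ) = - (p * l) := by rw [← hl]; ring
  have h10 : (p : ℤ) * AA p s 1 = (Nat.factorial s : ℤ) * (p * l) := by rw [h5, hl]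
  have h11 : (s : ℤ) * ((Nat.factorial (s - 1) : ℤ) * (legendreSym p 2 - 2 ^ s) - p * (e : ℤ)) =
      (Nat.factorial s : ℤ) * (- (p * l)) - s * p * e := by
    rw [hfac, h9]; ring
  have h12 : (s : ℤ) * p * e = s * p ^ 2 * k + ((p : ℤ) - 1) * ((Nat.factorial s : ℤ) * (p * l)) := by
    rw [← h10]
    linear_combination -h6
  rw [h11, h12]
  ring

/-- Divisibility by `p` happens exactly for the Wieferich primes. -/
theorem wief_iff (hp : p = 2 * s + 1) (hs : 0 < s) {e : ℕ}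
    (h : (p : ℤ) * (e : ℤ) ≡ (Nat.factorial (s - 1) : ℤ) * (legendreSym p 2 - 2 ^ s) [ZMOD (p : ℤ) ^ 2]) :
    p ∣ e ↔ p ^ 2 ∣ 2 ^ (p - 1) - 1 := by
  have hpp : p.Prime := Fact.out
  have hp0 : (p : ℤ) ≠ 0 := by exact_mod_cast hpp.ne_zero
  have h20 : (2 : ZMod p) ≠ 0 := by
    intro h
    have h8 : ((2 : ℕ) : ZMod p) = 0 := by exact_mod_cast h
    rw [ZMod.natCast_eq_zero_iff] at h8
    have := Nat.le_of_dvd (by norm_num) h8
    omega
  have hleg : legendreSym p 2 = 1 ∨ legendreSym p 2 = -1 :=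
    legendreSym.eq_one_or_neg_one p (by exact_mod_cast h20)
  have hcop : IsCoprime ((p : ℤ) ^ 2) (Nat.factorial (s - 1) : ℤ) := by
    apply IsCoprime.pow_left
    rw [Nat.isCoprime_iff_coprime, Nat.Prime.coprime_iff_not_dvd hpp, hpp.dvd_factorial]
    omega
  have h1 : p ∣ e ↔ (p : ℤ) ^ 2 ∣ (p : ℤ) * e := by
    rw [pow_two, mul_dvd_mul_iff_left hp0]
    exact Int.natCast_dvd_natCast.symm
  have h2 : (p : ℤ) ^ 2 ∣ (p : ℤ) * e ↔ (p : ℤ) ^ 2 ∣ legendreSym p 2 - 2 ^ s := by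
    rw [Int.ModEq.dvd_iff h]
    constructor
    · intro h3
      exact hcop.dvd_of_dvd_mul_left h3
    · intro h3
      exact Dvd.dvd.mul_left h3 _
  have h3 : (p : ℤ) ^ 2 ∣ legendreSym p 2 - 2 ^ s ↔ (p : ℤ) ^ 2 ∣ 2 ^ (2 * s) - 1 := by
    have hsq : (legendreSym p 2 : ℤ) ^ 2 = 1 := by
      rcases hleg with h | h <;> rw [h] <;> norm_num
    have hfac : (2 : ℤ) ^ (2 * s) - 1 = -(legendreSym p 2 - 2 ^ s) * (2 ^ s + legendreSym p 2) := by
      have : (2 : ℤ) ^ (2 * s) = (2 ^ s) ^ 2 := by rw [mul_comm, pow_mul]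
      rw [this]
      linear_combination hsq
    constructor
    · rintro ⟨l, hl⟩
      rw [hfac, hl]
      exact ⟨-(l * (2 ^ s + legendreSym p 2)), by ring⟩
    · intro h4
      rw [hfac] at h4
      -- p divides δ - 2^s by Euler
      have h5 : (p : ℤ) ∣ legendreSym p 2 - 2 ^ s := by
        have h6 := legendreSym.eq_pow p 2
        have h7 : p / 2 = s := by omega
        rw [h7] at h6
        rw [← ZMod.intCast_zmod_eq_zero_iff_dvd]
        push_cast
        rw [h6]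
        norm_num
      have h8 : IsCoprime ((p : ℤ) ^ 2) (2 ^ s + legendreSym p 2) := by
        apply IsCoprime.pow_left
        rw [(Nat.prime_iff_prime_int.mp hpp).irreducible.coprime_iff_not_dvd]
        intro h9
        have h10 : (p : ℤ) ∣ 2 * legendreSym p 2 := by
          have := dvd_add h5 h9
          have e1 : legendreSym p 2 - 2 ^ s + (2 ^ s + legendreSym p 2) = 2 * legendreSym p 2 := by ring
          rwa [e1] at this
        have h11 : (p : ℤ) ∣ 2 := by
          rcases hleg with h | h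
          · rw [h] at h10; simpa using h10
          · rw [h] at h10; simpa using h10
        have h12 : p ∣ 2 := by exact_mod_cast h11
        have := Nat.le_of_dvd (by norm_num) h12
        omega
      have h13 := h8.dvd_of_dvd_mul_right h4
      have h14 : legendreSym p 2 - 2 ^ s = -(-(legendreSym p 2 - 2 ^ s)) := by ring
      rw [h14]
      exact (dvd_neg).mpr h13
  rw [h1, h2, h3]
  have h4 : p - 1 = 2 * s := by omega
  rw [h4]
  have h5 : 1 ≤ 2 ^ (2 * s) := Nat.one_le_two_pow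
  constructor
  · intro h6
    have h7 : ((p ^ 2 : ℕ) : ℤ) ∣ ((2 ^ (2 * s) - 1 : ℕ) : ℤ) := by
      rw [Nat.cast_sub h5]
      push_cast
      exact h6
    exact Int.natCast_dvd_natCast.mp h7
  · intro h6
    have h7 : ((p ^ 2 : ℕ) : ℤ) ∣ ((2 ^ (2 * s) - 1 : ℕ) : ℤ) := Int.natCast_dvd_natCast.mpr h6
    rw [Nat.cast_sub h5] at h7
    push_cast at h7
    exact h7

end

end Pool.Agent.MP_c3d1b0
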